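import Mathlib
import Pool.Agent.Work.MP_7d5fe8_co.Defs

set_option autoImplicit false

/-!
# T/Defs (fixed file): codes, balls, the chromatic number

`A(n, D)` is `codeSize n D`, `χ(Q_n^d)` is `chi n d`.
-/

namespace MP7d5fe8.T

open Finset

/-- a binary code of length `n` and minimum distance at least `D` -/
def IsCode (n D : ℕ) (C : Finset (Finset (Fin n))) : Prop :=
  ∀ x ∈ C, ∀ y ∈ C, x ≠ y → D ≤ (symmDiff x y).card

/-- the largest number of words of a binary code of length `n` and minimum distance at least `D` -/
noncomputable def codeSize (n D : ℕ) : ℕ :=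
  sSup {k : ℕ | ∃ C : Finset (Finset (Fin n)), IsCode n D C ∧ C.card = k}

/-- the chromatic number of `Q_n^d` as a natural number -/
noncomputable def chi (n d : ℕ) : ℕ := (QPow n d).chromaticNumber.toNat

/-- the number of subsets of an `n`-element set with at most `r` elements -/
def vol (n r : ℕ) : ℕ := ∑ i ∈ range (r + 1), n.choose i

/-! ## Tools -/

/-- the subsets with at most `r` elements -/
def ball (n r : ℕ) : Finset (Finset (Fin n)) := univ.filter fun x => x.card ≤ r

/-- the sums `c ∆ e`, `c ∈ C`, `e ∈ E`, determine `c` (and `e`) -/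
def Ind {n : ℕ} (C E : Finset (Finset (Fin n))) : Prop :=
  ∀ c ∈ C, ∀ c' ∈ C, ∀ e ∈ E, ∀ e' ∈ E, symmDiff c e = symmDiff c' e' → c = c'

open Classical in
/-- the number of translates of `C ∆ E` which contain `x` -/
noncomputable def deg {n K : ℕ} (C E : Finset (Finset (Fin n))) (z : Fin K → Finset (Fin n)) (x : Finset (Fin n)) : ℕ :=
  (univ.filter fun i => ∃ c ∈ C, ∃ e ∈ E, symmDiff x (z i) = symmDiff c e).card

open Classical in
/-- the number of points `a ∆ e`, `e ∈ E`, which are not covered by the translates of `C` -/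
noncomputable def unc {n K : ℕ} (C E : Finset (Finset (Fin n))) (z : Fin K → Finset (Fin n)) (a : Finset (Fin n)) : ℕ :=
  (E.filter fun e => ∀ i, symmDiff (symmDiff a e) (z i) ∉ C).card

end MP7d5fe8.T
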