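import Mathlib
import Pool.Agent.Work.MP_7d5fe8_co.T.Defs

set_option autoImplicit false

/-!
# T/Avg1 (M): random translates, the degrees

Average over all `z : Fin K → Finset (Fin n)` of `∑ x, s ^ deg C E z x`. For fixed `x`: `s ^ deg = ∏ i, (if x ∆ z i ∈ C ∆ E then s else 1)`, so the sum over `z` is the `K`-th
power of `∑ t, (if x ∆ t ∈ C ∆ E then s else 1) = 2 ^ n - (1 - s) |C| |E|` (`C ∆ E`, the image of `C ×ˢ E` under `(c, e) ↦ c ∆ e`, has `|C| |E|` elements by `Ind`:
`c ∆ e = c' ∆ e'` gives `c = c'`, then `e = e'`; `t ↦ x ∆ t` is a bijection). `1 - (1 - s) |C| |E| / 2 ^ n ≤ exp (..)`. `Finset.prod_univ_sum` / `Fintype.piFinset_univ`,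
`Finset.exists_le_of_sum_le`.
-/

namespace MP7d5fe8.T

open Finset

variable {n : ℕ}

private theorem card_CE (C E : Finset (Finset (Fin n))) (h : Ind C E) (x : Finset (Fin n)) :
    (univ.filter fun t : Finset (Fin n) => ∃ c ∈ C, ∃ e ∈ E, symmDiff x t = symmDiff c e).card = C.card * E.card := by
  classical
  have h1 : (univ.filter fun t : Finset (Fin n) => ∃ c ∈ C, ∃ e ∈ E, symmDiff x t = symmDiff c e) =
      (C ×ˢ E).image fun q => symmDiff x (symmDiff q.1 q.2) := by
    ext t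
    simp only [mem_filter, mem_univ, true_and, mem_image, mem_product, Prod.exists]
    constructor
    · rintro ⟨c, hc, e, he, h2⟩
      refine ⟨c, e, ⟨hc, he⟩, ?_⟩
      rw [← h2, symmDiff_symmDiff_cancel_left]
    · rintro ⟨c, e, ⟨hc, he⟩, rfl⟩
      exact ⟨c, hc, e, he, symmDiff_symmDiff_cancel_left _ _⟩
  rw [h1, card_image_of_injOn, card_product]
  rintro ⟨c, e⟩ hq ⟨c', e'⟩ hq' h2
  rw [mem_coe, mem_product] at hq hq'
  have h3 : symmDiff c e = symmDiff c' e' := symmDiff_right_injective x h2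
  have h4 : c = c' := h c hq.1 c' hq'.1 e hq.2 e' hq'.2 h3
  subst h4
  have h5 : e = e' := symmDiff_right_injective c h3
  rw [h5]

private theorem sum_z (C E : Finset (Finset (Fin n))) (h : Ind C E) (K : ℕ) {s : ℝ} (hs0 : 0 < s) (hs1 : s ≤ 1)
    (x : Finset (Fin n)) : ∑ z : Fin K → Finset (Fin n), s ^ deg C E z x ≤
      (2 ^ n) ^ K * Real.exp (-((1 - s) * (K * (C.card * E.card) / 2 ^ n))) := by
  classical
  have h2n : (0 : ℝ) < 2 ^ n := by positivity
  have e1 : ∀ z : Fin K → Finset (Fin n), s ^ deg C E z x =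
      ∏ i, if ∃ c ∈ C, ∃ e ∈ E, symmDiff x (z i) = symmDiff c e then s else 1 := by
    intro z
    rw [← prod_filter, prod_const]
    unfold deg
    congr 2
  rw [sum_congr rfl fun z _ => e1 z]
  have e2 := (Finset.prod_univ_sum (fun _ : Fin K => (univ : Finset (Finset (Fin n))))
    (fun _ t => if ∃ c ∈ C, ∃ e ∈ E, symmDiff x t = symmDiff c e then s else 1)).symm
  rw [Fintype.piFinset_univ] at e2
  rw [e2, prod_const, card_univ, Fintype.card_fin]
  have e3 : ∑ t : Finset (Fin n), (if ∃ c ∈ C, ∃ e ∈ E, symmDiff x t = symmDiff c e then s else 1) =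
      2 ^ n * (1 - (1 - s) * ((C.card * E.card) / 2 ^ n)) := by
    have e4 : ∀ t : Finset (Fin n), (if ∃ c ∈ C, ∃ e ∈ E, symmDiff x t = symmDiff c e then s else 1) =
        1 - (1 - s) * (if ∃ c ∈ C, ∃ e ∈ E, symmDiff x t = symmDiff c e then 1 else 0) := by
      intro t
      split_ifs <;> ring
    rw [sum_congr rfl fun t _ => e4 t, sum_sub_distrib, ← mul_sum, ← sum_filter, sum_const, sum_const, card_univ,
      Fintype.card_finset, Fintype.card_fin, nsmul_eq_mul, nsmul_eq_mul, card_CE C E h x]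
    push_cast
    field_simp
  have e5 : 0 ≤ 1 - (1 - s) * ((C.card * E.card : ℝ) / 2 ^ n) := by
    have h6 : (0 : ℝ) ≤ ∑ t : Finset (Fin n), (if ∃ c ∈ C, ∃ e ∈ E, symmDiff x t = symmDiff c e then s else 1) :=
      sum_nonneg fun t _ => by split_ifs <;> linarith
    rw [e3] at h6
    by_contra hc
    have := mul_neg_of_pos_of_neg h2n (not_le.1 hc)
    linarith
  rw [e3, mul_pow]
  refine mul_le_mul_of_nonneg_left ?_ (by positivity)
  calc (1 - (1 - s) * ((C.card * E.card : ℝ) / 2 ^ n)) ^ K ≤ Real.exp (-((1 - s) * ((C.card * E.card : ℝ) / 2 ^ n))) ^ K := by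
        refine pow_le_pow_left₀ e5 ?_ K
        have := Real.add_one_le_exp (-((1 - s) * ((C.card * E.card : ℝ) / 2 ^ n)))
        linarith
    _ = _ := by
        rw [← Real.exp_nat_mul]
        congr 1
        ring

theorem avg1 (C E : Finset (Finset (Fin n))) (h : Ind C E) (K : ℕ) {s : ℝ} (hs0 : 0 < s) (hs1 : s ≤ 1) :
    ∃ z : Fin K → Finset (Fin n), ∀ x : Finset (Fin n),
      s ^ deg C E z x ≤ 2 ^ n * Real.exp (-((1 - s) * (K * (C.card * E.card) / 2 ^ n))) := by
  classical
  have h1 : ∑ z : Fin K → Finset (Fin n), ∑ x : Finset (Fin n), s ^ deg C E z x ≤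
      ∑ _z : Fin K → Finset (Fin n), 2 ^ n * Real.exp (-((1 - s) * (K * (C.card * E.card) / 2 ^ n))) := by
    rw [sum_comm]
    refine (sum_le_sum fun x _ => sum_z C E h K hs0 hs1 x).trans (le_of_eq ?_)
    rw [sum_const, sum_const, card_univ, card_univ, Fintype.card_finset, Fintype.card_fun, Fintype.card_finset,
      Fintype.card_fin, nsmul_eq_mul, nsmul_eq_mul, Fintype.card_fin]
    push_cast
    ring
  obtain ⟨z, -, hz⟩ := exists_le_of_sum_le (s := (univ : Finset (Fin K → Finset (Fin n)))) univ_nonempty h1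
  refine ⟨z, fun x => le_trans ?_ hz⟩
  exact single_le_sum (f := fun x => s ^ deg C E z x) (fun x _ => by positivity) (mem_univ x)

end MP7d5fe8.T
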