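import Mathlib
import Pool.Agent.Work.MP_7d5fe8_co.T.Defs

set_option autoImplicit false

/-!
# T/Base (S): simple properties of `codeSize` and `chi`

`sSup` of a nonempty bounded set of naturals (`Nat.sSup_mem`; the empty code and the codes with one word are codes; a code has at most `2 ^ n`
words). `codeSize_top`: two different subsets of `Fin n` have a symmetric difference with at most `n` elements. `chi_spec`: `Q_n^d` has
`2 ^ n` vertices, so it is colourable with `2 ^ n` colours (`SimpleGraph.colorable_of_fintype`, `SimpleGraph.Colorable.chromaticNumber_le`, `ENat.coe_toNat`).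
-/

namespace MP7d5fe8.T

open Finset

variable {n d D D' : ℕ} {C : Finset (Finset (Fin n))}

private theorem bdd (n D : ℕ) : BddAbove {k : ℕ | ∃ C : Finset (Finset (Fin n)), IsCode n D C ∧ C.card = k} := by
  refine ⟨2 ^ n, ?_⟩
  rintro k ⟨C, -, rfl⟩
  refine (card_le_univ C).trans (le_of_eq ?_)
  simp

private theorem nonempty (n D : ℕ) : {k : ℕ | ∃ C : Finset (Finset (Fin n)), IsCode n D C ∧ C.card = k}.Nonempty :=
  ⟨0, ∅, fun x hx => absurd hx (notMem_empty x), card_empty⟩

theorem exists_code (n D : ℕ) : ∃ C : Finset (Finset (Fin n)), IsCode n D C ∧ C.card = codeSize n D :=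
  Nat.sSup_mem (nonempty n D) (bdd n D)

theorem card_le_codeSize (h : IsCode n D C) : C.card ≤ codeSize n D :=
  le_csSup (bdd n D) ⟨C, h, rfl⟩

theorem codeSize_pos (n D : ℕ) : 1 ≤ codeSize n D := by
  have h : IsCode n D ({∅} : Finset (Finset (Fin n))) := by
    intro x hx y hy hne
    rw [mem_singleton] at hx hy
    exact absurd (hx.trans hy.symm) hne
  have := card_le_codeSize h
  rwa [card_singleton] at this

theorem codeSize_anti (h : D ≤ D') : codeSize n D' ≤ codeSize n D := by
  obtain ⟨C, hC, hc⟩ := exists_code n D'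
  rw [← hc]
  exact card_le_codeSize fun x hx y hy hne => h.trans (hC x hx y hy hne)

theorem codeSize_le (n D : ℕ) : codeSize n D ≤ 2 ^ n := by
  obtain ⟨C, -, hc⟩ := exists_code n D
  rw [← hc]
  refine (card_le_univ C).trans (le_of_eq ?_)
  simp

theorem codeSize_top (h : n < D) : codeSize n D = 1 := by
  refine le_antisymm ?_ (codeSize_pos n D)
  obtain ⟨C, hC, hc⟩ := exists_code n D
  rw [← hc, card_le_one]
  intro x hx y hy
  by_contra hne
  have h1 := hC x hx y hy hne
  have h2 := card_le_univ (symmDiff x y)
  rw [Fintype.card_fin] at h2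
  omega

theorem chi_spec (n d : ℕ) : (QPow n d).chromaticNumber = chi n d := by
  unfold chi
  refine (ENat.coe_toNat ?_).symm
  exact SimpleGraph.chromaticNumber_ne_top_iff_exists.2 ⟨_, (QPow n d).colorable_of_fintype⟩

theorem chi_le {k : ℕ} (h : (QPow n d).Colorable k) : chi n d ≤ k := by
  have h1 := h.chromaticNumber_le
  rw [chi_spec] at h1
  exact_mod_cast h1

end MP7d5fe8.T
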