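import Mathlib
import Pool.Agent.Work.MP_7d5fe8_co.T.Base

set_option autoImplicit false

/-!
# T/Ball (S-M): balls, sphere packing, the Gilbert-Varshamov bound

`card_ball`: sum over `Finset.powersetCard i univ`. `ind_of_code`: `c ∆ e = c' ∆ e'` gives `c ∆ c' = e ∆ e'`, with at most `2 r < D` elements. `pack`: for a code
with `codeSize n D` words the map `(c, e) ↦ c ∆ e` on `C ×ˢ ball n r` is injective (`ind_of_code`, then `e = e'`). `gv`: take a code `C` with
`codeSize n (D + 1)` words; every `x` is in some `c ∆ ball n D`: otherwise `insert x C` is a larger code; so the map `(c, e) ↦ c ∆ e` is onto.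
-/

namespace MP7d5fe8.T

open Finset

variable {n D r : ℕ} {C : Finset (Finset (Fin n))}

theorem card_ball (n r : ℕ) : (ball n r).card = vol n r := by
  have h : ball n r = (range (r + 1)).biUnion fun i => powersetCard i (univ : Finset (Fin n)) := by
    ext x
    simp only [ball, mem_filter, mem_univ, true_and, mem_biUnion, mem_range, mem_powersetCard, subset_univ]
    constructor
    · intro hx
      exact ⟨x.card, by omega, rfl⟩
    · rintro ⟨i, hi, hx⟩
      omega
  rw [h, card_biUnion]
  · unfold vol
    refine sum_congr rfl fun i _ => ?_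
    rw [card_powersetCard, card_univ, Fintype.card_fin]
  · intro i _ j _ hij
    exact Finset.pairwise_disjoint_powersetCard _ hij

private theorem card_symmDiff_le (x y : Finset (Fin n)) : (symmDiff x y).card ≤ x.card + y.card := by
  refine (card_le_card (t := x ∪ y) ?_).trans (card_union_le x y)
  intro i hi
  rw [mem_symmDiff] at hi
  rw [mem_union]
  tauto

private theorem swap4 {c c' e e' : Finset (Fin n)} (h : symmDiff c e = symmDiff c' e') : symmDiff c c' = symmDiff e e' := by
  have h1 : c' = symmDiff (symmDiff c e) e' := by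
    rw [h, symmDiff_symmDiff_cancel_right]
  rw [h1, symmDiff_assoc c e e', symmDiff_symmDiff_cancel_left]

theorem ind_of_code (h : IsCode n D C) (hr : 2 * r < D) : Ind C (ball n r) := by
  intro c hc c' hc' e he e' he' h1
  by_contra hne
  have h2 := h c hc c' hc' hne
  rw [swap4 h1] at h2
  have h3 := card_symmDiff_le e e'
  have h4 : e.card ≤ r := (mem_filter.1 he).2
  have h5 : e'.card ≤ r := (mem_filter.1 he').2
  omega

theorem pack (h : 2 * r < D) : codeSize n D * vol n r ≤ 2 ^ n := by
  obtain ⟨C, hC, hc⟩ := exists_code n D
  have hI := ind_of_code hC h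
  rw [← hc, ← card_ball, ← card_product]
  have h1 : (C ×ˢ ball n r).card ≤ (univ : Finset (Finset (Fin n))).card := by
    refine card_le_card_of_injOn (fun q => symmDiff q.1 q.2) (fun _ _ => mem_coe.2 (mem_univ _)) ?_
    rintro ⟨c, e⟩ hq ⟨c', e'⟩ hq' h2
    rw [mem_coe, mem_product] at hq hq'
    have h3 : symmDiff c e = symmDiff c' e' := h2
    have h4 : c = c' := hI c hq.1 c' hq'.1 e hq.2 e' hq'.2 h3
    subst h4
    have h5 : e = e' := symmDiff_right_injective c h3
    rw [h5]
  refine h1.trans (le_of_eq ?_)
  simp

theorem gv (n D : ℕ) : 2 ^ n ≤ codeSize n (D + 1) * vol n D := by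
  obtain ⟨C, hC, hc⟩ := exists_code n (D + 1)
  rw [← hc, ← card_ball, ← card_product]
  have h1 : (univ : Finset (Finset (Fin n))) ⊆ (C ×ˢ ball n D).image fun q => symmDiff q.1 q.2 := by
    intro x _
    rw [mem_image]
    by_contra hx
    push Not at hx
    have hxC : ∀ c ∈ C, D + 1 ≤ (symmDiff c x).card := by
      intro c hcC
      by_contra hlt
      refine hx (c, symmDiff c x) (mem_product.2 ⟨hcC, mem_filter.2 ⟨mem_univ _, Nat.lt_succ_iff.1 (not_le.1 hlt)⟩⟩) ?_
      exact symmDiff_symmDiff_cancel_left c x
    have hxn : x ∉ C := by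
      intro hxC'
      have := hxC x hxC'
      rw [symmDiff_self] at this
      simp at this
    have h2 : IsCode n (D + 1) (insert x C) := by
      intro u hu v hv huv
      rw [mem_insert] at hu hv
      rcases hu with rfl | hu
      · rcases hv with rfl | hv
        · exact absurd rfl huv
        · rw [symmDiff_comm]
          exact hxC v hv
      · rcases hv with rfl | hv
        · exact hxC u hu
        · exact hC u hu v hv huv
    have h3 := card_le_codeSize h2
    rw [card_insert_of_notMem hxn, hc] at h3
    omega
  have h2 := (card_le_card h1).trans card_image_le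
  refine le_trans (le_of_eq ?_) h2
  simp

end MP7d5fe8.T
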