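import Mathlib
import Pool.Agent.Work.MP_7d5fe8_co.T.Defs

set_option autoImplicit false

/-!
# T/Hall (M): the matching

Hall's theorem (`Finset.all_card_le_biUnion_card_iff_exists_injective`) for the points `x ∈ U` and the agents `(i, c)`, `c ∈ C`; the agent `(i, c)` is joined to `x` if
`x ∆ z i = c ∆ e` for some `e ∈ E`, that is `x = a ∆ e` with `a = z i ∆ c`. A point `x` has at least `deg C E z x` agents (for each `i` counted choose one `c`). An agent has
at most `m a = #{e ∈ E | a ∆ e ∈ U}` points. Let `Δ` be the maximum of `m a` over all `a` (`Finset.exists_max_image`); every `x ∈ U` has at least `Δ` agents, every agent at most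
`Δ` points, so for `S ⊆ U`: `Δ |S| ≤ #edges ≤ Δ |N(S)|`; if `Δ = 0` then `U = ∅` because `x = a ∆ e` with `a = x ∆ e`, `e ∈ E`.
-/

namespace MP7d5fe8.T

open Finset

variable {n : ℕ}

open Classical in
private theorem deg_le {K : ℕ} (C E : Finset (Finset (Fin n))) (z : Fin K → Finset (Fin n)) (x : Finset (Fin n)) :
    deg C E z x ≤ (((univ : Finset (Fin K)) ×ˢ C).filter fun q => ∃ e ∈ E, symmDiff x (z q.1) = symmDiff q.2 e).card := by
  unfold deg
  have h : ∀ i : Fin K, ∃ c : Finset (Fin n), (∃ c ∈ C, ∃ e ∈ E, symmDiff x (z i) = symmDiff c e) →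
      c ∈ C ∧ ∃ e ∈ E, symmDiff x (z i) = symmDiff c e := by
    intro i
    by_cases h : ∃ c ∈ C, ∃ e ∈ E, symmDiff x (z i) = symmDiff c e
    · obtain ⟨c, hc, he⟩ := h
      exact ⟨c, fun _ => ⟨hc, he⟩⟩
    · exact ⟨∅, fun h' => absurd h' h⟩
  choose g hg using h
  refine card_le_card_of_injOn (fun i => (i, g i)) ?_ ?_
  · intro i hi
    rw [mem_coe, mem_filter] at hi
    rw [mem_coe, mem_filter, mem_product]
    exact ⟨⟨mem_univ _, (hg i hi.2).1⟩, (hg i hi.2).2⟩
  · intro i _ j _ hij
    exact congrArg Prod.fst hij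

open Classical in
theorem hall {K : ℕ} (U C E : Finset (Finset (Fin n))) (z : Fin K → Finset (Fin n)) (hE : E.Nonempty)
    (h : ∀ x ∈ U, ∀ a, (E.filter fun e => symmDiff a e ∈ U).card ≤ deg C E z x) :
    ∃ f : {x // x ∈ U} → Fin K × Finset (Fin n),
      (∀ x, (f x).2 ∈ C ∧ ∃ e ∈ E, symmDiff x.1 (z (f x).1) = symmDiff (f x).2 e) ∧ Function.Injective f := by
  let N : {x // x ∈ U} → Finset (Fin K × Finset (Fin n)) := fun x =>
    ((univ : Finset (Fin K)) ×ˢ C).filter fun q => ∃ e ∈ E, symmDiff x.1 (z q.1) = symmDiff q.2 e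
  have key : ∀ s : Finset {x // x ∈ U}, s.card ≤ (s.biUnion N).card := by
    intro s
    obtain ⟨a0, -, ha0⟩ := exists_max_image (univ : Finset (Finset (Fin n)))
      (fun a => (E.filter fun e => symmDiff a e ∈ U).card) univ_nonempty
    set Δ := (E.filter fun e => symmDiff a0 e ∈ U).card with hΔ
    rcases s.eq_empty_or_nonempty with rfl | ⟨x0, hx0⟩
    · simp
    have hΔ0 : 0 < Δ := by
      obtain ⟨e0, he0⟩ := hE
      refine lt_of_lt_of_le ?_ (ha0 (symmDiff x0.1 e0) (mem_univ _))
      refine card_pos.2 ⟨e0, mem_filter.2 ⟨he0, ?_⟩⟩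
      rw [symmDiff_symmDiff_cancel_right]
      exact x0.2
    -- double counting
    have h1 : s.card * Δ ≤ ∑ x ∈ s, (N x).card := by
      rw [← smul_eq_mul, ← sum_const]
      exact sum_le_sum fun x _ => (h x.1 x.2 a0).trans (deg_le C E z x.1)
    have h2 : ∑ x ∈ s, (N x).card = ∑ q ∈ s.biUnion N, (s.filter fun x => q ∈ N x).card := by
      have e1 : ∀ x ∈ s, (N x).card = ∑ q ∈ s.biUnion N, if q ∈ N x then 1 else 0 := by
        intro x hx
        rw [← sum_filter, sum_const, smul_eq_mul, mul_one]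
        congr 1
        refine Finset.ext fun q => ?_
        constructor
        · intro hq
          exact mem_filter.2 ⟨mem_biUnion.2 ⟨x, hx, hq⟩, hq⟩
        · intro hq
          exact (mem_filter.1 hq).2
      rw [sum_congr rfl e1, sum_comm]
      refine sum_congr rfl fun q _ => ?_
      rw [← sum_filter, sum_const, smul_eq_mul, mul_one]
    have h3 : ∀ q ∈ s.biUnion N, (s.filter fun x => q ∈ N x).card ≤ Δ := by
      intro q _
      refine le_trans ?_ (ha0 (symmDiff (z q.1) q.2) (mem_univ _))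
      refine card_le_card_of_injOn (fun x => symmDiff (symmDiff (z q.1) q.2) x.1) ?_ ?_
      · intro x hx
        rw [mem_coe, mem_filter] at hx
        have h4 := (mem_filter.1 hx.2).2
        obtain ⟨e, he, h5⟩ := h4
        have h6 : symmDiff (symmDiff (z q.1) q.2) x.1 = e := by
          rw [symmDiff_assoc, symmDiff_comm q.2 x.1, ← symmDiff_assoc, symmDiff_comm (z q.1) x.1, h5,
            symmDiff_comm, symmDiff_symmDiff_cancel_left]
        rw [mem_coe, mem_filter]
        refine ⟨?_, ?_⟩
        · show symmDiff (symmDiff (z q.1) q.2) x.1 ∈ E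
          rw [h6]
          exact he
        · show symmDiff (symmDiff (z q.1) q.2) (symmDiff (symmDiff (z q.1) q.2) x.1) ∈ U
          rw [symmDiff_symmDiff_cancel_left]
          exact x.2
      · intro x _ y _ hxy
        exact Subtype.ext (symmDiff_right_injective _ hxy)
    have h4 : s.card * Δ ≤ (s.biUnion N).card * Δ := by
      refine h1.trans ?_
      rw [h2, ← smul_eq_mul, ← sum_const]
      exact sum_le_sum h3
    exact Nat.le_of_mul_le_mul_right h4 hΔ0
  obtain ⟨f, hf, hfN⟩ := (Finset.all_card_le_biUnion_card_iff_exists_injective N).1 key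
  refine ⟨f, fun x => ?_, hf⟩
  have h1 := mem_filter.1 (hfN x)
  exact ⟨(mem_product.1 h1.1).2, h1.2⟩

end MP7d5fe8.T
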