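import Mathlib
import Pool.Agent.Work.MP_7d5fe8_co.T.Hall
import Pool.Agent.Work.MP_7d5fe8_co.T.Ball

set_option autoImplicit false

/-!
# T/Col (S-M): the colouring

`U` is the set of the `x` with `x ∆ z0 i ∉ C0` for all `i`; `unc C0 (ball n r) z0 a = #{e ∈ ball n r | a ∆ e ∈ U}`. Apply `hall` with `C = C1`, `E = ball n r` (nonempty: `∅`), `z = z1`. The colour of
`x ∉ U` is the first `i : Fin K0` with `x ∆ z0 i ∈ C0` (any choice), the colour of `x ∈ U` is `(f x).1 : Fin K1`: a colouring with values in `Fin K0 ⊕ Fin K1` (`Fintype.card_sum`).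
Proper: if `x ≠ y` have the same colour of the first kind, `x ∆ y = (x ∆ z) ∆ (y ∆ z)` is the sum of two different words of `C0`, so it has at least `d + 1` elements. If `x ≠ y` have the same
colour `i` of the second kind: `f x ≠ f y`, so the words `c = (f x).2`, `c' = (f y).2` are different, `x ∆ y = (c ∆ e) ∆ (c' ∆ e')` has at least `(d + 1 + 2 r) - r - r` elements.
-/

namespace MP7d5fe8.T

open Finset

variable {n : ℕ}

private theorem col_one {x y z : Finset (Fin n)} : symmDiff (symmDiff x z) (symmDiff y z) = symmDiff x y := by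
  rw [symmDiff_symmDiff_symmDiff_comm, symmDiff_self, symmDiff_bot]

private theorem col_card (a b : Finset (Fin n)) : (symmDiff a b).card ≤ a.card + b.card :=
  (Finset.card_le_card (show symmDiff a b ⊆ a ∪ b from symmDiff_le_sup)).trans (Finset.card_union_le _ _)

private theorem col_two {x y z c c' e e' : Finset (Fin n)} (h1 : symmDiff x z = symmDiff c e)
    (h2 : symmDiff y z = symmDiff c' e') :
    (symmDiff c c').card ≤ (symmDiff x y).card + (e.card + e'.card) := by
  have hc : symmDiff (symmDiff x z) e = c := by rw [h1, symmDiff_symmDiff_cancel_right]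
  have hc' : symmDiff (symmDiff y z) e' = c' := by rw [h2, symmDiff_symmDiff_cancel_right]
  have h3 : symmDiff c c' = symmDiff (symmDiff x y) (symmDiff e e') := by
    rw [← hc, ← hc', symmDiff_symmDiff_symmDiff_comm, col_one]
  rw [h3]
  have h4 := col_card (symmDiff x y) (symmDiff e e')
  have h5 := col_card e e'
  omega

theorem col {d r K0 K1 : ℕ} {C0 C1 : Finset (Finset (Fin n))} (h0 : IsCode n (d + 1) C0)
    (h1 : IsCode n (d + 1 + 2 * r) C1) (z0 : Fin K0 → Finset (Fin n)) (z1 : Fin K1 → Finset (Fin n))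
    (h : ∀ x a, unc C0 (ball n r) z0 a ≤ deg C1 (ball n r) z1 x) : (QPow n d).Colorable (K0 + K1) := by
  classical
  set U : Finset (Finset (Fin n)) := univ.filter fun x => ∀ i, symmDiff x (z0 i) ∉ C0 with hUdef
  have hmU : ∀ x, x ∈ U ↔ ∀ i, symmDiff x (z0 i) ∉ C0 := by
    intro x
    rw [hUdef, Finset.mem_filter]
    exact ⟨fun h => h.2, fun h => ⟨Finset.mem_univ x, h⟩⟩
  have hE : (ball n r).Nonempty := ⟨∅, by
    unfold ball
    rw [Finset.mem_filter, Finset.card_empty]
    exact ⟨Finset.mem_univ _, Nat.zero_le _⟩⟩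
  obtain ⟨f, hf, hinj⟩ := hall U C1 (ball n r) z1 hE (by
    intro x _ a
    refine le_trans (Finset.card_le_card ?_) (h x a)
    intro e he
    rw [Finset.mem_filter] at he ⊢
    exact ⟨he.1, (hmU _).1 he.2⟩)
  have hU : ∀ x, x ∉ U → ∃ i, symmDiff x (z0 i) ∈ C0 := by
    intro x hx
    rw [hmU] at hx
    push Not at hx
    exact hx
  have hcard : Fintype.card (Fin K0 ⊕ Fin K1) = K0 + K1 := by
    rw [Fintype.card_sum, Fintype.card_fin, Fintype.card_fin]
  rw [← hcard]
  refine (SimpleGraph.Coloring.mk (α := Fin K0 ⊕ Fin K1)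
    (fun x => if hx : x ∈ U then Sum.inr (f ⟨x, hx⟩).1 else Sum.inl (hU x hx).choose) ?_).colorable
  intro x y hxy hcol
  have hne : x ≠ y := hxy.ne
  obtain ⟨-, hd⟩ := hxy
  by_cases hx : x ∈ U <;> by_cases hy : y ∈ U
  · rw [dif_pos hx, dif_pos hy] at hcol
    have hi : (f ⟨x, hx⟩).1 = (f ⟨y, hy⟩).1 := Sum.inr_injective hcol
    obtain ⟨hcx, e, he, hex⟩ := hf ⟨x, hx⟩
    obtain ⟨hcy, e', he', hey⟩ := hf ⟨y, hy⟩
    rw [← hi] at hey
    have hcc : (f ⟨x, hx⟩).2 ≠ (f ⟨y, hy⟩).2 := by
      intro h2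
      exact hne (congrArg Subtype.val (hinj (Prod.ext hi h2)))
    have h3 := h1 _ hcx _ hcy hcc
    have h4 : _ ≤ (symmDiff x y).card + _ := col_two hex hey
    unfold ball at he he'
    have h5 := (Finset.mem_filter.1 he).2
    have h6 := (Finset.mem_filter.1 he').2
    omega
  · rw [dif_pos hx, dif_neg hy] at hcol
    exact Sum.inr_ne_inl hcol
  · rw [dif_neg hx, dif_pos hy] at hcol
    exact Sum.inl_ne_inr hcol
  · rw [dif_neg hx, dif_neg hy] at hcol
    have hi : (hU x hx).choose = (hU y hy).choose := Sum.inl_injective hcol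
    have h2 := (hU x hx).choose_spec
    have h3 := (hU y hy).choose_spec
    rw [← hi] at h3
    have h4 := h0 _ h2 _ h3 (fun h5 => hne (symmDiff_left_injective _ h5))
    rw [col_one] at h4
    omega

end MP7d5fe8.T
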