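import Mathlib
import Pool.Agent.Work.MP_7d5fe8_co.T.Col
import Pool.Agent.Work.MP_7d5fe8_co.T.Avg0
import Pool.Agent.Work.MP_7d5fe8_co.T.Avg1

set_option autoImplicit false

/-!
# T/Two (S-M): the two coverings

`two_log`: codes `C0`, `C1` of maximal size (`exists_code`), `Ind` from `ind_of_code` (`2 r < d + 1`), `avg0` for `C0`, `avg1` for `C1` with `s = 1 / 2`:
`2 ^ unc ≤ 2 ^ n exp (V exp (- K0 A0 / 2 ^ n))` and `(1/2) ^ deg ≤ 2 ^ n exp (- K1 A1 V / (2 2 ^ n))`; the hypothesis says `2 log (2 ^ n) + V exp (..) ≤ K1 A1 V / (2 2 ^ n)`, so `2 ^ unc ≤ 2 ^ deg`, `unc ≤ deg`,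
and `col`. `two_eps`: `K0 = 0` (`z0` the empty family, `C0` any code): `unc ≤ V = vol n r`; `avg1` with `s = 1 / (1 + ε)`, `1 - s = ε / (1 + ε)`, `K1 A1 V / 2 ^ n ≥ (1 + ε) V`:
`s ^ deg ≤ 2 ^ n exp (- ε V)`; if `deg < V` then `s ^ deg ≥ s ^ V = exp (- V log (1 + ε))`, against `n log 2 < V (ε - log (1 + ε))`. (`Ind C1 (ball n r)`: `2 r < d + 1 + 2 r`.)
-/

namespace MP7d5fe8.T

open Finset

private theorem exp_aux (n : ℕ) : (2 : ℝ) ^ n = Real.exp (n * Real.log 2) := by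
  rw [Real.exp_nat_mul, Real.exp_log (by norm_num)]

theorem two_log {n d r K0 K1 : ℕ} (hr : 2 * r ≤ d)
    (h : 4 * (n * Real.log 2) + 2 * (vol n r * Real.exp (-(K0 * codeSize n (d + 1) / 2 ^ n))) ≤
      K1 * (codeSize n (d + 1 + 2 * r) * vol n r) / 2 ^ n) : (QPow n d).Colorable (K0 + K1) := by
  obtain ⟨C0, hC0, hc0⟩ := exists_code n (d + 1)
  obtain ⟨C1, hC1, hc1⟩ := exists_code n (d + 1 + 2 * r)
  obtain ⟨z0, hz0⟩ := avg0 C0 (ball n r) (ind_of_code hC0 (by omega)) K0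
  obtain ⟨z1, hz1⟩ := avg1 C1 (ball n r) (ind_of_code hC1 (by omega)) K1 (s := 1 / 2) (by norm_num) (by norm_num)
  refine col hC0 hC1 z0 z1 fun x a => ?_
  have h0 := hz0 a
  have h1 := hz1 x
  rw [card_ball, hc0] at h0
  rw [card_ball, hc1] at h1
  set u := (vol n r : ℝ) * Real.exp (-(K0 * codeSize n (d + 1) / 2 ^ n)) with hu
  have h2 : (1 - 1 / 2 : ℝ) * (K1 * (codeSize n (d + 1 + 2 * r) * vol n r) / 2 ^ n) ≥ 2 * (n * Real.log 2) + u := by
    linarith
  have h3 : (1 / 2 : ℝ) ^ deg C1 (ball n r) z1 x ≤ Real.exp (-(n * Real.log 2 + u)) := by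
    refine h1.trans ?_
    rw [exp_aux, ← Real.exp_add]
    refine Real.exp_le_exp.2 ?_
    rw [← exp_aux]
    linarith
  have h4 : (2 : ℝ) ^ unc C0 (ball n r) z0 a ≤ Real.exp (n * Real.log 2 + u) := by
    refine h0.trans (le_of_eq ?_)
    rw [Real.exp_add, ← exp_aux]
  have h5 : Real.exp (n * Real.log 2 + u) ≤ (2 : ℝ) ^ deg C1 (ball n r) z1 x := by
    have h6 : (0 : ℝ) < (1 / 2 : ℝ) ^ deg C1 (ball n r) z1 x := by positivity
    have h7 := one_div_le_one_div_of_le h6 h3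
    rw [Real.exp_neg, one_div, one_div, inv_inv] at h7
    rw [one_div, inv_pow, inv_inv] at h7
    exact h7
  have h8 := h4.trans h5
  by_contra hlt
  have h9 := pow_lt_pow_right₀ (a := (2 : ℝ)) (by norm_num) (not_le.1 hlt)
  linarith

theorem two_eps {n d r K : ℕ} {ε : ℝ} (hε : 0 < ε) (hV : n * Real.log 2 < vol n r * (ε - Real.log (1 + ε)))
    (h : (1 + ε) * 2 ^ n ≤ K * codeSize n (d + 1 + 2 * r)) : (QPow n d).Colorable K := by
  classical
  obtain ⟨C1, hC1, hc1⟩ := exists_code n (d + 1 + 2 * r)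
  have h1e : 0 < 1 + ε := by linarith
  have hs0 : 0 < 1 / (1 + ε) := by positivity
  have hs1 : 1 / (1 + ε) ≤ 1 := by
    rw [div_le_one h1e]
    linarith
  obtain ⟨z1, hz1⟩ := avg1 C1 (ball n r) (ind_of_code hC1 (by omega)) K hs0 hs1
  have h0 : IsCode n (d + 1) (∅ : Finset (Finset (Fin n))) := fun x hx => absurd hx (notMem_empty x)
  have key := col (K0 := 0) (r := r) h0 hC1 (fun i => i.elim0) z1 ?_
  · rwa [zero_add] at key
  intro x a
  have h2 : unc (∅ : Finset (Finset (Fin n))) (ball n r) (fun i : Fin 0 => i.elim0) a ≤ vol n r := by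
    rw [← card_ball]
    exact card_filter_le _ _
  refine h2.trans ?_
  by_contra hlt
  have h3 := hz1 x
  rw [card_ball, hc1] at h3
  have h4 : (1 / (1 + ε)) ^ vol n r ≤ (1 / (1 + ε)) ^ deg C1 (ball n r) z1 x :=
    pow_le_pow_of_le_one hs0.le hs1 (not_le.1 hlt).le
  have h5 : (1 / (1 + ε)) ^ vol n r = Real.exp (-(vol n r * Real.log (1 + ε))) := by
    rw [Real.exp_neg, Real.exp_nat_mul, Real.exp_log h1e, one_div, inv_pow]
  have h6 : ε * vol n r ≤ (1 - 1 / (1 + ε)) * (K * (codeSize n (d + 1 + 2 * r) * vol n r) / 2 ^ n) := by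
    have h7 : (1 - 1 / (1 + ε)) * (K * (codeSize n (d + 1 + 2 * r) * vol n r) / 2 ^ n) =
        ε * vol n r * ((K * codeSize n (d + 1 + 2 * r)) / ((1 + ε) * 2 ^ n)) := by
      field_simp
      ring
    rw [h7]
    have h8 : 1 ≤ (K * codeSize n (d + 1 + 2 * r) : ℝ) / ((1 + ε) * 2 ^ n) := by
      rw [one_le_div (by positivity)]
      exact h
    have h9 : 0 ≤ ε * vol n r := by positivity
    nlinarith
  have h7 : Real.exp (-(vol n r * Real.log (1 + ε))) ≤ Real.exp (n * Real.log 2 - ε * vol n r) := by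
    rw [← h5]
    refine (h4.trans h3).trans ?_
    rw [exp_aux, ← Real.exp_add]
    refine Real.exp_le_exp.2 ?_
    rw [← exp_aux]
    linarith
  have h8 := Real.exp_le_exp.1 h7
  linarith

end MP7d5fe8.T
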