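import Mathlib
import Pool.Agent.Work.MP_7d5fe8_co.T.Two

set_option autoImplicit false

/-!
# T/Ineq (M): the inequalities

`N = 2 ^ n`, `A0 = codeSize n (d + 1)`, `A1 = codeSize n (d + 1 + 2 r) ≤ A0`, `V = vol n r ≥ 1`. `ineq_log`: `κ = log (A0 / A1) ≥ 0`, `K0 = ⌈κ N / A0⌉`, `K1 = ⌈(N / A1) (2 exp (-κ) + 4 n log 2 / V)⌉` in
`two_log`; `K0 + K1 ≤ κ N / A0 + 1 + (N / A0) (2 + 4 log 2 n A0 / (V A1)) + 1` (`exp (-κ) = A1 / A0`), `1 ≤ N / A0`, `4 log 2 ≤ 3`. `ineq_three`: `two_eps` with `ε = 2`, `r = 1`: `V = n + 1`,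
`2 - log 3 > log 2` (`3 < 4`: `log 3 + log 2 = log 6 < 2` because `6 < exp 2`), `K = ⌈3 N / A1⌉`. `ineq_eps`: `r = 2`, `V = 1 + n + n (n - 1) / 2 ≥ n (n + 1) / 2`, `ε - log (1 + ε) ≥ ε ^ 2 / 6` for `0 < ε ≤ 1`, so
`V (ε - log (1 + ε)) ≥ n (n + 1) ε ^ 2 / 12 ≥ (10 / 12) n > n log 2` for `n ≥ 1`; for `n = 0` the left side is `0` and the right side positive. `lower`: the colour classes of a colouring of
`Q_n^d` are codes (`IsCode n (d + 1)`), so `2 ^ n ≤ chi n d * A0`. `ineq_lin`: `ineq_log` with `r = 2` (`4 ≤ d`) and `A0 / A1 ≤ n + 1`: `3 n A0 / (V A1) ≤ 6`. `ineq_triv`: `ineq_log` with `r = 0`.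
-/

namespace MP7d5fe8.T

open Finset

private theorem cs_pos (n D : ℕ) : (0 : ℝ) < codeSize n D := by
  have := codeSize_pos n D
  exact_mod_cast this

private theorem cs_le (n D : ℕ) : (codeSize n D : ℝ) ≤ 2 ^ n := by
  have := codeSize_le n D
  exact_mod_cast this

private theorem vol_pos (n r : ℕ) : (0 : ℝ) < vol n r := by
  have h : 0 < vol n r := by
    unfold vol
    exact sum_pos' (fun _ _ => Nat.zero_le _) ⟨0, by simp, by simp⟩
  exact_mod_cast h

private theorem vol_two (n : ℕ) : (vol n 2 : ℝ) = (n ^ 2 + n + 2) / 2 := by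
  unfold vol
  rw [sum_range_succ, sum_range_succ, sum_range_one, Nat.choose_zero_right, Nat.choose_one_right]
  push_cast
  rw [Nat.cast_choose_two]
  ring

theorem lower (n d : ℕ) : (2 : ℝ) ^ n / codeSize n (d + 1) ≤ chi n d := by
  classical
  rw [div_le_iff₀ (cs_pos n (d + 1))]
  have hc : (QPow n d).Colorable (chi n d) := SimpleGraph.colorable_chromaticNumber (QPow n d).colorable_of_fintype
  obtain ⟨f⟩ := hc
  have h1 : ∀ k : Fin (chi n d), (univ.filter fun x : Finset (Fin n) => f x = k).card ≤ codeSize n (d + 1) := by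
    intro k
    refine card_le_codeSize ?_
    intro x hx y hy hne
    by_contra hlt
    have h2 : (QPow n d).Adj x y := by
      refine ⟨?_, by omega⟩
      rw [Nat.one_le_iff_ne_zero, Ne, card_eq_zero]
      intro h3
      exact hne (symmDiff_eq_bot.1 h3)
    exact f.valid h2 ((mem_filter.1 hx).2.trans (mem_filter.1 hy).2.symm)
  have h2 : (univ : Finset (Finset (Fin n))).card = ∑ k : Fin (chi n d), (univ.filter fun x : Finset (Fin n) => f x = k).card :=
    card_eq_sum_card_fiberwise fun _ _ => mem_coe.2 (mem_univ _)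
  have h3 : 2 ^ n ≤ chi n d * codeSize n (d + 1) := by
    have h4 : (univ : Finset (Finset (Fin n))).card = 2 ^ n := by simp
    rw [← h4, h2]
    refine (sum_le_sum fun k _ => h1 k).trans ?_
    rw [sum_const, card_univ, Fintype.card_fin, smul_eq_mul]
  exact_mod_cast h3

theorem ineq_log {n d r : ℕ} (hr : 2 * r ≤ d) :
    (chi n d : ℝ) ≤ 2 ^ n / codeSize n (d + 1) * (Real.log (codeSize n (d + 1) / codeSize n (d + 1 + 2 * r)) + 4 +
      3 * n * codeSize n (d + 1) / (vol n r * codeSize n (d + 1 + 2 * r))) := by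
  have hA0 := cs_pos n (d + 1)
  have hA1 := cs_pos n (d + 1 + 2 * r)
  have hV := vol_pos n r
  have hA01 : (codeSize n (d + 1 + 2 * r) : ℝ) ≤ codeSize n (d + 1) := by
    exact_mod_cast codeSize_anti (n := n) (show d + 1 ≤ d + 1 + 2 * r by omega)
  have hA0N := cs_le n (d + 1)
  have htl := two_log (n := n) (K0 := ⌈Real.log (codeSize n (d + 1) / codeSize n (d + 1 + 2 * r)) * 2 ^ n / codeSize n (d + 1)⌉₊)
    (K1 := ⌈2 ^ n / codeSize n (d + 1 + 2 * r) * (2 * (codeSize n (d + 1 + 2 * r) / codeSize n (d + 1)) +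
      4 * (n * Real.log 2) / vol n r)⌉₊) hr
  set A0 : ℝ := ((codeSize n (d + 1) : ℕ) : ℝ) with hA0d
  set A1 : ℝ := ((codeSize n (d + 1 + 2 * r) : ℕ) : ℝ) with hA1d
  set V : ℝ := ((vol n r : ℕ) : ℝ) with hVd
  set N : ℝ := 2 ^ n with hN
  have hN0 : 0 < N := by positivity
  have hκ0 : 0 ≤ Real.log (A0 / A1) := Real.log_nonneg (by rw [one_le_div hA1]; exact hA01)
  have hl2 : 0 < Real.log 2 := Real.log_pos (by norm_num)
  have hl3 : 4 * Real.log 2 ≤ 3 := by
    have := Real.log_two_lt_d9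
    linarith
  have h1 := Nat.le_ceil (Real.log (A0 / A1) * N / A0)
  have h2 := Nat.le_ceil (N / A1 * (2 * (A1 / A0) + 4 * (n * Real.log 2) / V))
  have h3 := Nat.ceil_lt_add_one (show 0 ≤ Real.log (A0 / A1) * N / A0 by positivity)
  have h4 := Nat.ceil_lt_add_one (show 0 ≤ N / A1 * (2 * (A1 / A0) + 4 * (n * Real.log 2) / V) by positivity)
  have h5 := htl (by
    have e1 : Real.exp (-((⌈Real.log (A0 / A1) * N / A0⌉₊ : ℕ) * A0 / N)) ≤ A1 / A0 := by
      calc Real.exp (-((⌈Real.log (A0 / A1) * N / A0⌉₊ : ℕ) * A0 / N)) ≤ Real.exp (-Real.log (A0 / A1)) := by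
            refine Real.exp_le_exp.2 (neg_le_neg ?_)
            rw [le_div_iff₀ hN0]
            rw [div_le_iff₀ hA0] at h1
            exact h1
        _ = A1 / A0 := by
            rw [Real.exp_neg, Real.exp_log (by positivity), inv_div]
    calc 4 * (n * Real.log 2) + 2 * (V * Real.exp (-((⌈Real.log (A0 / A1) * N / A0⌉₊ : ℕ) * A0 / N)))
        ≤ 4 * (n * Real.log 2) + 2 * (V * (A1 / A0)) := by
          have := mul_le_mul_of_nonneg_left e1 hV.le
          linarith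
      _ = N / A1 * (2 * (A1 / A0) + 4 * (n * Real.log 2) / V) * (A1 * V) / N := by
          field_simp
          ring
      _ ≤ (⌈N / A1 * (2 * (A1 / A0) + 4 * (n * Real.log 2) / V)⌉₊ : ℕ) * (A1 * V) / N := by
          refine div_le_div_of_nonneg_right ?_ hN0.le
          exact mul_le_mul_of_nonneg_right h2 (by positivity))
  have h6 : (chi n d : ℝ) ≤ (⌈Real.log (A0 / A1) * N / A0⌉₊ : ℕ) +
      (⌈N / A1 * (2 * (A1 / A0) + 4 * (n * Real.log 2) / V)⌉₊ : ℕ) := by
    exact_mod_cast chi_le h5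
  have h7 : 1 ≤ N / A0 := by
    rw [one_le_div hA0]
    exact hA0N
  have h8 : N / A1 * (2 * (A1 / A0) + 4 * (n * Real.log 2) / V) =
      N / A0 * (2 + 4 * Real.log 2 * (n * A0 / (V * A1))) := by
    field_simp
  have h9 : 4 * Real.log 2 * (n * A0 / (V * A1)) ≤ 3 * (n * A0 / (V * A1)) :=
    mul_le_mul_of_nonneg_right hl3 (by positivity)
  have h10 : N / A0 * (2 + 4 * Real.log 2 * (n * A0 / (V * A1))) ≤ N / A0 * (2 + 3 * (n * A0 / (V * A1))) :=
    mul_le_mul_of_nonneg_left (by linarith) (by positivity)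
  have h11 : N / A0 * (Real.log (A0 / A1) + 4 + 3 * n * A0 / (V * A1)) =
      Real.log (A0 / A1) * N / A0 + N / A0 * (2 + 3 * (n * A0 / (V * A1))) + 2 * (N / A0) := by
    ring
  rw [h11]
  rw [h8] at h4 h6
  linarith

theorem ineq_three (n d : ℕ) : (chi n d : ℝ) ≤ 3 * 2 ^ n / codeSize n (d + 3) + 1 := by
  have hA1 := cs_pos n (d + 3)
  have hN0 : (0 : ℝ) < 2 ^ n := by positivity
  have e : d + 1 + 2 * 1 = d + 3 := by ring
  have h1 := Nat.le_ceil (3 * 2 ^ n / (codeSize n (d + 3) : ℝ))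
  have h2 := Nat.ceil_lt_add_one (show 0 ≤ 3 * 2 ^ n / (codeSize n (d + 3) : ℝ) by positivity)
  have h3 := two_eps (n := n) (d := d) (r := 1) (K := ⌈3 * 2 ^ n / (codeSize n (d + 3) : ℝ)⌉₊) (ε := 2) (by norm_num)
    (by
      have hv : (vol n 1 : ℝ) = n + 1 := by
        unfold vol
        rw [sum_range_succ, sum_range_one, Nat.choose_zero_right, Nat.choose_one_right]
        push_cast
        ring
      rw [hv]
      have h6 : Real.log 2 + Real.log 3 < 2 := by
        rw [← Real.log_mul (by norm_num) (by norm_num)]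
        rw [Real.log_lt_iff_lt_exp (by norm_num)]
        have h7 := Real.exp_one_gt_d9
        have h8 : Real.exp 2 = Real.exp 1 * Real.exp 1 := by
          rw [← Real.exp_add]
          norm_num
        rw [h8]
        nlinarith
      have h7 : Real.log 2 < 2 - Real.log (1 + 2) := by
        have : (1 : ℝ) + 2 = 3 := by norm_num
        rw [this]
        linarith
      have hl2 : 0 < Real.log 2 := Real.log_pos (by norm_num)
      have hn : (0 : ℝ) ≤ n := Nat.cast_nonneg n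
      nlinarith)
    (by
      rw [e]
      rw [div_le_iff₀ hA1] at h1
      linarith)
  have h4 : (chi n d : ℝ) ≤ (⌈3 * 2 ^ n / (codeSize n (d + 3) : ℝ)⌉₊ : ℕ) := by
    exact_mod_cast chi_le h3
  linarith

private theorem log_bound {ε : ℝ} (hε : 0 < ε) (hε1 : ε ≤ 1) : ε ^ 2 / 6 ≤ ε - Real.log (1 + ε) := by
  have h1 : 0 ≤ 1 + ε := by linarith
  have h2 : Real.sqrt (1 + ε) ≤ 1 + ε / 2 - ε ^ 2 / 12 := by
    refine Real.sqrt_le_iff.2 ⟨by nlinarith, ?_⟩
    have e : (1 + ε / 2 - ε ^ 2 / 12) ^ 2 = 1 + ε + (ε ^ 2 / 12) * (1 - ε) + ε ^ 4 / 144 := by ring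
    rw [e]
    have : 0 ≤ (ε ^ 2 / 12) * (1 - ε) := mul_nonneg (by positivity) (by linarith)
    have : 0 ≤ ε ^ 4 / 144 := by positivity
    linarith
  have h3 : Real.log (1 + ε) = 2 * Real.log (Real.sqrt (1 + ε)) := by
    rw [Real.log_sqrt h1]
    ring
  have h4 := Real.log_le_sub_one_of_pos (Real.sqrt_pos.2 (show 0 < 1 + ε by linarith))
  rw [h3]
  linarith

theorem ineq_eps {n d : ℕ} {ε : ℝ} (hε : 0 < ε) (hε1 : ε ≤ 1) (hn : 10 / ε ^ 2 ≤ n + 1) :
    (chi n d : ℝ) ≤ (1 + ε) * 2 ^ n / codeSize n (d + 5) + 1 := by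
  have hA1 := cs_pos n (d + 5)
  have hN0 : (0 : ℝ) < 2 ^ n := by positivity
  have e : d + 1 + 2 * 2 = d + 5 := by ring
  have h1 := Nat.le_ceil ((1 + ε) * 2 ^ n / (codeSize n (d + 5) : ℝ))
  have h2 := Nat.ceil_lt_add_one (show 0 ≤ (1 + ε) * 2 ^ n / (codeSize n (d + 5) : ℝ) by positivity)
  have h3 := two_eps (n := n) (d := d) (r := 2) (K := ⌈(1 + ε) * 2 ^ n / (codeSize n (d + 5) : ℝ)⌉₊) hε
    (by
      rw [vol_two]
      have h4 := log_bound hε hε1
      rw [div_le_iff₀ (by positivity)] at hn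
      have hl2 := Real.log_two_lt_d9
      have hn0 : (0 : ℝ) ≤ n := Nat.cast_nonneg n
      calc n * Real.log 2 ≤ n * (10 / 12) := mul_le_mul_of_nonneg_left (by linarith) hn0
        _ ≤ n * (((n + 1) * ε ^ 2) / 12) := mul_le_mul_of_nonneg_left (by linarith) hn0
        _ < (n ^ 2 + n + 2) / 2 * (ε ^ 2 / 6) := by
            have : 0 < ε ^ 2 := by positivity
            nlinarith
        _ ≤ (n ^ 2 + n + 2) / 2 * (ε - Real.log (1 + ε)) := mul_le_mul_of_nonneg_left h4 (by positivity))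
    (by
      rw [e]
      rw [div_le_iff₀ hA1] at h1
      linarith)
  have h4 : (chi n d : ℝ) ≤ (⌈(1 + ε) * 2 ^ n / (codeSize n (d + 5) : ℝ)⌉₊ : ℕ) := by
    exact_mod_cast chi_le h3
  linarith

theorem ineq_lin {n d : ℕ} (hd : 4 ≤ d) (h : (codeSize n (d + 1) : ℝ) / codeSize n (d + 5) ≤ n + 1) :
    (chi n d : ℝ) ≤ 2 ^ n / codeSize n (d + 1) * (Real.log (codeSize n (d + 1) / codeSize n (d + 5)) + 10) := by
  have hA0 := cs_pos n (d + 1)
  have hA1 := cs_pos n (d + 5)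
  have e : d + 1 + 2 * 2 = d + 5 := by ring
  have h1 := ineq_log (n := n) (d := d) (r := 2) (by omega)
  rw [e] at h1
  refine h1.trans (mul_le_mul_of_nonneg_left ?_ (by positivity))
  have hV := vol_pos n 2
  have h2 : 3 * n * (codeSize n (d + 1) : ℝ) / (vol n 2 * codeSize n (d + 5)) ≤ 6 := by
    have h3 : 3 * n * (codeSize n (d + 1) : ℝ) / (vol n 2 * codeSize n (d + 5)) =
        3 * n * ((codeSize n (d + 1) : ℝ) / codeSize n (d + 5)) / vol n 2 := by
      field_simp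
    rw [h3, div_le_iff₀ hV, vol_two]
    have hn0 : (0 : ℝ) ≤ n := Nat.cast_nonneg n
    have h4 := mul_le_mul_of_nonneg_left h (show (0 : ℝ) ≤ 3 * n by positivity)
    nlinarith
  linarith

theorem ineq_triv (n d : ℕ) : (chi n d : ℝ) ≤ 2 ^ n / codeSize n (d + 1) * (4 + 3 * n) := by
  have hA0 := cs_pos n (d + 1)
  have h1 := ineq_log (n := n) (d := d) (r := 0) (by omega)
  have hv : (vol n 0 : ℝ) = 1 := by
    unfold vol
    simp
  have e : d + 1 + 2 * 0 = d + 1 := by ring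
  rw [e, hv, div_self hA0.ne', Real.log_one, zero_add, one_mul, mul_div_assoc, div_self hA0.ne', mul_one] at h1
  exact h1

end MP7d5fe8.T
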