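import Mathlib
import Pool.Agent.Work.MP_7d5fe8_co.T.Base

set_option autoImplicit false

/-!
# T/Tiet: codes just below the Plotkin range

If `n ≤ 2 D + j` then `codeSize n D (n - j √(n j) - j ^ 2) ≤ 2 n ^ 2 + n √(n j)` (a bound of the type of Tietäväinen's). For a word `x` of the code
let `s y = max 0 (-⟨x, y⟩)`, `S = ∑ s y`, `Q = ∑ s y ^ 2`; from `‖(Q / n) x + ∑ s y y‖ ^ 2 ≥ 0` one gets `Q ^ 2 ≤ n ^ 2 Q + n j S ^ 2`, so `Q ≤ n ^ 2 + √(n j) S`; then sum over `x`.
-/

namespace MP7d5fe8.T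

open Finset

private noncomputable def sg {n : ℕ} (x : Finset (Fin n)) (a : Fin n) : ℝ := if a ∈ x then -1 else 1

private noncomputable def ip {n : ℕ} (x y : Finset (Fin n)) : ℝ := ∑ a, sg x a * sg y a

variable {n D : ℕ} {C : Finset (Finset (Fin n))}

private theorem ip_eq (x y : Finset (Fin n)) : ip x y = n - 2 * (symmDiff x y).card := by
  have h1 : ∀ a, sg x a * sg y a = 1 - 2 * (if a ∈ symmDiff x y then 1 else 0) := by
    intro a
    unfold sg
    by_cases h1 : a ∈ x <;> by_cases h2 : a ∈ y <;> simp [mem_symmDiff, h1, h2] <;> norm_num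
  unfold ip
  rw [sum_congr rfl fun a _ => h1 a, sum_sub_distrib, ← mul_sum, sum_const, card_univ, Fintype.card_fin, nsmul_eq_mul, mul_one,
    ← sum_filter, filter_mem_eq_inter, univ_inter, sum_const, nsmul_eq_mul, mul_one]

private theorem ip_self (x : Finset (Fin n)) : ip x x = n := by
  rw [ip_eq, symmDiff_self]
  simp

private theorem ip_comm (x y : Finset (Fin n)) : ip x y = ip y x := by
  rw [ip_eq, ip_eq, symmDiff_comm]

private theorem psd (C : Finset (Finset (Fin n))) (c : Finset (Fin n) → ℝ) :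
    0 ≤ ∑ y ∈ C, ∑ z ∈ C, c y * c z * ip y z := by
  have h1 : ∑ y ∈ C, ∑ z ∈ C, c y * c z * ip y z = ∑ a : Fin n, (∑ y ∈ C, c y * sg y a) ^ 2 := by
    have h2 : ∀ a : Fin n, (∑ y ∈ C, c y * sg y a) ^ 2 = ∑ y ∈ C, ∑ z ∈ C, c y * c z * (sg y a * sg z a) := by
      intro a
      rw [pow_two, sum_mul_sum]
      refine sum_congr rfl fun y _ => sum_congr rfl fun z _ => ?_
      ring
    calc ∑ y ∈ C, ∑ z ∈ C, c y * c z * ip y z = ∑ y ∈ C, ∑ z ∈ C, ∑ a : Fin n, c y * c z * (sg y a * sg z a) :=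
          sum_congr rfl fun y _ => sum_congr rfl fun z _ => mul_sum univ (fun a => sg y a * sg z a) (c y * c z)
      _ = ∑ y ∈ C, ∑ a : Fin n, ∑ z ∈ C, c y * c z * (sg y a * sg z a) := sum_congr rfl fun y _ => sum_comm
      _ = ∑ a : Fin n, ∑ y ∈ C, ∑ z ∈ C, c y * c z * (sg y a * sg z a) := sum_comm
      _ = _ := sum_congr rfl fun a _ => (h2 a).symm
  rw [h1]
  exact sum_nonneg fun a _ => sq_nonneg _

/-- the second moment -/
private theorem second (C : Finset (Finset (Fin n))) : (n : ℝ) * (C.card : ℝ) ^ 2 ≤ ∑ y ∈ C, ∑ z ∈ C, ip y z ^ 2 := by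
  have h1 : ∑ y ∈ C, ∑ z ∈ C, ip y z ^ 2 = ∑ a : Fin n, ∑ b : Fin n, (∑ y ∈ C, sg y a * sg y b) ^ 2 := by
    have h2 : ∀ y z : Finset (Fin n), ip y z ^ 2 = ∑ a : Fin n, ∑ b : Fin n, (sg y a * sg y b) * (sg z a * sg z b) := by
      intro y z
      unfold ip
      rw [pow_two, sum_mul_sum]
      exact sum_congr rfl fun a _ => sum_congr rfl fun b _ => by ring
    have h3 : ∀ a b : Fin n, (∑ y ∈ C, sg y a * sg y b) ^ 2 = ∑ y ∈ C, ∑ z ∈ C, (sg y a * sg y b) * (sg z a * sg z b) := by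
      intro a b
      rw [pow_two, sum_mul_sum]
    calc ∑ y ∈ C, ∑ z ∈ C, ip y z ^ 2 =
          ∑ y ∈ C, ∑ z ∈ C, ∑ a : Fin n, ∑ b : Fin n, (sg y a * sg y b) * (sg z a * sg z b) :=
          sum_congr rfl fun y _ => sum_congr rfl fun z _ => h2 y z
      _ = ∑ y ∈ C, ∑ a : Fin n, ∑ z ∈ C, ∑ b : Fin n, (sg y a * sg y b) * (sg z a * sg z b) :=
          sum_congr rfl fun y _ => sum_comm
      _ = ∑ a : Fin n, ∑ y ∈ C, ∑ z ∈ C, ∑ b : Fin n, (sg y a * sg y b) * (sg z a * sg z b) := sum_comm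
      _ = ∑ a : Fin n, ∑ y ∈ C, ∑ b : Fin n, ∑ z ∈ C, (sg y a * sg y b) * (sg z a * sg z b) :=
          sum_congr rfl fun a _ => sum_congr rfl fun y _ => sum_comm
      _ = ∑ a : Fin n, ∑ b : Fin n, ∑ y ∈ C, ∑ z ∈ C, (sg y a * sg y b) * (sg z a * sg z b) :=
          sum_congr rfl fun a _ => sum_comm
      _ = _ := sum_congr rfl fun a _ => sum_congr rfl fun b _ => (h3 a b).symm
  rw [h1]
  have h2 : ∀ a : Fin n, ((C.card : ℝ)) ^ 2 ≤ ∑ b : Fin n, (∑ y ∈ C, sg y a * sg y b) ^ 2 := by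
    intro a
    have h3 : (∑ y ∈ C, sg y a * sg y a) = (C.card : ℝ) := by
      have h4 : ∀ y ∈ C, sg y a * sg y a = 1 := by
        intro y _
        unfold sg
        split_ifs <;> norm_num
      rw [sum_congr rfl h4, sum_const, nsmul_eq_mul, mul_one]
    calc (C.card : ℝ) ^ 2 = (∑ y ∈ C, sg y a * sg y a) ^ 2 := by rw [h3]
      _ ≤ _ := single_le_sum (f := fun b => (∑ y ∈ C, sg y a * sg y b) ^ 2) (fun b _ => sq_nonneg _) (mem_univ a)
  calc (n : ℝ) * (C.card : ℝ) ^ 2 = ∑ _a : Fin n, (C.card : ℝ) ^ 2 := by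
        rw [sum_const, card_univ, Fintype.card_fin, nsmul_eq_mul]
    _ ≤ _ := sum_le_sum fun a _ => h2 a

/-- the negative part -/
private noncomputable def ng {n : ℕ} (x y : Finset (Fin n)) : ℝ := max 0 (-ip x y)

private theorem ng_nonneg (x y : Finset (Fin n)) : 0 ≤ ng x y := le_max_left _ _

private theorem row {j : ℝ} (hj : 0 ≤ j) (hn : 1 ≤ n) (h : ∀ y ∈ C, ∀ z ∈ C, y ≠ z → ip y z ≤ j) {x : Finset (Fin n)} (hx : x ∈ C) :
    ∑ y ∈ C, ng x y ^ 2 ≤ (n : ℝ) ^ 2 + Real.sqrt (n * j) * ∑ y ∈ C, ng x y := by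
  classical
  have hn0 : (0 : ℝ) < n := by exact_mod_cast hn
  set Q := ∑ y ∈ C, ng x y ^ 2 with hQ
  set S := ∑ y ∈ C, ng x y with hS
  have hQ0 : 0 ≤ Q := sum_nonneg fun y _ => sq_nonneg _
  have hS0 : 0 ≤ S := sum_nonneg fun y _ => ng_nonneg x y
  have hσ : Real.sqrt (n * j) * Real.sqrt (n * j) = n * j := Real.mul_self_sqrt (by positivity)
  have hσ0 : 0 ≤ Real.sqrt (n * j) := Real.sqrt_nonneg _
  have hxx : ng x x = 0 := by
    unfold ng
    rw [ip_self]
    exact max_eq_left (by linarith)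
  have hip : ∀ y, ng x y * ip x y = -ng x y ^ 2 := by
    intro y
    unfold ng
    rcases le_total 0 (-ip x y) with h1 | h1
    · rw [max_eq_right h1]
      ring
    · rw [max_eq_left h1]
      ring
  have h1 := psd C fun y => ng x y + (if y = x then Q / n else 0)
  have h2 : ∑ y ∈ C, ∑ z ∈ C, (ng x y + (if y = x then Q / n else 0)) * (ng x z + (if z = x then Q / n else 0)) * ip y z =
      ∑ y ∈ C, ∑ z ∈ C, ng x y * ng x z * ip y z + 2 * (Q / n) * (-Q) + (Q / n) ^ 2 * n := by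
    have h3 : ∀ y ∈ C, ∑ z ∈ C, (ng x y + (if y = x then Q / n else 0)) * (ng x z + (if z = x then Q / n else 0)) * ip y z =
        ∑ z ∈ C, ng x y * ng x z * ip y z + (if y = x then Q / n else 0) * ∑ z ∈ C, ng x z * ip y z +
          (ng x y + (if y = x then Q / n else 0)) * (Q / n) * ip y x := by
      intro y _
      rw [mul_sum, ← sum_add_distrib]
      have h4 : (ng x y + (if y = x then Q / n else 0)) * (Q / n) * ip y x =
          ∑ z ∈ C, (if z = x then (ng x y + (if y = x then Q / n else 0)) * (Q / n) * ip y z else 0) := by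
        rw [sum_ite_eq' C x, if_pos hx]
      rw [h4, ← sum_add_distrib]
      refine sum_congr rfl fun z _ => ?_
      by_cases hz : z = x
      · rw [if_pos hz, if_pos hz]
        ring
      · rw [if_neg hz, if_neg hz]
        ring
    rw [sum_congr rfl h3, sum_add_distrib, sum_add_distrib]
    have h4 : ∑ y ∈ C, (if y = x then Q / n else 0) * ∑ z ∈ C, ng x z * ip y z = Q / n * (-Q) := by
      have h5 : ∀ y ∈ C, (if y = x then Q / n else 0) * ∑ z ∈ C, ng x z * ip y z =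
          if y = x then Q / n * ∑ z ∈ C, ng x z * ip y z else 0 := by
        intro y _
        by_cases hy : y = x
        · rw [if_pos hy, if_pos hy]
        · rw [if_neg hy, if_neg hy, zero_mul]
      rw [sum_congr rfl h5, sum_ite_eq' C x, if_pos hx, sum_congr rfl fun z _ => hip z, sum_neg_distrib]
    have h6 : ∑ y ∈ C, (ng x y + (if y = x then Q / n else 0)) * (Q / n) * ip y x = Q / n * (-Q) + (Q / n) ^ 2 * n := by
      have h7 : ∀ y ∈ C, (ng x y + (if y = x then Q / n else 0)) * (Q / n) * ip y x =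
          Q / n * (ng x y * ip x y) + (if y = x then (Q / n) ^ 2 * ip y x else 0) := by
        intro y _
        rw [ip_comm y x]
        by_cases hy : y = x
        · rw [if_pos hy, if_pos hy]
          ring
        · rw [if_neg hy, if_neg hy]
          ring
      rw [sum_congr rfl h7, sum_add_distrib, ← mul_sum, sum_congr rfl fun z _ => hip z, sum_neg_distrib, sum_ite_eq' C x,
        if_pos hx, ip_self]
    rw [h4, h6]
    ring
  rw [h2] at h1
  have h3 : ∑ y ∈ C, ∑ z ∈ C, ng x y * ng x z * ip y z ≤ n * Q + j * S ^ 2 := by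
    have h4 : ∀ y ∈ C, ∀ z ∈ C, ng x y * ng x z * ip y z ≤
        (if z = y then n * ng x z ^ 2 else 0) + j * (ng x y * ng x z) := by
      intro y hy z hz
      have h5 : 0 ≤ ng x y * ng x z := mul_nonneg (ng_nonneg _ _) (ng_nonneg _ _)
      by_cases hyz : z = y
      · subst hyz
        rw [if_pos rfl, ip_self]
        have h6 : 0 ≤ j * (ng x z * ng x z) := mul_nonneg hj h5
        nlinarith
      · rw [if_neg hyz, zero_add, mul_comm j]
        exact mul_le_mul_of_nonneg_left (h y hy z hz fun h => hyz h.symm) h5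
    calc ∑ y ∈ C, ∑ z ∈ C, ng x y * ng x z * ip y z ≤
          ∑ y ∈ C, ∑ z ∈ C, ((if z = y then n * ng x z ^ 2 else 0) + j * (ng x y * ng x z)) :=
          sum_le_sum fun y hy => sum_le_sum fun z hz => h4 y hy z hz
      _ = n * Q + j * S ^ 2 := by
          have h5 : ∀ y ∈ C, ∑ z ∈ C, ((if z = y then n * ng x z ^ 2 else 0) + j * (ng x y * ng x z)) =
              n * ng x y ^ 2 + j * (ng x y * S) := by
            intro y hy
            rw [sum_add_distrib, sum_ite_eq' C y, if_pos hy, ← mul_sum, ← mul_sum]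
          rw [sum_congr rfl h5, sum_add_distrib, ← mul_sum, ← mul_sum, ← sum_mul]
          ring
  have h4 : Q ^ 2 ≤ n ^ 2 * Q + n * j * S ^ 2 := by
    have h5 : 2 * (Q / n) * (-Q) + (Q / n) ^ 2 * n = -(Q ^ 2 / n) := by
      field_simp
      ring
    have h6 : Q ^ 2 / n ≤ n * Q + j * S ^ 2 := by linarith
    rw [div_le_iff₀ hn0] at h6
    linarith
  by_contra hlt
  rw [not_le] at hlt
  have h5 : 0 ≤ Real.sqrt (n * j) * S := mul_nonneg hσ0 hS0
  have h6 : (n : ℝ) ^ 2 < Q := by linarith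
  have h7 : (Real.sqrt (n * j) * S) * (Real.sqrt (n * j) * S) = n * j * S ^ 2 := by
    calc (Real.sqrt (n * j) * S) * (Real.sqrt (n * j) * S) = Real.sqrt (n * j) * Real.sqrt (n * j) * S ^ 2 := by ring
      _ = _ := by rw [hσ]
  have h8 : 0 < (n : ℝ) ^ 2 := by positivity
  nlinarith

theorem tiet {j : ℝ} (hj : 0 ≤ j) (hn : 1 ≤ n) (h : (n : ℝ) ≤ 2 * D + j) :
    (codeSize n D : ℝ) * (n - j * Real.sqrt (n * j) - j ^ 2) ≤ 2 * n ^ 2 + n * Real.sqrt (n * j) := by
  obtain ⟨C, hC, hc⟩ := exists_code n D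
  have hn0 : (0 : ℝ) < n := by exact_mod_cast hn
  have hM0 : (0 : ℝ) < codeSize n D := by
    have := codeSize_pos n D
    exact_mod_cast this
  have hip : ∀ y ∈ C, ∀ z ∈ C, y ≠ z → ip y z ≤ j := by
    intro y hy z hz hyz
    rw [ip_eq]
    have h1 : (D : ℝ) ≤ (symmDiff y z).card := by exact_mod_cast hC y hy z hz hyz
    linarith
  set M : ℝ := (codeSize n D : ℝ) with hM
  have hcM : (C.card : ℝ) = M := by rw [hM, hc]
  have hσ0 : 0 ≤ Real.sqrt (n * j) := Real.sqrt_nonneg _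
  have hrow : ∀ x ∈ C, ∑ y ∈ C, ip x y ^ 2 ≤ (n : ℝ) ^ 2 + (n ^ 2 + Real.sqrt (n * j) * ∑ y ∈ C, ng x y) + j ^ 2 * M := by
    intro x hx
    have h1 := row hj hn hip hx
    have h2 : ∀ y ∈ C, ip x y ^ 2 ≤ (if y = x then (n : ℝ) ^ 2 else 0) + ng x y ^ 2 + j ^ 2 := by
      intro y hy
      by_cases hyx : y = x
      · rw [if_pos hyx, hyx, ip_self]
        have h3 := sq_nonneg (ng x x)
        have h4 := sq_nonneg j
        linarith
      · rw [if_neg hyx, zero_add]
        have h3 := hip x hx y hy fun h => hyx h.symm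
        unfold ng
        rcases le_total 0 (-ip x y) with h4 | h4
        · rw [max_eq_right h4]
          have h5 := sq_nonneg j
          nlinarith
        · rw [max_eq_left h4]
          nlinarith
    calc ∑ y ∈ C, ip x y ^ 2 ≤ ∑ y ∈ C, ((if y = x then (n : ℝ) ^ 2 else 0) + ng x y ^ 2 + j ^ 2) := sum_le_sum h2
      _ = (n : ℝ) ^ 2 + ∑ y ∈ C, ng x y ^ 2 + j ^ 2 * M := by
          rw [sum_add_distrib, sum_add_distrib, sum_ite_eq' C x, if_pos hx, sum_const, nsmul_eq_mul, hcM, mul_comm M]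
      _ ≤ _ := by linarith
  have hS : ∑ x ∈ C, ∑ y ∈ C, ng x y ≤ n * M + j * M ^ 2 := by
    have h1 := psd C fun _ => 1
    have h2 : ∀ x ∈ C, ∀ y ∈ C, ng x y ≤ (if y = x then (n : ℝ) else 0) + j - 1 * 1 * ip x y := by
      intro x hx y hy
      by_cases hyx : y = x
      · rw [if_pos hyx, hyx, ip_self]
        unfold ng
        rw [ip_self, max_eq_left (by linarith)]
        linarith
      · rw [if_neg hyx, zero_add]
        have h3 := hip x hx y hy fun h => hyx h.symm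
        unfold ng
        rcases le_total 0 (-ip x y) with h4 | h4
        · rw [max_eq_right h4]
          linarith
        · rw [max_eq_left h4]
          linarith
    have h3 : ∑ x ∈ C, ∑ y ∈ C, ng x y ≤ ∑ x ∈ C, ∑ y ∈ C, ((if y = x then (n : ℝ) else 0) + j - 1 * 1 * ip x y) :=
      sum_le_sum fun x hx => sum_le_sum fun y hy => h2 x hx y hy
    have h4 : ∑ x ∈ C, ∑ y ∈ C, ((if y = x then (n : ℝ) else 0) + j - 1 * 1 * ip x y) =
        n * M + j * M ^ 2 - ∑ x ∈ C, ∑ y ∈ C, 1 * 1 * ip x y := by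
      have h5 : ∀ x ∈ C, ∑ y ∈ C, ((if y = x then (n : ℝ) else 0) + j - 1 * 1 * ip x y) =
          n + M * j - ∑ y ∈ C, 1 * 1 * ip x y := by
        intro x hx
        rw [sum_sub_distrib, sum_add_distrib, sum_ite_eq' C x, if_pos hx, sum_const, nsmul_eq_mul, hcM]
      rw [sum_congr rfl h5, sum_sub_distrib, sum_const, nsmul_eq_mul, hcM]
      ring
    rw [h4] at h3
    linarith
  have hsum : ∑ x ∈ C, ∑ y ∈ C, ip x y ^ 2 ≤
      M * n ^ 2 + (M * n ^ 2 + Real.sqrt (n * j) * (n * M + j * M ^ 2)) + j ^ 2 * M * M := by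
    calc ∑ x ∈ C, ∑ y ∈ C, ip x y ^ 2 ≤
          ∑ x ∈ C, ((n : ℝ) ^ 2 + (n ^ 2 + Real.sqrt (n * j) * ∑ y ∈ C, ng x y) + j ^ 2 * M) := sum_le_sum hrow
      _ = M * n ^ 2 + (M * n ^ 2 + Real.sqrt (n * j) * ∑ x ∈ C, ∑ y ∈ C, ng x y) + j ^ 2 * M * M := by
          rw [sum_add_distrib, sum_add_distrib, sum_add_distrib, sum_const, sum_const, nsmul_eq_mul, nsmul_eq_mul, hcM, ← mul_sum]
          ring
      _ ≤ _ := by
          have := mul_le_mul_of_nonneg_left hS hσ0
          linarith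
  have h2 := second C
  rw [hcM] at h2
  have h3 : M * (M * (n - j * Real.sqrt (n * j) - j ^ 2)) ≤ M * (2 * n ^ 2 + n * Real.sqrt (n * j)) := by
    nlinarith
  exact le_of_mul_le_mul_left h3 hM0

end MP7d5fe8.T
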