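import Mathlib
import Pool.Agent.Work.MP_7d5fe8_co.Defs

set_option autoImplicit false

/-!
# T/XDefs: the definitions used in `AroundMiddle`
-/

namespace MP7d5fe8.T

/-- there is a Hadamard matrix of order `h` -/
def Had (h : ℕ) : Prop :=
  ∃ M : Fin h → Fin h → ℤ, (∀ i a, M i a = 1 ∨ M i a = -1) ∧ ∀ i j, i ≠ j → ∑ a, M i a * M j a = 0

/-- `⌊D / (2D - N)⌋` above the middle (`n < 2 (d + 1)`), and `n` below -/
def half (n d : ℕ) : ℕ := if n < 2 * (d + 1) then halfSize n d else n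

end MP7d5fe8.T
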