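import Mathlib
import Pool.Agent.Work.MP_7d5fe8_co.T.XDefs

set_option autoImplicit false

/-!
# T/Had: Hadamard matrices of orders `2 ^ u * 12 ^ v`
-/

namespace MP7d5fe8.T

open Finset

theorem had_one : Had 1 := ⟨fun _ _ => 1, fun _ _ => Or.inl rfl, fun i j h => absurd (Subsingleton.elim i j) h⟩

theorem had_two : Had 2 := by
  refine ⟨fun i j => if i = 1 ∧ j = 1 then -1 else 1, ?_, ?_⟩
  · decide
  · decide

private def paley : Fin 12 → ℕ := ![4095, 2954, 1814, 3628, 3162, 2230, 366, 732, 1464, 2928, 1762, 3524]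

theorem had_twelve : Had 12 := by
  refine ⟨fun i j => if (paley i).testBit j then 1 else -1, fun i a => ?_, ?_⟩
  · by_cases h : (paley i).testBit a
    · exact Or.inl (if_pos h)
    · exact Or.inr (if_neg h)
  · decide +kernel

theorem had_mul {h k : ℕ} (hh : Had h) (hk : Had k) : Had (h * k) := by
  obtain ⟨M, hM1, hM2⟩ := hh
  obtain ⟨N, hN1, hN2⟩ := hk
  refine ⟨fun i j => M (finProdFinEquiv.symm i).1 (finProdFinEquiv.symm j).1 *
    N (finProdFinEquiv.symm i).2 (finProdFinEquiv.symm j).2, fun i a => ?_, fun i j hij => ?_⟩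
  · rcases hM1 (finProdFinEquiv.symm i).1 (finProdFinEquiv.symm a).1 with h1 | h1 <;>
      rcases hN1 (finProdFinEquiv.symm i).2 (finProdFinEquiv.symm a).2 with h2 | h2 <;>
        simp only [h1, h2] <;> norm_num
  · rw [← finProdFinEquiv.sum_comp]
    simp only [Equiv.symm_apply_apply]
    rw [Fintype.sum_prod_type]
    have h1 : ∀ x : Fin h, ∑ y : Fin k,
        M (finProdFinEquiv.symm i).1 x * N (finProdFinEquiv.symm i).2 y *
          (M (finProdFinEquiv.symm j).1 x * N (finProdFinEquiv.symm j).2 y) =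
        M (finProdFinEquiv.symm i).1 x * M (finProdFinEquiv.symm j).1 x *
          ∑ y : Fin k, N (finProdFinEquiv.symm i).2 y * N (finProdFinEquiv.symm j).2 y := by
      intro x
      rw [mul_sum]
      exact sum_congr rfl fun y _ => by ring
    rw [sum_congr rfl fun x _ => h1 x, ← sum_mul]
    by_cases h2 : (finProdFinEquiv.symm i).1 = (finProdFinEquiv.symm j).1
    · have h3 : (finProdFinEquiv.symm i).2 ≠ (finProdFinEquiv.symm j).2 := by
        intro h3
        exact hij (finProdFinEquiv.symm.injective (Prod.ext h2 h3))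
      rw [hN2 _ _ h3, mul_zero]
    · rw [hM2 _ _ h2, zero_mul]

theorem had_pow {h : ℕ} (hh : Had h) (k : ℕ) : Had (h ^ k) := by
  induction k with
  | zero => exact had_one
  | succ k ih =>
    rw [pow_succ]
    exact had_mul ih hh

end MP7d5fe8.T
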