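import Mathlib
import Pool.Agent.Work.MP_7d5fe8_co.T.Ball
import Pool.Agent.Work.MP_7d5fe8_co.T.Had

set_option autoImplicit false

/-!
# T/Wds: families of words

Juxtaposition, repetition, the simplex code of a Hadamard matrix, and codes of length `w` and distance `w / 2 - s` from the Gilbert-Varshamov bound.
-/

namespace MP7d5fe8.T

open Finset

/-- `k` words of length `n`, any two of them at distance at least `D` -/
def Wds (k n D : ℕ) : Prop := ∃ w : Fin k → Finset (Fin n), ∀ i j, i ≠ j → D ≤ (symmDiff (w i) (w j)).card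

variable {k n D : ℕ}

theorem wds_le (h : Wds k n D) (hD : 1 ≤ D) : k ≤ codeSize n D := by
  classical
  obtain ⟨w, hw⟩ := h
  have hinj : Function.Injective w := by
    intro i j hij
    by_contra hne
    have := hw i j hne
    rw [hij, symmDiff_self] at this
    simp at this
    omega
  have h1 : IsCode n D (univ.image w) := by
    intro x hx y hy hxy
    obtain ⟨i, -, rfl⟩ := mem_image.1 hx
    obtain ⟨j, -, rfl⟩ := mem_image.1 hy
    exact hw i j fun h => hxy (by rw [h])
  have h2 := card_le_codeSize h1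
  rwa [card_image_of_injective _ hinj, card_univ, Fintype.card_fin] at h2

theorem wds_of_le (h : k ≤ codeSize n D) : Wds k n D := by
  obtain ⟨C, hC, hc⟩ := exists_code n D
  have e := C.equivFin
  rw [hc] at e
  refine ⟨fun i => (e.symm (Fin.castLE h i)).1, fun i j hij => hC _ (e.symm _).2 _ (e.symm _).2 fun h1 => hij ?_⟩
  have h2 := e.symm.injective (Subtype.ext h1)
  exact Fin.castLE_injective h h2

theorem wds_zero (k n : ℕ) : Wds k n 0 := ⟨fun _ => ∅, fun _ _ _ => Nat.zero_le _⟩

theorem wds_mono {D' : ℕ} (h : Wds k n D) (hD : D' ≤ D) : Wds k n D' := by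
  obtain ⟨w, hw⟩ := h
  exact ⟨w, fun i j hij => hD.trans (hw i j hij)⟩

theorem wds_add {n' D' : ℕ} (h : Wds k n D) (h' : Wds k n' D') : Wds k (n + n') (D + D') := by
  obtain ⟨w, hw⟩ := h
  obtain ⟨w', hw'⟩ := h'
  refine ⟨fun i => (w i).map (Fin.castAddEmb n') ∪ (w' i).map (Fin.natAddEmb n), fun i j hij => ?_⟩
  have h1 : symmDiff ((w i).map (Fin.castAddEmb n') ∪ (w' i).map (Fin.natAddEmb n))
      ((w j).map (Fin.castAddEmb n') ∪ (w' j).map (Fin.natAddEmb n)) =
      (symmDiff (w i) (w j)).map (Fin.castAddEmb n') ∪ (symmDiff (w' i) (w' j)).map (Fin.natAddEmb n) := by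
    ext a
    induction a using Fin.addCases with
    | left a =>
      have e1 : ∀ s : Finset (Fin n), Fin.castAdd n' a ∈ s.map (Fin.castAddEmb n') ↔ a ∈ s := by
        intro s
        rw [mem_map]
        constructor
        · rintro ⟨b, hb, hb'⟩
          rw [Fin.castAddEmb_apply] at hb'
          rwa [← Fin.castAdd_injective n n' hb']
        · exact fun ha => ⟨a, ha, rfl⟩
      have e2 : ∀ s : Finset (Fin n'), Fin.castAdd n' a ∉ s.map (Fin.natAddEmb n) := by
        intro s hs
        rw [mem_map] at hs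
        obtain ⟨b, -, hb⟩ := hs
        rw [Fin.natAddEmb_apply] at hb
        have := congrArg Fin.val hb
        rw [Fin.val_natAdd, Fin.val_castAdd] at this
        omega
      simp only [mem_symmDiff, mem_union, e1, e2, or_false]
    | right a =>
      have e1 : ∀ s : Finset (Fin n'), Fin.natAdd n a ∈ s.map (Fin.natAddEmb n) ↔ a ∈ s := by
        intro s
        rw [mem_map]
        constructor
        · rintro ⟨b, hb, hb'⟩
          rw [Fin.natAddEmb_apply] at hb'
          rwa [← Fin.natAdd_injective n' n hb']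
        · exact fun ha => ⟨a, ha, rfl⟩
      have e2 : ∀ s : Finset (Fin n), Fin.natAdd n a ∉ s.map (Fin.castAddEmb n') := by
        intro s hs
        rw [mem_map] at hs
        obtain ⟨b, -, hb⟩ := hs
        rw [Fin.castAddEmb_apply] at hb
        have := congrArg Fin.val hb
        rw [Fin.val_natAdd, Fin.val_castAdd] at this
        omega
      simp only [mem_symmDiff, mem_union, e1, e2, false_or]
  rw [h1, card_union_of_disjoint, card_map, card_map]
  · exact Nat.add_le_add (hw i j hij) (hw' i j hij)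
  · rw [disjoint_left]
    intro a ha hb
    rw [mem_map] at ha hb
    obtain ⟨b, -, hb1⟩ := ha
    obtain ⟨c, -, hc1⟩ := hb
    have := congrArg Fin.val (hb1.trans hc1.symm)
    rw [Fin.castAddEmb_apply, Fin.natAddEmb_apply, Fin.val_natAdd, Fin.val_castAdd] at this
    omega

theorem wds_mul (r : ℕ) (h : Wds k n D) : Wds k (r * n) (r * D) := by
  induction r with
  | zero =>
    rw [Nat.zero_mul, Nat.zero_mul]
    exact wds_zero k 0
  | succ r ih =>
    rw [Nat.succ_mul, Nat.succ_mul]
    exact wds_add ih h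

theorem wds_had {m : ℕ} (h : Had (m + 1)) (hm : 1 ≤ m) : ∃ D, 2 * D = m + 1 ∧ Wds (m + 1) m D := by
  obtain ⟨M, hM1, hM2⟩ := h
  set w : Fin (m + 1) → Finset (Fin m) := fun i => univ.filter fun a => M i a.succ ≠ M i 0 with hw
  have key : ∀ i j, i ≠ j → 2 * (symmDiff (w i) (w j)).card = m + 1 := by
    intro i j hij
    have h1 : ∀ a : Fin m, (if a ∈ symmDiff (w i) (w j) then (2 : ℤ) else 0) =
        1 - M i 0 * M j 0 * (M i a.succ * M j a.succ) := by
      intro a
      have e : a ∈ symmDiff (w i) (w j) ↔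
          (M i a.succ ≠ M i 0 ∧ ¬ M j a.succ ≠ M j 0) ∨ (M j a.succ ≠ M j 0 ∧ ¬ M i a.succ ≠ M i 0) := by
        simp only [mem_symmDiff, hw, mem_filter, mem_univ, true_and]
      rw [if_congr e rfl rfl]
      rcases hM1 i 0 with h1 | h1 <;> rcases hM1 j 0 with h2 | h2 <;> rcases hM1 i a.succ with h3 | h3 <;>
        rcases hM1 j a.succ with h4 | h4 <;> rw [h1, h2, h3, h4] <;> decide
    have h2 : ∑ a : Fin m, (if a ∈ symmDiff (w i) (w j) then (2 : ℤ) else 0) = m + 1 := by
      rw [sum_congr rfl fun a _ => h1 a, sum_sub_distrib, ← mul_sum]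
      have h3 := hM2 i j hij
      rw [Fin.sum_univ_succ] at h3
      have h4 : ∑ a : Fin m, M i a.succ * M j a.succ = -(M i 0 * M j 0) := by linarith
      rw [h4, sum_const, card_univ, Fintype.card_fin]
      rcases hM1 i 0 with h1 | h1 <;> rcases hM1 j 0 with h2 | h2 <;> rw [h1, h2] <;> simp
    rw [← sum_filter, filter_mem_eq_inter, univ_inter, sum_const, nsmul_eq_mul] at h2
    have h3 : ((2 * (symmDiff (w i) (w j)).card : ℕ) : ℤ) = ((m + 1 : ℕ) : ℤ) := by
      push_cast
      linarith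
    exact_mod_cast h3
  have h01 : (0 : Fin (m + 1)) ≠ ⟨1, by omega⟩ := by
    intro h
    have := congrArg Fin.val h
    simp at this
  refine ⟨_, key _ _ h01, w, fun i j hij => ?_⟩
  have h1 := key i j hij
  have h2 := key _ _ h01
  omega

theorem vol_hoef {w D : ℕ} (hw : 1 ≤ w) (h : 2 * D ≤ w) :
    (vol w D : ℝ) ≤ 2 ^ w * Real.exp (-(((w : ℝ) - 2 * D) ^ 2 / (2 * w))) := by
  have hw0 : (0 : ℝ) < w := by exact_mod_cast hw
  have hD : (2 : ℝ) * D ≤ w := by exact_mod_cast h
  set t : ℝ := (w - 2 * D) / w with ht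
  have ht0 : 0 ≤ t := div_nonneg (by linarith) hw0.le
  have h1 : (vol w D : ℝ) * Real.exp (t * (w - 2 * D)) ≤ (Real.exp (-t) + Real.exp t) ^ w := by
    rw [add_pow]
    unfold vol
    push_cast
    rw [sum_mul]
    calc ∑ i ∈ range (D + 1), (w.choose i : ℝ) * Real.exp (t * (w - 2 * D)) ≤
          ∑ i ∈ range (D + 1), Real.exp (-t) ^ i * Real.exp t ^ (w - i) * (w.choose i : ℝ) := by
          refine sum_le_sum fun i hi => ?_
          rw [mem_range] at hi
          rw [mul_comm]
          refine mul_le_mul_of_nonneg_right ?_ (Nat.cast_nonneg _)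
          rw [← Real.exp_nat_mul, ← Real.exp_nat_mul, ← Real.exp_add, Nat.cast_sub (by omega)]
          refine Real.exp_le_exp.2 ?_
          have h2 : (i : ℝ) ≤ D := by
            have : i ≤ D := by omega
            exact_mod_cast this
          nlinarith
      _ ≤ ∑ i ∈ range (w + 1), Real.exp (-t) ^ i * Real.exp t ^ (w - i) * (w.choose i : ℝ) := by
          refine sum_le_sum_of_subset_of_nonneg (range_subset_range.2 (by omega)) fun i _ _ => by positivity
  have h2 : (Real.exp (-t) + Real.exp t) ^ w ≤ 2 ^ w * Real.exp (w * (t ^ 2 / 2)) := by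
    have h3 : Real.exp (-t) + Real.exp t = 2 * Real.cosh t := by
      rw [Real.cosh_eq]
      ring
    rw [h3, mul_pow]
    refine mul_le_mul_of_nonneg_left ?_ (by positivity)
    rw [Real.exp_nat_mul]
    exact pow_le_pow_left₀ (Real.cosh_pos t).le (Real.cosh_le_exp_half_sq t) w
  have h3 := h1.trans h2
  have h4 : (vol w D : ℝ) = vol w D * Real.exp (t * (w - 2 * D)) * Real.exp (-(t * (w - 2 * D))) := by
    rw [mul_assoc, ← Real.exp_add, add_neg_cancel, Real.exp_zero, mul_one]
  rw [h4]
  calc (vol w D : ℝ) * Real.exp (t * (w - 2 * D)) * Real.exp (-(t * (w - 2 * D))) ≤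
        2 ^ w * Real.exp (w * (t ^ 2 / 2)) * Real.exp (-(t * (w - 2 * D))) :=
        mul_le_mul_of_nonneg_right h3 (Real.exp_pos _).le
    _ = 2 ^ w * Real.exp (-(((w : ℝ) - 2 * D) ^ 2 / (2 * w))) := by
        rw [mul_assoc, ← Real.exp_add]
        have h5 : (w : ℝ) * (t ^ 2 / 2) + -(t * (w - 2 * D)) = -(((w : ℝ) - 2 * D) ^ 2 / (2 * w)) := by
          rw [ht]
          field_simp
          ring
        rw [h5]

/-- a code of length `w ≤ h` with `h` words and distance at least `w / 2 - s` -/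
theorem fill {h w s : ℕ} (hh : 1 ≤ h) (hw : w ≤ h) (hs : (h : ℝ) * Real.log h ≤ 2 * s ^ 2) :
    ∃ D, Wds h w D ∧ w ≤ 2 * D + 2 * s := by
  by_cases hws : w ≤ 2 * s
  · exact ⟨0, wds_zero h w, by omega⟩
  rw [not_le] at hws
  refine ⟨(w - 2 * s) / 2 + 1, wds_of_le ?_, by omega⟩
  have hw1 : 1 ≤ w := by omega
  have hw0 : (0 : ℝ) < w := by exact_mod_cast hw1
  have hh0 : (0 : ℝ) < h := by exact_mod_cast hh
  set D := (w - 2 * s) / 2 with hD
  have h2D : 2 * D + 2 * s ≤ w := by omega
  have h2D' : 2 * (D : ℝ) + 2 * s ≤ w := by exact_mod_cast h2D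
  have h1 := vol_hoef hw1 (show 2 * D ≤ w by omega)
  have h2 : (2 : ℝ) ^ w ≤ codeSize w (D + 1) * vol w D := by exact_mod_cast gv w D
  have h3 : Real.exp (-(((w : ℝ) - 2 * D) ^ 2 / (2 * w))) ≤ 1 / h := by
    rw [one_div, ← Real.exp_log hh0, ← Real.exp_neg, Real.exp_le_exp]
    refine neg_le_neg ?_
    rw [le_div_iff₀ (by positivity)]
    have h4 : 0 ≤ Real.log h := Real.log_natCast_nonneg h
    have h5 : (w : ℝ) ≤ h := by exact_mod_cast hw
    have h6 : (w : ℝ) * Real.log h ≤ h * Real.log h := mul_le_mul_of_nonneg_right h5 h4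
    have h7 : (0 : ℝ) ≤ s := Nat.cast_nonneg s
    nlinarith
  have h4 : (0 : ℝ) < codeSize w (D + 1) := by
    have := codeSize_pos w (D + 1)
    exact_mod_cast this
  have h5 : (2 : ℝ) ^ w ≤ codeSize w (D + 1) * (2 ^ w * (1 / h)) := by
    refine h2.trans (mul_le_mul_of_nonneg_left ?_ h4.le)
    exact h1.trans (mul_le_mul_of_nonneg_left h3 (by positivity))
  have h6 : (h : ℝ) ≤ codeSize w (D + 1) := by
    have h7 : (codeSize w (D + 1) : ℝ) * (2 ^ w * (1 / h)) = 2 ^ w * (codeSize w (D + 1) / h) := by ring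
    rw [h7] at h5
    have h8 : (1 : ℝ) ≤ codeSize w (D + 1) / h := by
      by_contra hlt
      rw [not_le] at hlt
      have h9 := mul_lt_mul_of_pos_left hlt (show (0 : ℝ) < 2 ^ w by positivity)
      linarith
    rwa [one_le_div hh0] at h8
  exact_mod_cast h6

end MP7d5fe8.T
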