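import Mathlib
import Pool.Agent.Work.MP_7d5fe8_co.T.Tiet
import Pool.Agent.Work.MP_7d5fe8_co.T.Wds
import Pool.Agent.Work.MP_7d5fe8_co.T.Ineq

set_option autoImplicit false

/-!
# T/Below: an asymptotic formula just below the middle

If there is a Hadamard matrix of order `h`, `|n - h| ≤ w` and `w + 10 ≤ n - 2 d ≤ c n ^ (1 / 3)` then `χ(Q_n^d) = (1 ± ε) 2 ^ n / (2 n)`.
-/

namespace MP7d5fe8.T

open Finset

private theorem cs_pos (n D : ℕ) : (0 : ℝ) < codeSize n D := by
  have := codeSize_pos n D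
  exact_mod_cast this

private theorem sq_le (n : ℕ) : ((n : ℝ) + 1) ^ 2 ≤ 4 * 2 ^ n := by
  have h1 : n / 2 + 1 ≤ 2 ^ (n / 2) := Nat.lt_two_pow_self
  have h2 : (n / 2 + 1) ^ 2 ≤ 2 ^ n := by
    calc (n / 2 + 1) ^ 2 ≤ (2 ^ (n / 2)) ^ 2 := Nat.pow_le_pow_left h1 2
      _ = 2 ^ (n / 2 * 2) := by rw [← pow_mul]
      _ ≤ 2 ^ n := Nat.pow_le_pow_right (by norm_num) (by omega)
  have h3 : n + 1 ≤ 2 * (n / 2 + 1) := by omega
  have h4 : (n + 1) ^ 2 ≤ 4 * 2 ^ n := by
    calc (n + 1) ^ 2 ≤ (2 * (n / 2 + 1)) ^ 2 := Nat.pow_le_pow_left h3 2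
      _ = 4 * (n / 2 + 1) ^ 2 := by ring
      _ ≤ 4 * 2 ^ n := Nat.mul_le_mul_left _ h2
  exact_mod_cast h4

/-- the rows of a Hadamard matrix and their complements -/
theorem wds_had2 {h : ℕ} (hh : Had h) (hh2 : 2 ≤ h) : ∃ D, 2 * D = h ∧ Wds (2 * h) h D := by
  obtain ⟨M, hM1, hM2⟩ := hh
  set e : Fin 2 → ℤ := fun b => if b = 0 then 1 else -1 with he
  have he1 : ∀ b, e b = 1 ∨ e b = -1 := by decide
  set w : Fin 2 × Fin h → Finset (Fin h) := fun p => univ.filter fun a => M p.2 a ≠ e p.1 with hw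
  have key : ∀ p q : Fin 2 × Fin h, ((2 * (symmDiff (w p) (w q)).card : ℕ) : ℤ) = h - e p.1 * e q.1 * ∑ a, M p.2 a * M q.2 a := by
    intro p q
    have h1 : ∀ a : Fin h, (if a ∈ symmDiff (w p) (w q) then (2 : ℤ) else 0) =
        1 - e p.1 * e q.1 * (M p.2 a * M q.2 a) := by
      intro a
      have e0 : a ∈ symmDiff (w p) (w q) ↔
          (M p.2 a ≠ e p.1 ∧ ¬ M q.2 a ≠ e q.1) ∨ (M q.2 a ≠ e q.1 ∧ ¬ M p.2 a ≠ e p.1) := by
        simp only [mem_symmDiff, hw, mem_filter, mem_univ, true_and]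
      rw [if_congr e0 rfl rfl]
      rcases he1 p.1 with h1 | h1 <;> rcases he1 q.1 with h2 | h2 <;> rcases hM1 p.2 a with h3 | h3 <;>
        rcases hM1 q.2 a with h4 | h4 <;> rw [h1, h2, h3, h4] <;> decide
    have h2 : ∑ a : Fin h, (if a ∈ symmDiff (w p) (w q) then (2 : ℤ) else 0) =
        h - e p.1 * e q.1 * ∑ a, M p.2 a * M q.2 a := by
      rw [sum_congr rfl fun a _ => h1 a, sum_sub_distrib, ← mul_sum, sum_const, card_univ, Fintype.card_fin]
      simp
    rw [← h2, ← sum_filter, filter_mem_eq_inter, univ_inter, sum_const, nsmul_eq_mul]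
    push_cast
    ring
  have hdist : ∀ p q : Fin 2 × Fin h, p.2 ≠ q.2 → 2 * (symmDiff (w p) (w q)).card = h := by
    intro p q hpq
    have h1 := key p q
    rw [hM2 _ _ hpq, mul_zero, sub_zero] at h1
    exact_mod_cast h1
  have hcomp : ∀ p q : Fin 2 × Fin h, p.2 = q.2 → p.1 ≠ q.1 → 2 * (symmDiff (w p) (w q)).card = 2 * h := by
    intro p q h2 h1
    have h3 := key p q
    have h4 : e p.1 * e q.1 = -1 := by
      revert h1
      generalize p.1 = b
      generalize q.1 = c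
      revert b c
      decide
    have h5 : ∑ a, M p.2 a * M q.2 a = h := by
      rw [h2]
      have h6 : ∀ a : Fin h, M q.2 a * M q.2 a = 1 := by
        intro a
        rcases hM1 q.2 a with h | h <;> rw [h] <;> norm_num
      rw [sum_congr rfl fun a _ => h6 a, sum_const, card_univ, Fintype.card_fin]
      simp
    rw [h4, h5] at h3
    have h6 : ((2 * (symmDiff (w p) (w q)).card : ℕ) : ℤ) = ((2 * h : ℕ) : ℤ) := by
      rw [h3]
      push_cast
      ring
    exact_mod_cast h6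
  have h01 := hdist (0, ⟨0, by omega⟩) (0, ⟨1, by omega⟩) (by
    intro h
    have := congrArg Fin.val h
    simp at this)
  refine ⟨_, h01, fun i => w (finProdFinEquiv.symm i), fun i j hij => ?_⟩
  have hne : finProdFinEquiv.symm i ≠ finProdFinEquiv.symm j := fun h => hij (finProdFinEquiv.symm.injective h)
  by_cases h2 : (finProdFinEquiv.symm i).2 = (finProdFinEquiv.symm j).2
  · have h1 : (finProdFinEquiv.symm i).1 ≠ (finProdFinEquiv.symm j).1 := fun h1 => hne (Prod.ext h1 h2)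
    have h3 := hcomp _ _ h2 h1
    show _ ≤ (symmDiff (w (finProdFinEquiv.symm i)) (w (finProdFinEquiv.symm j))).card
    omega
  · have h3 := hdist _ _ h2
    show _ ≤ (symmDiff (w (finProdFinEquiv.symm i)) (w (finProdFinEquiv.symm j))).card
    omega

theorem wds_punct {k n u D : ℕ} (h : Wds k (n + u) D) : Wds k n (D - u) := by
  obtain ⟨w, hw⟩ := h
  refine ⟨fun i => univ.filter fun a => Fin.castAdd u a ∈ w i, fun i j hij => ?_⟩
  have h1 : symmDiff (w i) (w j) ⊆
      (symmDiff (univ.filter fun a => Fin.castAdd u a ∈ w i) (univ.filter fun a => Fin.castAdd u a ∈ w j)).map (Fin.castAddEmb u) ∪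
        (univ : Finset (Fin u)).map (Fin.natAddEmb n) := by
    intro a ha
    rw [mem_union, mem_map, mem_map]
    induction a using Fin.addCases with
    | left a =>
      refine Or.inl ⟨a, ?_, rfl⟩
      rw [mem_symmDiff] at ha ⊢
      simpa using ha
    | right a => exact Or.inr ⟨a, mem_univ _, rfl⟩
  have h2 := (card_le_card h1).trans (card_union_le _ _)
  rw [card_map, card_map, card_univ, Fintype.card_fin] at h2
  have h3 := hw i j hij
  have h4 : D - u ≤ (symmDiff (univ.filter fun a => Fin.castAdd u a ∈ w i) (univ.filter fun a => Fin.castAdd u a ∈ w j)).card := by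
    omega
  exact h4

/-- near a Hadamard order -/
theorem had_low {h w n D : ℕ} (hh : Had h) (hh2 : 2 ≤ h) (h1 : n ≤ h + w) (h2 : h ≤ n + w) (hD : 1 ≤ D) (h3 : 2 * D + w ≤ n) :
    2 * h ≤ codeSize n D := by
  obtain ⟨D0, hD0, hW⟩ := wds_had2 hh hh2
  rcases le_total h n with h4 | h4
  · have h5 := wds_add hW (wds_zero (2 * h) (n - h))
    rw [Nat.add_sub_cancel' h4] at h5
    exact wds_le (wds_mono h5 (by omega)) hD
  · have h5 : Wds (2 * h) (n + (h - n)) D0 := by rwa [Nat.add_sub_cancel' h4]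
    exact wds_le (wds_mono (wds_punct h5) (by omega)) hD

theorem below {ε : ℝ} (hε : 0 < ε) (hε1 : ε ≤ 1) : ∃ C : ℝ, ∀ h w n d i : ℕ, Had h → n ≤ h + w → h ≤ n + w →
    n = 2 * d + i → w + 10 ≤ i → C * (i : ℝ) ^ 3 ≤ n →
      (1 - ε) * (2 ^ n / (2 * n)) ≤ chi n d ∧ (chi n d : ℝ) ≤ (1 + ε) * (2 ^ n / (2 * n)) := by
  obtain ⟨c, hc⟩ : ∃ c, c = ε / 8 := ⟨_, rfl⟩
  have hc0 : 0 < c := by
    rw [hc]
    positivity
  have hc1 : c ≤ 1 / 8 := by
    rw [hc]
    linarith
  refine ⟨1 / c ^ 2, fun h w n d i hh h1 h2 hn hi hC => ?_⟩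
  have hi10 : (10 : ℝ) ≤ i := by
    have : 10 ≤ i := by omega
    exact_mod_cast this
  have hi3 : (i : ℝ) ^ 3 ≤ c ^ 2 * n := by
    rw [one_div, inv_mul_le_iff₀ (by positivity)] at hC
    exact hC
  have hi1 : 100 * (i : ℝ) ≤ (i : ℝ) ^ 3 := by
    have : (i : ℝ) ^ 3 = i ^ 2 * i := by ring
    nlinarith
  have hi2 : 10 * (i : ℝ) ^ 2 ≤ (i : ℝ) ^ 3 := by
    have : (i : ℝ) ^ 3 = i ^ 2 * i := by ring
    nlinarith
  have hn1000 : 1000 ≤ c ^ 2 * n := by linarith
  have hn0 : (0 : ℝ) < n := by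
    by_contra hlt
    rw [not_lt] at hlt
    have : c ^ 2 * (n : ℝ) ≤ 0 := mul_nonpos_of_nonneg_of_nonpos (by positivity) hlt
    linarith
  have hcn : 8000 ≤ c * n := by nlinarith
  have hn1 : 1 ≤ n := by
    have : (0 : ℝ) < n := hn0
    exact_mod_cast this
  have hwr : (w : ℝ) ≤ c * n / 100 := by
    have h3 : (w : ℝ) ≤ i := by
      have : w ≤ i := by omega
      exact_mod_cast this
    nlinarith
  have hhr : (n : ℝ) ≤ h + w := by exact_mod_cast h1
  have hh2 : 2 ≤ h := by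
    have h3 : (2 : ℝ) ≤ h := by nlinarith
    exact_mod_cast h3
  have hh0 : (0 : ℝ) < h := by
    have : (2 : ℝ) ≤ h := by exact_mod_cast hh2
    linarith
  have hp : (0 : ℝ) < 2 ^ n := by positivity
  constructor
  · -- lower bound
    rw [← mul_div_assoc, div_le_iff₀ (by positivity)]
    have hA0 := cs_pos n (d + 1)
    have h3 := lower n d
    rw [div_le_iff₀ hA0] at h3
    obtain ⟨j, hj⟩ : ∃ j, i = j + 2 := ⟨i - 2, by omega⟩
    have hjr : (i : ℝ) = j + 2 := by exact_mod_cast hj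
    have hj0 : (0 : ℝ) ≤ j := Nat.cast_nonneg j
    have h4 := tiet (n := n) (D := d + 1) (j := (j : ℝ)) hj0 hn1 (by
      have : n ≤ 2 * (d + 1) + j := by omega
      exact_mod_cast this)
    have hji : (j : ℝ) ≤ i := by linarith
    have hj3 : (j : ℝ) ^ 3 ≤ c ^ 2 * n := (pow_le_pow_left₀ hj0 hji 3).trans hi3
    have hj2 : (j : ℝ) ^ 2 ≤ c ^ 2 * n := by
      have := pow_le_pow_left₀ hj0 hji 2
      nlinarith
    have hj1 : (j : ℝ) ≤ c ^ 2 * n := by nlinarith
    have hs0 : 0 ≤ Real.sqrt (n * j) := Real.sqrt_nonneg _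
    have hss : Real.sqrt (n * j) * Real.sqrt (n * j) = n * j := Real.mul_self_sqrt (by positivity)
    have hs1 : Real.sqrt (n * j) ≤ c * n := by
      refine Real.sqrt_le_iff.2 ⟨by positivity, ?_⟩
      nlinarith
    have hs2 : j * Real.sqrt (n * j) ≤ c * n := by
      refine abs_le_of_sq_le_sq' ?_ (by positivity) |>.2
      have e1 : (j * Real.sqrt (n * j)) ^ 2 = n * j ^ 3 := by
        calc (j * Real.sqrt (n * j)) ^ 2 = j ^ 2 * (Real.sqrt (n * j) * Real.sqrt (n * j)) := by ring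
          _ = _ := by
              rw [hss]
              ring
      rw [e1]
      nlinarith
    set A : ℝ := (codeSize n (d + 1) : ℝ) with hA
    have h5 : A * (n * (1 - c - c ^ 2)) ≤ n * (n * (2 + c)) := by
      have e1 : A * (n * (1 - c - c ^ 2)) ≤ A * (n - j * Real.sqrt (n * j) - j ^ 2) := by
        refine mul_le_mul_of_nonneg_left ?_ hA0.le
        nlinarith
      have e2 : 2 * (n : ℝ) ^ 2 + n * Real.sqrt (n * j) ≤ n * (n * (2 + c)) := by nlinarith
      linarith
    have h6 : A * (1 - c - c ^ 2) ≤ n * (2 + c) := by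
      have e1 : n * (A * (1 - c - c ^ 2)) ≤ n * (n * (2 + c)) := by linarith
      exact le_of_mul_le_mul_left e1 hn0
    have hq : 0 < 1 - c - c ^ 2 := by nlinarith
    have h7 : (1 - ε) * A ≤ 2 * n := by
      have e0 : 0 ≤ 1 - ε := by linarith
      have e1 : (1 - ε) * A * (1 - c - c ^ 2) ≤ 2 * n * (1 - c - c ^ 2) := by
        calc (1 - ε) * A * (1 - c - c ^ 2) = (1 - ε) * (A * (1 - c - c ^ 2)) := by ring
          _ ≤ (1 - ε) * (n * (2 + c)) := mul_le_mul_of_nonneg_left h6 e0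
          _ = n * ((1 - ε) * (2 + c)) := by ring
          _ ≤ n * (2 * (1 - c - c ^ 2)) := by
              refine mul_le_mul_of_nonneg_left ?_ hn0.le
              have : ε = 8 * c := by
                rw [hc]
                ring
              rw [this]
              nlinarith
          _ = _ := by ring
      exact le_of_mul_le_mul_right e1 hq
    have hχ0 : (0 : ℝ) ≤ chi n d := Nat.cast_nonneg _
    calc (1 - ε) * 2 ^ n ≤ (1 - ε) * (chi n d * A) := mul_le_mul_of_nonneg_left h3 (by linarith)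
      _ = chi n d * ((1 - ε) * A) := by ring
      _ ≤ chi n d * (2 * n) := mul_le_mul_of_nonneg_left h7 hχ0
  · -- upper bound
    rw [← mul_div_assoc, le_div_iff₀ (by positivity)]
    have hA0 := cs_pos n (d + 5)
    have h3 := ineq_eps (n := n) (d := d) hc0 (by linarith) (by
      rw [div_le_iff₀ (by positivity)]
      nlinarith)
    have h4 : (2 : ℝ) * h ≤ codeSize n (d + 5) := by
      have := had_low (D := d + 5) hh hh2 h1 h2 (by omega) (by omega)
      exact_mod_cast this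
    have h5 : (1 + c) * 2 ^ n / (codeSize n (d + 5) : ℝ) ≤ (1 + c) * 2 ^ n / (2 * h) :=
      div_le_div_of_nonneg_left (by positivity) (by positivity) h4
    have h6 : (chi n d : ℝ) * (2 * n) ≤ ((1 + c) * 2 ^ n / (2 * h) + 1) * (2 * n) :=
      mul_le_mul_of_nonneg_right (h3.trans (by linarith)) (by positivity)
    have h7 : (n : ℝ) / h ≤ 1 + c := by
      rw [div_le_iff₀ hh0]
      nlinarith
    have h8 : ((1 + c) * 2 ^ n / (2 * h) + 1) * (2 * n) = (1 + c) * 2 ^ n * (n / h) + 2 * n := by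
      field_simp
    have h9 : (1 + c) * 2 ^ n * ((n : ℝ) / h) ≤ (1 + c) * 2 ^ n * (1 + c) := mul_le_mul_of_nonneg_left h7 (by positivity)
    have h10 : 2 * (n : ℝ) ≤ c * 2 ^ n := by
      have := sq_le n
      nlinarith
    have h11 : (1 + c) * 2 ^ n * (1 + c) + c * 2 ^ n ≤ (1 + ε) * 2 ^ n := by
      have e1 : ε = 8 * c := by
        rw [hc]
        ring
      rw [e1]
      have e2 : (1 + c) * (1 + c) + c ≤ 1 + 8 * c := by nlinarith
      have e3 := mul_le_mul_of_nonneg_right e2 hp.le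
      linarith
    rw [h8] at h6
    linarith

end MP7d5fe8.T
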