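import Mathlib
import Pool.Agent.Work.MP_7d5fe8_co.T.Had

set_option autoImplicit false

/-!
# T/HadD: the orders of Hadamard matrices are dense on the logarithmic scale
-/

namespace MP7d5fe8.T

open Finset

/-- if `θ = q b - p a > 0` then every large `y` is at distance less than `θ` from a number `u a + v b ≤ y` -/
private theorem semi {a b θ : ℝ} {p q : ℕ} (ha : 0 < a) (hθ : 0 < θ) (h : θ = q * b - p * a) :
    ∃ Y : ℝ, ∀ y : ℝ, Y ≤ y → ∃ u v : ℕ, y - θ < u * a + v * b ∧ u * a + v * b ≤ y := by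
  refine ⟨a * (p * (⌊a / θ⌋₊ + 1) + 1), fun y hy => ?_⟩
  have hY0 : 0 < a * (p * ((⌊a / θ⌋₊ : ℝ) + 1) + 1) := by positivity
  have hy0 : 0 < y := lt_of_lt_of_le hY0 hy
  set s := ⌊y / a⌋₊ with hs
  have hs1 : (s : ℝ) * a ≤ y := by
    have := Nat.floor_le (show 0 ≤ y / a by positivity)
    rwa [← hs, le_div_iff₀ ha] at this
  have hs2 : y < (s + 1) * a := by
    have := Nat.lt_floor_add_one (y / a)
    rwa [← hs, div_lt_iff₀ ha] at this
  set i := ⌊(y - s * a) / θ⌋₊ with hi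
  have hi1 : (i : ℝ) * θ ≤ y - s * a := by
    have := Nat.floor_le (show 0 ≤ (y - s * a) / θ from div_nonneg (by linarith) hθ.le)
    rwa [← hi, le_div_iff₀ hθ] at this
  have hi2 : y - s * a < (i + 1) * θ := by
    have := Nat.lt_floor_add_one ((y - s * a) / θ)
    rwa [← hi, div_lt_iff₀ hθ] at this
  have hi3 : i ≤ ⌊a / θ⌋₊ := by
    refine Nat.floor_le_floor ?_
    refine div_le_div_of_nonneg_right ?_ hθ.le
    linarith
  have hps : p * i ≤ s := by
    have h1 : p * (⌊a / θ⌋₊ + 1) + 1 ≤ s := by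
      rw [hs]
      refine Nat.le_floor ?_
      rw [le_div_iff₀ ha]
      push_cast
      linarith
    calc p * i ≤ p * (⌊a / θ⌋₊ + 1) := Nat.mul_le_mul_left _ (by omega)
      _ ≤ s := by omega
  refine ⟨s - p * i, q * i, ?_⟩
  have h1 : ((s - p * i : ℕ) : ℝ) * a + ((q * i : ℕ) : ℝ) * b = s * a + i * θ := by
    rw [Nat.cast_sub hps, h]
    push_cast
    ring
  rw [h1]
  constructor
  · linarith
  · linarith

private theorem irr (p q : ℕ) (hq : 0 < q) : (q : ℝ) * Real.log 12 ≠ p * Real.log 2 := by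
  intro h
  rw [← Real.log_pow, ← Real.log_pow] at h
  have h1 := Real.log_injOn_pos (Set.mem_Ioi.2 (by positivity)) (Set.mem_Ioi.2 (by positivity)) h
  have h2 : (12 : ℕ) ^ q = 2 ^ p := by exact_mod_cast h1
  have h3 : 3 ∣ 2 ^ p := by
    rw [← h2]
    exact dvd_pow (by norm_num) (by omega)
  have h4 := Nat.Prime.dvd_of_dvd_pow Nat.prime_three h3
  omega

theorem had_dense {δ : ℝ} (hδ : 0 < δ) : ∃ X : ℝ, ∀ x : ℝ, X ≤ x → ∃ h : ℕ, Had h ∧ (1 - δ) * x ≤ h ∧ (h : ℝ) ≤ x := by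
  have hl2 : 0 < Real.log 2 := Real.log_pos (by norm_num)
  have hl12 : 0 < Real.log 12 := Real.log_pos (by norm_num)
  obtain ⟨n, hn⟩ := exists_nat_gt (Real.log 2 / δ)
  have hn0 : 0 < n := by
    have : (0 : ℝ) < n := lt_trans (by positivity) hn
    exact_mod_cast this
  obtain ⟨q, hq0, -, hq⟩ := Real.exists_nat_abs_mul_sub_round_le (Real.log 12 / Real.log 2) hn0
  have hp0 : 0 ≤ round ((q : ℝ) * (Real.log 12 / Real.log 2)) := by
    rw [round_eq]
    exact Int.floor_nonneg.2 (by positivity)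
  obtain ⟨p, hp⟩ := Int.eq_ofNat_of_zero_le hp0
  rw [hp] at hq
  have hq1 : |(q : ℝ) * Real.log 12 - p * Real.log 2| ≤ δ := by
    have h1 : (q : ℝ) * Real.log 12 - p * Real.log 2 =
        (q * (Real.log 12 / Real.log 2) - ((p : ℕ) : ℤ)) * Real.log 2 := by
      push_cast
      field_simp
    rw [h1, abs_mul, abs_of_pos hl2]
    calc |(q : ℝ) * (Real.log 12 / Real.log 2) - ((p : ℕ) : ℤ)| * Real.log 2 ≤ 1 / (n + 1) * Real.log 2 :=
          mul_le_mul_of_nonneg_right hq hl2.le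
      _ ≤ δ := by
          rw [div_mul_eq_mul_div, one_mul, div_le_iff₀ (by positivity)]
          rw [div_lt_iff₀ hδ] at hn
          nlinarith
  have key : ∃ Y : ℝ, ∀ y : ℝ, Y ≤ y → ∃ u v : ℕ, y - δ < u * Real.log 2 + v * Real.log 12 ∧
      u * Real.log 2 + v * Real.log 12 ≤ y := by
    rcases lt_or_gt_of_ne (irr p q hq0) with h1 | h1
    · obtain ⟨Y, hY⟩ := semi (a := Real.log 12) (b := Real.log 2) (θ := p * Real.log 2 - q * Real.log 12) hl12
        (by linarith) rfl
      refine ⟨Y, fun y hy => ?_⟩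
      obtain ⟨u, v, h2, h3⟩ := hY y hy
      rw [abs_of_neg (by linarith)] at hq1
      exact ⟨v, u, by linarith, by linarith⟩
    · obtain ⟨Y, hY⟩ := semi (a := Real.log 2) (b := Real.log 12) (θ := q * Real.log 12 - p * Real.log 2) hl2
        (by linarith) rfl
      refine ⟨Y, fun y hy => ?_⟩
      obtain ⟨u, v, h2, h3⟩ := hY y hy
      rw [abs_of_pos (by linarith)] at hq1
      exact ⟨u, v, by linarith, by linarith⟩
  obtain ⟨Y, hY⟩ := key
  refine ⟨Real.exp Y, fun x hx => ?_⟩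
  have hx0 : 0 < x := lt_of_lt_of_le (Real.exp_pos _) hx
  obtain ⟨u, v, h2, h3⟩ := hY (Real.log x) ((Real.le_log_iff_exp_le hx0).2 hx)
  refine ⟨2 ^ u * 12 ^ v, had_mul (had_pow had_two u) (had_pow had_twelve v), ?_⟩
  have h4 : ((2 ^ u * 12 ^ v : ℕ) : ℝ) = Real.exp (u * Real.log 2 + v * Real.log 12) := by
    rw [Real.exp_add, ← Real.log_pow, ← Real.log_pow, Real.exp_log (by positivity), Real.exp_log (by positivity)]
    push_cast
    ring
  rw [h4]
  constructor
  · calc (1 - δ) * x ≤ Real.exp (-δ) * x := by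
          refine mul_le_mul_of_nonneg_right ?_ hx0.le
          have := Real.add_one_le_exp (-δ)
          linarith
      _ = Real.exp (Real.log x - δ) := by
          rw [sub_eq_add_neg, Real.exp_add, Real.exp_log hx0]
          ring
      _ ≤ _ := Real.exp_le_exp.2 h2.le
  · calc Real.exp (u * Real.log 2 + v * Real.log 12) ≤ Real.exp (Real.log x) := Real.exp_le_exp.2 h3
      _ = x := Real.exp_log hx0

end MP7d5fe8.T
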