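import Mathlib
import Pool.Agent.Work.MP_7d5fe8_co.T.Wds
import Pool.Agent.Work.MP_7d5fe8_co.T.HadD

set_option autoImplicit false

/-!
# T/Low: codes above the middle

`codeSize n D ≥ (1 - δ) n / j` if `2 D ≤ n + j`, `C n log n ≤ j ^ 3` and `j ≤ η n`: take a Hadamard order `h = m + 1` slightly smaller than
`n / j`, `⌊n / m⌋` copies of its simplex code, and fill the remaining `n % m` coordinates with a code of distance `(n % m) / 2 - s`.
-/

namespace MP7d5fe8.T

open Finset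

theorem low {δ : ℝ} (hδ : 0 < δ) (hδ1 : δ ≤ 1) : ∃ C η : ℝ, 0 < η ∧ η ≤ 1 ∧ ∀ n D j : ℕ, 1 ≤ j → 1 ≤ D →
    C * n * Real.log n ≤ (j : ℝ) ^ 3 → (j : ℝ) ≤ η * n → 2 * D ≤ n + j →
      (1 - δ) * n / j ≤ codeSize n D := by
  obtain ⟨c, hc⟩ : ∃ c, c = δ / 2 := ⟨_, rfl⟩
  have hc0 : 0 < c := by
    rw [hc]
    positivity
  have hc1 : c ≤ 1 / 2 := by
    rw [hc]
    linarith
  obtain ⟨X, hX⟩ := had_dense hc0
  obtain ⟨Y, hY⟩ : ∃ Y, Y = max X 4 := ⟨_, rfl⟩
  have hY4 : 4 ≤ Y := by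
    rw [hY]
    exact le_max_right _ _
  have hYX : X ≤ Y := by
    rw [hY]
    exact le_max_left _ _
  have hY0 : 0 < Y := by linarith
  refine ⟨216 / c ^ 3, (1 - c) / Y, by
    refine div_pos (by linarith) hY0, by
    rw [div_le_one hY0]
    linarith, fun n D j hj hD hC hη hn => ?_⟩
  have hj1 : (1 : ℝ) ≤ j := by exact_mod_cast hj
  have hj0 : (0 : ℝ) < j := by linarith
  have hn4 : Y * j ≤ (1 - c) * n := by
    rw [div_mul_eq_mul_div, le_div_iff₀ hY0] at hη
    linarith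
  have hn2 : (2 : ℝ) ≤ n := by
    have h0 : (0 : ℝ) ≤ n := Nat.cast_nonneg n
    nlinarith
  have hn0 : (0 : ℝ) < n := by linarith
  obtain ⟨h, hh, hx1, hx2⟩ := hX ((1 - c) * n / j) (by
    rw [le_div_iff₀ hj0]
    nlinarith)
  have hx4 : 4 ≤ (1 - c) * n / j := by
    rw [le_div_iff₀ hj0]
    nlinarith
  have hh2 : (2 : ℝ) ≤ h := by nlinarith
  have hh2' : 2 ≤ h := by exact_mod_cast hh2
  obtain ⟨m, rfl⟩ : ∃ m, h = m + 1 := ⟨h - 1, by omega⟩
  have hm : 1 ≤ m := by omega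
  have hm0 : (0 : ℝ) < m := by exact_mod_cast hm
  obtain ⟨D1, hD1, hW1⟩ := wds_had hh hm
  -- sizes
  have hmn : ((m + 1 : ℕ) : ℝ) * j ≤ (1 - c) * n := by rwa [le_div_iff₀ hj0] at hx2
  have hlog0 : 0 ≤ Real.log n := Real.log_natCast_nonneg n
  have hlog : Real.log ((m + 1 : ℕ) : ℝ) ≤ Real.log n := by
    refine Real.log_le_log (by positivity) ?_
    have h1 : (0 : ℝ) ≤ ((m + 1 : ℕ) : ℝ) := Nat.cast_nonneg _
    nlinarith
  have hnlog : 1 ≤ (n : ℝ) * Real.log n := by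
    have h1 : Real.log 2 ≤ Real.log n := Real.log_le_log (by norm_num) hn2
    have h2 := Real.log_two_gt_d9
    nlinarith
  have hcj : 6 ≤ c * j := by
    by_contra hlt
    rw [not_le] at hlt
    have h1 : (c * j) ^ 3 < 6 ^ 3 := pow_lt_pow_left₀ hlt (by positivity) (by norm_num)
    have h2 : 216 / c ^ 3 * (n * Real.log n) ≤ (j : ℝ) ^ 3 := by
      rw [← mul_assoc]
      exact hC
    have h3 : 216 / c ^ 3 ≤ (j : ℝ) ^ 3 := by
      refine le_trans ?_ h2
      have h4 : 0 < 216 / c ^ 3 := by positivity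
      nlinarith
    rw [div_le_iff₀ (by positivity)] at h3
    rw [mul_pow] at h1
    linarith
  obtain ⟨s, hs⟩ : ∃ s, s = ⌊(c * j - 1) / 2⌋₊ := ⟨_, rfl⟩
  have hs1 : 2 * (s : ℝ) + 1 ≤ c * j := by
    have h1 := Nat.floor_le (show 0 ≤ (c * j - 1) / 2 by linarith)
    rw [← hs] at h1
    linarith
  have hs2 : c * j / 4 ≤ s := by
    have h1 := Nat.lt_floor_add_one ((c * j - 1) / 2)
    rw [← hs] at h1
    linarith
  have hfs : (((m + 1 : ℕ) : ℕ) : ℝ) * Real.log ((m + 1 : ℕ) : ℝ) ≤ 2 * (s : ℝ) ^ 2 := by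
    have h1 : ((m + 1 : ℕ) : ℝ) * Real.log ((m + 1 : ℕ) : ℝ) * j ≤ n * Real.log n := by
      calc ((m + 1 : ℕ) : ℝ) * Real.log ((m + 1 : ℕ) : ℝ) * j ≤ ((m + 1 : ℕ) : ℝ) * Real.log n * j := by
            refine mul_le_mul_of_nonneg_right (mul_le_mul_of_nonneg_left hlog (Nat.cast_nonneg _)) hj0.le
        _ = ((m + 1 : ℕ) : ℝ) * j * Real.log n := by ring
        _ ≤ n * Real.log n := by
            refine mul_le_mul_of_nonneg_right ?_ hlog0
            nlinarith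
    have h2 : (n : ℝ) * Real.log n ≤ c ^ 2 * j ^ 2 / 8 * j := by
      have h3 : 216 / c ^ 3 * (n * Real.log n) ≤ (j : ℝ) ^ 3 := by
        rw [← mul_assoc]
        exact hC
      rw [div_mul_eq_mul_div, div_le_iff₀ (by positivity)] at h3
      have h4 : (j : ℝ) ^ 3 * c ^ 3 ≤ (j : ℝ) ^ 3 * c ^ 2 := by
        refine mul_le_mul_of_nonneg_left ?_ (by positivity)
        calc c ^ 3 = c ^ 2 * c := by ring
          _ ≤ c ^ 2 * 1 := mul_le_mul_of_nonneg_left (by linarith) (by positivity)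
          _ = c ^ 2 := by ring
      have h5 : 0 ≤ (j : ℝ) ^ 3 * c ^ 2 := by positivity
      have h6 : c ^ 2 * (j : ℝ) ^ 2 / 8 * j = (j : ℝ) ^ 3 * c ^ 2 / 8 := by ring
      rw [h6]
      linarith
    have h3 : ((m + 1 : ℕ) : ℝ) * Real.log ((m + 1 : ℕ) : ℝ) ≤ c ^ 2 * j ^ 2 / 8 := by
      have h4 := h1.trans h2
      exact le_of_mul_le_mul_right h4 hj0
    have h4 : c ^ 2 * (j : ℝ) ^ 2 / 8 = 2 * (c * j / 4) ^ 2 := by ring
    rw [h4] at h3
    refine h3.trans ?_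
    have h5 : (c * j / 4) ^ 2 ≤ (s : ℝ) ^ 2 := pow_le_pow_left₀ (by positivity) hs2 2
    linarith
  obtain ⟨D2, hW2, hD2⟩ := fill (show 1 ≤ m + 1 by omega) (show n % m ≤ m + 1 by
    have := Nat.mod_lt n hm
    omega) hfs
  have hW := wds_add (wds_mul (n / m) hW1) hW2
  have hlen : n / m * m + n % m = n := by
    rw [mul_comm]
    exact Nat.div_add_mod n m
  rw [hlen] at hW
  have hr : j + 2 * s ≤ n / m := by
    have h1 : (j : ℝ) + 2 * s < (n / m : ℕ) + 1 := by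
      have h2 : (n : ℝ) < ((n / m : ℕ) + 1) * m := by
        have h3 : n < (n / m + 1) * m := by
          have := Nat.lt_div_mul_add (a := n) hm
          rw [add_mul, one_mul]
          exact this
        exact_mod_cast h3
      by_contra hlt
      rw [not_lt] at hlt
      have h3 : (n : ℝ) < (j + 2 * s) * m := lt_of_lt_of_le h2 (mul_le_mul_of_nonneg_right hlt hm0.le)
      have h4 : ((j : ℝ) + 2 * s) * m ≤ (1 + c) * j * m :=
        mul_le_mul_of_nonneg_right (by linarith) hm0.le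
      have h5 : (m : ℝ) * j ≤ (1 - c) * n := by
        push_cast at hmn
        nlinarith
      have h6 : (1 + c) * j * m ≤ (1 + c) * ((1 - c) * n) := by
        calc (1 + c) * j * m = (1 + c) * (m * j) := by ring
          _ ≤ _ := mul_le_mul_of_nonneg_left h5 (by linarith)
      have h7 : (1 + c) * ((1 - c) * n) = n - c ^ 2 * n := by ring
      have h8 : 0 < c ^ 2 * n := by positivity
      linarith
    have h2 : j + 2 * s < n / m + 1 := by exact_mod_cast h1
    omega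
  have hdist : D ≤ n / m * D1 + D2 := by
    have h1 : 2 * (n / m * D1) = n / m * m + n / m := by
      rw [← mul_assoc, mul_comm 2, mul_assoc, hD1]
      ring
    omega
  have h1 := wds_le (wds_mono hW hdist) hD
  have h2 : ((m + 1 : ℕ) : ℝ) ≤ codeSize n D := by exact_mod_cast h1
  refine le_trans ?_ h2
  refine le_trans ?_ hx1
  rw [← mul_div_assoc]
  refine div_le_div_of_nonneg_right ?_ hj0.le
  rw [← mul_assoc]
  refine mul_le_mul_of_nonneg_right ?_ hn0.le
  rw [hc]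
  nlinarith [sq_nonneg δ]

end MP7d5fe8.T
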