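import Mathlib
import Pool.Agent.Work.MP_7d5fe8_co.T.Low
import Pool.Agent.Work.MP_7d5fe8_co.T.Ineq
import Pool.Agent.Work.MP_7d5fe8_co.Additive

set_option autoImplicit false

/-!
# T/Expl: an explicit asymptotic formula above the middle

`χ(Q_n^d) ~ 2 ^ n / (2 m)`, `m = halfSize n d`, if `d < n` and `(2 d - n) ^ 3 ≥ C n log n`.
-/

namespace MP7d5fe8.T

open Finset

private theorem cs_pos (n D : ℕ) : (0 : ℝ) < codeSize n D := by
  have := codeSize_pos n D
  exact_mod_cast this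

private theorem sq_le (n : ℕ) : ((n : ℝ) + 1) ^ 2 ≤ 4 * 2 ^ n := by
  have h1 : n / 2 + 1 ≤ 2 ^ (n / 2) := Nat.lt_two_pow_self
  have h2 : (n / 2 + 1) ^ 2 ≤ 2 ^ n := by
    calc (n / 2 + 1) ^ 2 ≤ (2 ^ (n / 2)) ^ 2 := Nat.pow_le_pow_left h1 2
      _ = 2 ^ (n / 2 * 2) := by rw [← pow_mul]
      _ ≤ 2 ^ n := Nat.pow_le_pow_right (by norm_num) (by omega)
  have h3 : n + 1 ≤ 2 * (n / 2 + 1) := by omega
  have h4 : (n + 1) ^ 2 ≤ 4 * 2 ^ n := by
    calc (n + 1) ^ 2 ≤ (2 * (n / 2 + 1)) ^ 2 := Nat.pow_le_pow_left h3 2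
      _ = 4 * (n / 2 + 1) ^ 2 := by ring
      _ ≤ 4 * 2 ^ n := Nat.mul_le_mul_left _ h2
  exact_mod_cast h4

/-- `2 m (j + 2) ≤ n + j + 4` -/
private theorem half_le {n d j : ℕ} (hj : n + j = 2 * d) : 2 * halfSize n d * (j + 2) ≤ n + j + 4 := by
  unfold halfSize
  split_ifs with he
  · have h1 : 2 * (d + 2) - (n + 1) = j + 3 := by omega
    rw [h1]
    have h2 : (d + 2) / (j + 3) * (j + 3) ≤ d + 2 := Nat.div_mul_le_self _ _
    calc 2 * ((d + 2) / (j + 3)) * (j + 2) ≤ 2 * ((d + 2) / (j + 3)) * (j + 3) := Nat.mul_le_mul_left _ (by omega)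
      _ = 2 * ((d + 2) / (j + 3) * (j + 3)) := by ring
      _ ≤ 2 * (d + 2) := Nat.mul_le_mul_left _ h2
      _ ≤ n + j + 4 := by omega
  · have h1 : 2 * (d + 1) - n = j + 2 := by omega
    rw [h1]
    have h2 : (d + 1) / (j + 2) * (j + 2) ≤ d + 1 := Nat.div_mul_le_self _ _
    calc 2 * ((d + 1) / (j + 2)) * (j + 2) = 2 * ((d + 1) / (j + 2) * (j + 2)) := by ring
      _ ≤ 2 * (d + 1) := Nat.mul_le_mul_left _ h2
      _ ≤ n + j + 4 := by omega

private theorem num {c : ℝ} (h0 : 0 < c) (h1 : c ≤ 1 / 16) : (1 + c) * (1 + c) * (1 + c) / (1 - c) + c ≤ 1 + 8 * c := by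
  have h2 : 0 < 1 - c := by linarith
  have h3 : (1 + c) * (1 + c) * (1 + c) / (1 - c) ≤ 1 + 7 * c := by
    rw [div_le_iff₀ h2]
    nlinarith [sq_nonneg c, mul_pos h0 h0, mul_pos (mul_pos h0 h0) h0]
  linarith

theorem expl_up {ε : ℝ} (hε : 0 < ε) (hε1 : ε ≤ 1) : ∃ C η : ℝ, 0 < η ∧ ∀ n d j : ℕ, 1 ≤ j → n + j = 2 * d →
    C * n * Real.log n ≤ (j : ℝ) ^ 3 → (j : ℝ) ≤ η * n → (chi n d : ℝ) * (2 * halfSize n d) ≤ (1 + ε) * 2 ^ n := by
  obtain ⟨c, hc⟩ : ∃ c, c = ε / 16 := ⟨_, rfl⟩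
  have hc0 : 0 < c := by
    rw [hc]
    positivity
  have hc1 : c ≤ 1 / 16 := by
    rw [hc]
    linarith
  obtain ⟨C0, η0, hη0, hη1, hlow⟩ := low hc0 (by linarith)
  obtain ⟨C1, hC1⟩ : ∃ C1, C1 = max C0 (2 * (20 / c ^ 2) ^ 3) := ⟨_, rfl⟩
  have hC1a : C0 ≤ C1 := by
    rw [hC1]
    exact le_max_left _ _
  have hC1b : 2 * (20 / c ^ 2) ^ 3 ≤ C1 := by
    rw [hC1]
    exact le_max_right _ _
  refine ⟨C1, c * η0 / 2, by positivity, fun n d j hj hnj hC hη => ?_⟩
  have hj1 : (1 : ℝ) ≤ j := by exact_mod_cast hj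
  have hj0 : (0 : ℝ) < j := by linarith
  have hcη : c * η0 / 2 ≤ 1 / 32 := by nlinarith
  have hn2 : (2 : ℝ) ≤ n := by
    have h0 : (0 : ℝ) ≤ n := Nat.cast_nonneg n
    nlinarith
  have hn0 : (0 : ℝ) < n := by linarith
  have hnlog : 1 / 2 ≤ (n : ℝ) * Real.log n := by
    have h1 : Real.log 2 ≤ Real.log n := Real.log_le_log (by norm_num) hn2
    have h2 := Real.log_two_gt_d9
    nlinarith
  have hC' : C1 * (n * Real.log n) ≤ (j : ℝ) ^ 3 := by
    rw [← mul_assoc]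
    exact hC
  have hj20 : 20 / c ^ 2 ≤ j := by
    by_contra hlt
    rw [not_le] at hlt
    have h1 : (j : ℝ) ^ 3 < (20 / c ^ 2) ^ 3 := pow_lt_pow_left₀ hlt hj0.le (by norm_num)
    have h2 : 2 * (20 / c ^ 2) ^ 3 * (1 / 2) ≤ C1 * (n * Real.log n) :=
      mul_le_mul hC1b hnlog (by norm_num) (le_trans (by positivity) hC1b)
    linarith
  have hcj : 20 ≤ c * j := by
    rw [div_le_iff₀ (by positivity)] at hj20
    nlinarith
  have hjn : (j : ℝ) ≤ n := by nlinarith
  have hA := hlow n (d + 5) (j + 10) (by omega) (by omega) (by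
    push_cast
    have h1 : C0 * n * Real.log n ≤ C1 * n * Real.log n := by
      rw [mul_assoc, mul_assoc]
      exact mul_le_mul_of_nonneg_right hC1a (by linarith)
    have h2 : (j : ℝ) ^ 3 ≤ ((j : ℝ) + 10) ^ 3 := pow_le_pow_left₀ hj0.le (by linarith) 3
    linarith) (by
    push_cast
    have h1 : (10 : ℝ) ≤ j := by nlinarith
    nlinarith) (by omega)
  have hA0 := cs_pos n (d + 5)
  have hup := ineq_eps (n := n) (d := d) hc0 (by linarith) (by
    have h1 : (20 : ℝ) / c ^ 2 ≤ n := hj20.trans hjn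
    have h2 : (10 : ℝ) / c ^ 2 ≤ 20 / c ^ 2 := div_le_div_of_nonneg_right (by norm_num) (by positivity)
    linarith)
  have hm := half_le hnj
  have hm' : 2 * (halfSize n d : ℝ) * (j + 2) ≤ n + j + 4 := by exact_mod_cast hm
  -- assemble
  have e1 : (2 : ℝ) ^ n / codeSize n (d + 5) ≤ 2 ^ n * ((1 + c) * (j + 2)) / ((1 - c) * n) := by
    have h1 : (1 - c) * n / ((1 + c) * (j + 2)) ≤ codeSize n (d + 5) := by
      refine le_trans ?_ hA
      refine div_le_div_of_nonneg_left (mul_nonneg (by linarith) hn0.le) (by positivity) ?_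
      push_cast
      nlinarith
    have h2 : 0 < (1 - c) * n / ((1 + c) * (j + 2)) := div_pos (mul_pos (by linarith) hn0) (by positivity)
    calc (2 : ℝ) ^ n / codeSize n (d + 5) ≤ 2 ^ n / ((1 - c) * n / ((1 + c) * (j + 2))) :=
          div_le_div_of_nonneg_left (by positivity) h2 h1
      _ = _ := by
          rw [div_div_eq_mul_div]
  have e2 : (chi n d : ℝ) ≤ (1 + c) * (2 ^ n * ((1 + c) * (j + 2)) / ((1 - c) * n)) + 1 := by
    refine hup.trans ?_
    rw [mul_div_assoc]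
    have h1 := mul_le_mul_of_nonneg_left e1 (show 0 ≤ 1 + c by linarith)
    linarith
  have hm0 : (0 : ℝ) ≤ halfSize n d := Nat.cast_nonneg _
  have e3 : (chi n d : ℝ) * (2 * halfSize n d) ≤
      ((1 + c) * (2 ^ n * ((1 + c) * (j + 2)) / ((1 - c) * n)) + 1) * (2 * halfSize n d) :=
    mul_le_mul_of_nonneg_right e2 (by positivity)
  refine e3.trans ?_
  rw [add_mul, one_mul]
  have h1c : 0 < 1 - c := by linarith
  have hnj4 : (n : ℝ) + j + 4 ≤ (1 + c) * n := by
    have h1 : (j : ℝ) ≤ c * η0 / 2 * n := hη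
    have h2 : c * η0 / 2 * n ≤ c / 2 * n := by
      refine mul_le_mul_of_nonneg_right ?_ hn0.le
      nlinarith
    have h3 : 8 ≤ c * n := by nlinarith
    nlinarith
  have e4 : (1 + c) * (2 ^ n * ((1 + c) * (j + 2)) / ((1 - c) * n)) * (2 * halfSize n d) ≤
      2 ^ n * ((1 + c) * (1 + c) * (1 + c) / (1 - c)) := by
    have h1 : (1 + c) * (2 ^ n * ((1 + c) * (j + 2)) / ((1 - c) * n)) * (2 * halfSize n d) =
        2 ^ n * ((1 + c) * (1 + c) / (1 - c)) * ((2 * halfSize n d * (j + 2)) / n) := by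
      field_simp
    rw [h1]
    have h2 : (2 * (halfSize n d : ℝ) * (j + 2)) / n ≤ 1 + c := by
      rw [div_le_iff₀ hn0]
      linarith
    have h3 : 0 ≤ 2 ^ n * ((1 + c) * (1 + c) / (1 - c)) := by positivity
    calc 2 ^ n * ((1 + c) * (1 + c) / (1 - c)) * ((2 * halfSize n d * (j + 2)) / n) ≤
          2 ^ n * ((1 + c) * (1 + c) / (1 - c)) * (1 + c) := mul_le_mul_of_nonneg_left h2 h3
      _ = _ := by ring
  have e5 : 2 * (halfSize n d : ℝ) ≤ c * 2 ^ n := by
    have h1 : 2 * (halfSize n d : ℝ) ≤ 2 * n := by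
      have h2 : 2 * (halfSize n d : ℝ) * 2 ≤ 2 * (halfSize n d : ℝ) * (j + 2) :=
        mul_le_mul_of_nonneg_left (by linarith) (by positivity)
      nlinarith
    have h2 := sq_le n
    have h3 : 8 ≤ c * (n + 1) := by nlinarith
    nlinarith
  have e6 := num hc0 hc1
  have e7 : 2 ^ n * ((1 + c) * (1 + c) * (1 + c) / (1 - c)) + c * 2 ^ n ≤ 2 ^ n * (1 + 8 * c) := by
    have h1 := mul_le_mul_of_nonneg_left e6 (show (0 : ℝ) ≤ 2 ^ n by positivity)
    linarith
  have e8 : (2 : ℝ) ^ n * (1 + 8 * c) ≤ (1 + ε) * 2 ^ n := by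
    have h1 : 1 + 8 * c ≤ 1 + ε := by
      rw [hc]
      linarith
    have h2 := mul_le_mul_of_nonneg_right h1 (show (0 : ℝ) ≤ 2 ^ n by positivity)
    linarith
  linarith

/-- the asymptotic formula -/
theorem expl {ε : ℝ} (hε : 0 < ε) : ∃ C : ℝ, ∀ n d : ℕ, d < n → n < 2 * d →
    C * n * Real.log n ≤ (2 * d - n : ℝ) ^ 3 →
      (2 : ℝ) ^ n / (2 * halfSize n d) ≤ chi n d ∧ (chi n d : ℝ) ≤ (1 + ε) * (2 ^ n / (2 * halfSize n d)) := by
  obtain ⟨e, he⟩ : ∃ e, e = min ε 1 := ⟨_, rfl⟩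
  have he0 : 0 < e := by
    rw [he]
    exact lt_min hε one_pos
  have heε : e ≤ ε := by
    rw [he]
    exact min_le_left _ _
  have he1 : e ≤ 1 := by
    rw [he]
    exact min_le_right _ _
  obtain ⟨C0, η, hη, hup⟩ := expl_up he0 he1
  obtain ⟨C1, hC1⟩ := additive (η / 2) (by positivity)
  refine ⟨max C0 (2 * (4 * (1 + C1) / e) ^ 2), fun n d hd hn hC => ?_⟩
  have hn2' : 2 ≤ n := by omega
  have hn2 : (2 : ℝ) ≤ n := by exact_mod_cast hn2'
  have hn0 : (0 : ℝ) < n := by linarith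
  have hlog := Real.log_two_gt_d9
  have hlog2 : Real.log 2 ≤ Real.log n := Real.log_le_log (by norm_num) hn2
  have hnl : 0 ≤ (n : ℝ) * Real.log n := by
    have : 0 ≤ Real.log n := by linarith
    positivity
  have hspec := halfSize_spec hd (show n < 2 * (d + 1) by omega)
  have hm1 : (1 : ℝ) ≤ halfSize n d := by exact_mod_cast hspec.1
  have hm2 : 2 * (halfSize n d : ℝ) ≤ n + 1 := by
    have h1 := hspec.2.2.2
    have h2 : halfSize n d * 2 ≤ halfSize n d * (2 * (d + 1) - n) := Nat.mul_le_mul_left _ (by omega)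
    have h3 : 2 * halfSize n d ≤ n + 1 := by omega
    exact_mod_cast h3
  have hm0 : (0 : ℝ) < 2 * halfSize n d := by linarith
  obtain ⟨j, hj⟩ : ∃ j, n + j = 2 * d := ⟨2 * d - n, by omega⟩
  have hj1 : 1 ≤ j := by omega
  have hjr : (2 * d - n : ℝ) = j := by
    have : (n : ℝ) + j = 2 * d := by exact_mod_cast hj
    linarith
  rw [hjr] at hC
  have hC0 : C0 * n * Real.log n ≤ (j : ℝ) ^ 3 := by
    refine le_trans ?_ hC
    rw [mul_assoc, mul_assoc]
    exact mul_le_mul_of_nonneg_right (le_max_left _ _) hnl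
  constructor
  · have hcol : (QPow n d).Colorable (chi n d) := by
      rw [← SimpleGraph.chromaticNumber_le_iff_colorable, chi_spec]
    have h1 := MP7d5fe8.lower hspec.1 hspec.2.1 hcol
    rw [div_le_iff₀ hm0]
    have h2 : (2 : ℝ) ^ n ≤ 2 * halfSize n d * chi n d := by exact_mod_cast h1
    linarith
  · rw [← mul_div_assoc, le_div_iff₀ hm0]
    by_cases hjη : (j : ℝ) ≤ η * n
    · refine (hup n d j hj1 hj hC0 hjη).trans ?_
      exact mul_le_mul_of_nonneg_right (by linarith) (by positivity)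
    · rw [not_le] at hjη
      have h1 := (hC1 n d hd (by
        have : (n : ℝ) + j = 2 * d := by exact_mod_cast hj
        linarith)).2
      rw [chi_spec] at h1
      have h2 : chi n d ≤ ⌈(2 ^ n : ℚ) / (2 * halfSize n d)⌉₊ + C1 := by exact_mod_cast h1
      have h3 : (chi n d : ℝ) ≤ (⌈(2 ^ n : ℚ) / (2 * halfSize n d)⌉₊ : ℕ) + C1 := by exact_mod_cast h2
      have h4 : ((⌈(2 ^ n : ℚ) / (2 * halfSize n d)⌉₊ : ℕ) : ℝ) ≤ 2 ^ n / (2 * halfSize n d) + 1 := by
        have h5 := (Nat.ceil_lt_add_one (show (0 : ℚ) ≤ (2 ^ n : ℚ) / (2 * halfSize n d) by positivity)).le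
        have h6 := (Rat.cast_le (K := ℝ)).2 h5
        push_cast at h6
        exact h6
      have h5 : (chi n d : ℝ) ≤ 2 ^ n / (2 * halfSize n d) + (1 + C1) := by linarith
      have h6 : (chi n d : ℝ) * (2 * halfSize n d) ≤ 2 ^ n + (1 + C1) * (2 * halfSize n d) := by
        calc (chi n d : ℝ) * (2 * halfSize n d) ≤ (2 ^ n / (2 * halfSize n d) + (1 + C1)) * (2 * halfSize n d) :=
              mul_le_mul_of_nonneg_right h5 hm0.le
          _ = _ := by
              field_simp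
      have h7 : (1 + (C1 : ℝ)) * (2 * halfSize n d) ≤ e * 2 ^ n := by
        have h8 : 4 * (1 + (C1 : ℝ)) / e ≤ n + 1 := by
          have h9 : (4 * (1 + (C1 : ℝ)) / e) ^ 2 ≤ (n : ℝ) ^ 2 := by
            have h10 : 2 * (4 * (1 + (C1 : ℝ)) / e) ^ 2 * (n * Real.log n) ≤ (j : ℝ) ^ 3 := by
              refine le_trans ?_ hC
              calc 2 * (4 * (1 + (C1 : ℝ)) / e) ^ 2 * (n * Real.log n) ≤
                    max C0 (2 * (4 * (1 + (C1 : ℝ)) / e) ^ 2) * (n * Real.log n) :=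
                    mul_le_mul_of_nonneg_right (le_max_right _ _) hnl
                _ = _ := by ring
            have h11 : (j : ℝ) ≤ n := by
              have : j ≤ n := by omega
              exact_mod_cast this
            have h12 : (j : ℝ) ^ 3 ≤ (n : ℝ) ^ 3 := pow_le_pow_left₀ (Nat.cast_nonneg _) h11 3
            have h13 : 0 ≤ (4 * (1 + (C1 : ℝ)) / e) ^ 2 := by positivity
            have h14 : (4 * (1 + (C1 : ℝ)) / e) ^ 2 * n ≤ 2 * (4 * (1 + (C1 : ℝ)) / e) ^ 2 * (n * Real.log n) := by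
              have h15 : (1 : ℝ) ≤ 2 * Real.log n := by linarith
              have h16 : 0 ≤ (4 * (1 + (C1 : ℝ)) / e) ^ 2 * n := by positivity
              nlinarith
            have h15 : (4 * (1 + (C1 : ℝ)) / e) ^ 2 * n ≤ (n : ℝ) ^ 2 * n := by
              have h16 : (n : ℝ) ^ 3 = n ^ 2 * n := by ring
              linarith
            exact le_of_mul_le_mul_right h15 hn0
          have h10 := (sq_le_sq₀ (by positivity) hn0.le).1 h9
          linarith
        have h9 := sq_le n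
        rw [div_le_iff₀ he0] at h8
        calc (1 + (C1 : ℝ)) * (2 * halfSize n d) ≤ (1 + C1) * (n + 1) := mul_le_mul_of_nonneg_left hm2 (by positivity)
          _ ≤ (n + 1) * e / 4 * (n + 1) := by
              refine mul_le_mul_of_nonneg_right ?_ (by positivity)
              linarith
          _ = e * ((n + 1) ^ 2 / 4) := by ring
          _ ≤ e * 2 ^ n := by
              refine mul_le_mul_of_nonneg_left ?_ he0.le
              linarith
      have h8 : e * (2 : ℝ) ^ n ≤ ε * 2 ^ n := mul_le_mul_of_nonneg_right heε (by positivity)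
      linarith

end MP7d5fe8.T
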