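import Mathlib
import Pool.Agent.Work.MP_7d5fe8_co.T.Expl
import Pool.Agent.Work.MP_7d5fe8_co.T.Below

set_option autoImplicit false

/-!
# T/Around: the asymptotic formula around the middle
-/

namespace MP7d5fe8.T

open Finset

theorem around {ε : ℝ} (hε : 0 < ε) : ∃ C : ℝ, ∀ n d : ℕ, 1 ≤ d → d < n →
    ((n < 2 * d ∧ C * n * Real.log n ≤ (2 * d - n : ℝ) ^ 3) ∨
      (∃ h w : ℕ, Had h ∧ n ≤ h + w ∧ h ≤ n + w ∧ 2 * d + w + 10 ≤ n ∧ C * (n - 2 * d : ℝ) ^ 3 ≤ n)) →
      (1 - ε) * (2 ^ n / (2 * half n d)) ≤ chi n d ∧ (chi n d : ℝ) ≤ (1 + ε) * (2 ^ n / (2 * half n d)) := by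
  obtain ⟨e, he⟩ : ∃ e, e = min ε 1 := ⟨_, rfl⟩
  have he0 : 0 < e := by
    rw [he]
    exact lt_min hε one_pos
  have heε : e ≤ ε := by
    rw [he]
    exact min_le_left _ _
  have he1 : e ≤ 1 := by
    rw [he]
    exact min_le_right _ _
  obtain ⟨C1, hC1⟩ := expl he0
  obtain ⟨C2, hC2⟩ := below he0 he1
  refine ⟨max C1 C2, fun n d hd1 hd h => ?_⟩
  have hn0 : (0 : ℝ) < n := by
    have : 0 < n := by omega
    exact_mod_cast this
  have key : ∀ X : ℝ, 0 ≤ X → (1 - e) * X ≤ chi n d → (chi n d : ℝ) ≤ (1 + e) * X →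
      (1 - ε) * X ≤ chi n d ∧ (chi n d : ℝ) ≤ (1 + ε) * X := by
    intro X hX h1 h2
    constructor
    · have := mul_le_mul_of_nonneg_right (show 1 - ε ≤ 1 - e by linarith) hX
      linarith
    · have := mul_le_mul_of_nonneg_right (show 1 + e ≤ 1 + ε by linarith) hX
      linarith
  rcases h with ⟨h1, h2⟩ | ⟨h, w, hh, h1, h2, h3, h4⟩
  · have hm : half n d = halfSize n d := if_pos (by omega)
    rw [hm]
    have hlog : 0 ≤ (n : ℝ) * Real.log n := mul_nonneg hn0.le (Real.log_natCast_nonneg n)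
    have h5 := hC1 n d hd h1 (by
      refine le_trans ?_ h2
      rw [mul_assoc, mul_assoc]
      exact mul_le_mul_of_nonneg_right (le_max_left _ _) hlog)
    refine key _ (by positivity) ?_ h5.2
    refine le_trans ?_ h5.1
    have h6 : (0 : ℝ) ≤ 2 ^ n / (2 * halfSize n d) := by positivity
    have := mul_le_mul_of_nonneg_right (show 1 - e ≤ 1 by linarith) h6
    linarith
  · have hm : half n d = n := if_neg (by omega)
    rw [hm]
    obtain ⟨i, hi⟩ : ∃ i, n = 2 * d + i := ⟨n - 2 * d, by omega⟩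
    have hir : (n : ℝ) - 2 * d = i := by
      have : (n : ℝ) = 2 * d + i := by exact_mod_cast hi
      linarith
    rw [hir] at h4
    have h5 := hC2 h w n d i hh h1 h2 hi (by omega) (by
      refine le_trans ?_ h4
      exact mul_le_mul_of_nonneg_right (le_max_right _ _) (by positivity))
    exact key _ (by positivity) h5.1 h5.2

end MP7d5fe8.T
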