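import Mathlib
import Pool.Agent.Work.MP_7d5fe8_co.T.Defs

set_option autoImplicit false

/-!
# T/AvgX: random translates, the uncovered points (general exponential moments)

`Avg0` with `1 + x` in place of `2`: `(1 + x) ^ unc C E z a` is the sum of `x ^ |S|` over the sets `S ⊆ E` such that for all `e ∈ S` and all `i` the point `a ∆ e ∆ z i` is not in `C`.
-/

namespace MP7d5fe8.T

open Finset

variable {n : ℕ}

private theorem card_shift (C : Finset (Finset (Fin n))) (w : Finset (Fin n)) :
    (univ.filter fun t : Finset (Fin n) => symmDiff w t ∈ C).card = C.card := by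
  have h : (univ.filter fun t : Finset (Fin n) => symmDiff w t ∈ C) = C.image fun c => symmDiff w c := by
    ext t
    simp only [mem_filter, mem_univ, true_and, mem_image]
    constructor
    · intro ht
      exact ⟨_, ht, symmDiff_symmDiff_cancel_left w t⟩
    · rintro ⟨c, hc, rfl⟩
      rwa [symmDiff_symmDiff_cancel_left]
  rw [h]
  exact card_image_of_injective _ (symmDiff_right_injective w)

private theorem card_T (C E : Finset (Finset (Fin n))) (h : Ind C E) (a : Finset (Fin n)) {S : Finset (Finset (Fin n))}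
    (hS : S ⊆ E) :
    (univ.filter fun t : Finset (Fin n) => ∀ e ∈ S, symmDiff (symmDiff a e) t ∉ C).card + S.card * C.card = 2 ^ n := by
  have h1 : (univ.filter fun t : Finset (Fin n) => ¬ ∀ e ∈ S, symmDiff (symmDiff a e) t ∉ C) =
      S.biUnion fun e => univ.filter fun t : Finset (Fin n) => symmDiff (symmDiff a e) t ∈ C := by
    ext t
    simp only [mem_filter, mem_univ, true_and, mem_biUnion, not_forall, not_not, exists_prop]
  have h2 : (S.biUnion fun e => univ.filter fun t : Finset (Fin n) => symmDiff (symmDiff a e) t ∈ C).card =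
      S.card * C.card := by
    rw [card_biUnion]
    · rw [sum_congr rfl fun e _ => card_shift C (symmDiff a e), sum_const, smul_eq_mul]
    · intro e he e' he' hne
      rw [Function.onFun, disjoint_left]
      intro t ht ht'
      rw [mem_filter] at ht ht'
      have e1 : symmDiff (symmDiff (symmDiff a e) t) e = symmDiff (symmDiff (symmDiff a e') t) e' := by
        have e2 : ∀ e : Finset (Fin n), symmDiff (symmDiff (symmDiff a e) t) e = symmDiff a t := by
          intro e
          rw [symmDiff_assoc, symmDiff_comm t e, symmDiff_assoc, symmDiff_symmDiff_cancel_left]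
        rw [e2, e2]
      have e3 := h _ ht.2 _ ht'.2 e (hS he) e' (hS he') e1
      apply hne
      have e4 := symmDiff_left_injective t e3
      exact symmDiff_right_injective a e4
  have h3 := card_filter_add_card_filter_not (s := (univ : Finset (Finset (Fin n))))
    (fun t => ∀ e ∈ S, symmDiff (symmDiff a e) t ∉ C)
  rw [h1, h2] at h3
  rw [h3]
  simp

private theorem sum_z (C E : Finset (Finset (Fin n))) (h : Ind C E) (K : ℕ) {x : ℝ} (hx : 0 < x) (a : Finset (Fin n)) :
    ∑ z : Fin K → Finset (Fin n), (1 + x) ^ unc C E z a ≤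
      (2 ^ n) ^ K * Real.exp (x * (E.card * Real.exp (-(K * C.card / 2 ^ n)))) := by
  classical
  have h2n : (0 : ℝ) < 2 ^ n := by positivity
  have e1 : ∀ z : Fin K → Finset (Fin n), (1 + x) ^ unc C E z a =
      ∑ S ∈ E.powerset, x ^ S.card * (if ∀ i, ∀ e ∈ S, symmDiff (symmDiff a e) (z i) ∉ C then (1 : ℝ) else 0) := by
    intro z
    have e2 : E.powerset.filter (fun S => ∀ i, ∀ e ∈ S, symmDiff (symmDiff a e) (z i) ∉ C) =
        (E.filter fun e => ∀ i, symmDiff (symmDiff a e) (z i) ∉ C).powerset := by
      ext S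
      simp only [mem_filter, mem_powerset]
      constructor
      · rintro ⟨hS, h1⟩ e he
        exact mem_filter.2 ⟨hS he, fun i => h1 i e he⟩
      · intro hS
        exact ⟨fun e he => (mem_filter.1 (hS he)).1, fun i e he => (mem_filter.1 (hS he)).2 i⟩
    have e3 : ∀ S ∈ E.powerset, x ^ S.card * (if ∀ i, ∀ e ∈ S, symmDiff (symmDiff a e) (z i) ∉ C then (1 : ℝ) else 0) =
        if ∀ i, ∀ e ∈ S, symmDiff (symmDiff a e) (z i) ∉ C then x ^ S.card else 0 := by
      intro S _
      split_ifs <;> simp
    rw [sum_congr rfl e3, ← sum_filter, e2]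
    have e4 := Finset.sum_pow_mul_eq_add_pow x 1 (E.filter fun e => ∀ i, symmDiff (symmDiff a e) (z i) ∉ C)
    simp only [one_pow, mul_one] at e4
    rw [e4, add_comm]
    unfold unc
    congr 2
  rw [sum_congr rfl fun z _ => e1 z, sum_comm]
  have e3 : ∀ S ∈ E.powerset, (∑ z : Fin K → Finset (Fin n), x ^ S.card *
      (if ∀ i, ∀ e ∈ S, symmDiff (symmDiff a e) (z i) ∉ C then (1 : ℝ) else 0)) ≤
      (2 ^ n) ^ K * (x * Real.exp (-(K * C.card / 2 ^ n))) ^ S.card := by
    intro S hS
    rw [← mul_sum, ← sum_filter, sum_const, nsmul_eq_mul, mul_one]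
    have e4 : (univ.filter fun z : Fin K → Finset (Fin n) => ∀ i, ∀ e ∈ S, symmDiff (symmDiff a e) (z i) ∉ C) =
        Fintype.piFinset fun _ : Fin K =>
          univ.filter fun t : Finset (Fin n) => ∀ e ∈ S, symmDiff (symmDiff a e) t ∉ C := by
      ext z
      simp only [mem_filter, mem_univ, true_and, Fintype.mem_piFinset]
    rw [e4, Fintype.card_piFinset, prod_const, card_univ, Fintype.card_fin, Nat.cast_pow]
    have e5 := card_T C E h a (mem_powerset.1 hS)
    have e6 : ((univ.filter fun t : Finset (Fin n) => ∀ e ∈ S, symmDiff (symmDiff a e) t ∉ C).card : ℝ) =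
        2 ^ n * (1 - S.card * C.card / 2 ^ n) := by
      have e7 : ((univ.filter fun t : Finset (Fin n) => ∀ e ∈ S, symmDiff (symmDiff a e) t ∉ C).card : ℝ) +
          S.card * C.card = 2 ^ n := by exact_mod_cast e5
      field_simp
      linarith
    have e8 : 0 ≤ 1 - (S.card : ℝ) * C.card / 2 ^ n := by
      have : 0 ≤ 2 ^ n * (1 - (S.card : ℝ) * C.card / 2 ^ n) := by
        rw [← e6]
        positivity
      by_contra hc
      have := mul_neg_of_pos_of_neg h2n (not_le.1 hc)
      linarith
    rw [e6, mul_pow, mul_pow]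
    have e9 : (1 - (S.card : ℝ) * C.card / 2 ^ n) ^ K ≤ Real.exp (-(K * C.card / 2 ^ n)) ^ S.card := by
      calc (1 - (S.card : ℝ) * C.card / 2 ^ n) ^ K ≤ Real.exp (-((S.card : ℝ) * C.card / 2 ^ n)) ^ K := by
            refine pow_le_pow_left₀ e8 ?_ K
            have := Real.add_one_le_exp (-((S.card : ℝ) * C.card / 2 ^ n))
            linarith
        _ = Real.exp (-(K * C.card / 2 ^ n)) ^ S.card := by
            rw [← Real.exp_nat_mul, ← Real.exp_nat_mul]
            congr 1
            ring
    calc x ^ S.card * ((2 ^ n) ^ K * (1 - (S.card : ℝ) * C.card / 2 ^ n) ^ K) =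
        (2 ^ n) ^ K * (x ^ S.card * (1 - (S.card : ℝ) * C.card / 2 ^ n) ^ K) := by ring
      _ ≤ _ := by
        refine mul_le_mul_of_nonneg_left ?_ (by positivity)
        exact mul_le_mul_of_nonneg_left e9 (by positivity)
  refine (sum_le_sum e3).trans ?_
  rw [← mul_sum]
  refine mul_le_mul_of_nonneg_left ?_ (by positivity)
  have e9 := Finset.sum_pow_mul_eq_add_pow (x * Real.exp (-(K * C.card / 2 ^ n))) 1 E
  simp only [one_pow, mul_one] at e9
  rw [e9]
  calc (x * Real.exp (-(K * C.card / 2 ^ n)) + 1) ^ E.card ≤ Real.exp (x * Real.exp (-(K * C.card / 2 ^ n))) ^ E.card := by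
        refine pow_le_pow_left₀ (by positivity) ?_ _
        exact Real.add_one_le_exp _
    _ = _ := by
        rw [← Real.exp_nat_mul]
        congr 1
        ring

theorem avgx (C E : Finset (Finset (Fin n))) (h : Ind C E) (K : ℕ) {x : ℝ} (hx : 0 < x) :
    ∃ z : Fin K → Finset (Fin n), ∀ a : Finset (Fin n),
      (1 + x) ^ unc C E z a ≤ 2 ^ n * Real.exp (x * (E.card * Real.exp (-(K * C.card / 2 ^ n)))) := by
  classical
  have h1 : ∑ z : Fin K → Finset (Fin n), ∑ a : Finset (Fin n), (1 + x) ^ unc C E z a ≤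
      ∑ _z : Fin K → Finset (Fin n), 2 ^ n * Real.exp (x * (E.card * Real.exp (-(K * C.card / 2 ^ n)))) := by
    rw [sum_comm]
    refine (sum_le_sum fun a _ => sum_z C E h K hx a).trans (le_of_eq ?_)
    rw [sum_const, sum_const, card_univ, card_univ, Fintype.card_finset, Fintype.card_fun, Fintype.card_finset,
      Fintype.card_fin, nsmul_eq_mul, nsmul_eq_mul, Fintype.card_fin]
    push_cast
    ring
  obtain ⟨z, -, hz⟩ := exists_le_of_sum_le (s := (univ : Finset (Fin K → Finset (Fin n)))) univ_nonempty h1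
  refine ⟨z, fun a => le_trans ?_ hz⟩
  exact single_le_sum (f := fun a => (1 + x) ^ unc C E z a) (fun a _ => by positivity) (mem_univ a)

end MP7d5fe8.T
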