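import Mathlib
import Pool.Agent.Work.MP_7d5fe8_co.T.Base

set_option autoImplicit false

/-!
# T/Tele (S): telescoping and counting

`count_le`: `∑ D ∈ Icc p q, (g D - g (D + 4)) = ∑ D ∈ Icc p (p + 3), g D - ∑ D ∈ Icc (q + 1) (q + 4), g D` (induction on `q`, or sums over `range`), at most `4 g p - 4 g (q + 4)`; all summands are nonnegative, the
counted ones larger than `M`. `count_code`: `g D = log (codeSize n D)`, `g D - g (D + 4) = log (quotient)`.
-/

namespace MP7d5fe8.T

open Finset

open Classical in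
theorem count_le {g : ℕ → ℝ} (hg : Antitone g) {p q : ℕ} (h : p ≤ q + 1) {M : ℝ} (hM : 0 < M) :
    (((Icc p q).filter fun D => M < g D - g (D + 4)).card : ℝ) ≤ 4 * (g p - g (q + 4)) / M := by
  have h0 : ∀ D, 0 ≤ g D - g (D + 4) := fun D => sub_nonneg.2 (hg (by omega))
  have h1 : (((Icc p q).filter fun D => M < g D - g (D + 4)).card : ℝ) * M ≤ ∑ D ∈ Icc p q, (g D - g (D + 4)) := by
    calc (((Icc p q).filter fun D => M < g D - g (D + 4)).card : ℝ) * M =
        ∑ D ∈ (Icc p q).filter (fun D => M < g D - g (D + 4)), M := by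
          rw [sum_const, nsmul_eq_mul]
      _ ≤ ∑ D ∈ (Icc p q).filter (fun D => M < g D - g (D + 4)), (g D - g (D + 4)) :=
          sum_le_sum fun D hD => (mem_filter.1 hD).2.le
      _ ≤ _ := sum_le_sum_of_subset_of_nonneg (filter_subset _ _) fun D _ _ => h0 D
  have h2 : ∑ D ∈ Icc p q, (g D - g (D + 4)) =
      (g p + g (p + 1) + g (p + 2) + g (p + 3)) - (g (q + 1) + g (q + 2) + g (q + 3) + g (q + 4)) := by
    obtain ⟨k, hk⟩ := Nat.exists_eq_add_of_le h
    have h3 : Icc p q = Ico p (p + k) := by
      ext D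
      rw [mem_Icc, mem_Ico]
      omega
    have h4 : ∀ k : ℕ, ∑ D ∈ Ico p (p + k), (g D - g (D + 4)) =
        (g p + g (p + 1) + g (p + 2) + g (p + 3)) -
          (g (p + k) + g (p + k + 1) + g (p + k + 2) + g (p + k + 3)) := by
      intro k
      induction k with
      | zero => simp
      | succ k ih =>
        rw [← Nat.add_assoc, sum_Ico_succ_top (by omega), ih]
        have e1 : p + k + 1 + 1 = p + k + 2 := by ring
        have e2 : p + k + 1 + 2 = p + k + 3 := by ring
        have e3 : p + k + 1 + 3 = p + k + 4 := by ring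
        rw [e1, e2, e3]
        ring
    rw [h3, h4, ← hk]
  rw [le_div_iff₀ hM]
  refine h1.trans ?_
  rw [h2]
  have a1 : g (p + 1) ≤ g p := hg (by omega)
  have a2 : g (p + 2) ≤ g p := hg (by omega)
  have a3 : g (p + 3) ≤ g p := hg (by omega)
  have b1 : g (q + 4) ≤ g (q + 1) := hg (by omega)
  have b2 : g (q + 4) ≤ g (q + 2) := hg (by omega)
  have b3 : g (q + 4) ≤ g (q + 3) := hg (by omega)
  linarith

open Classical in
/-- `d` runs over `Icc a b`, `D = d + 1` -/
theorem count_code {n a b : ℕ} (h : a ≤ b + 1) {M : ℝ} (hM : 0 < M) :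
    (((Icc a b).filter fun d => M < Real.log (codeSize n (d + 1) / codeSize n (d + 5))).card : ℝ) ≤
      4 * (Real.log (codeSize n (a + 1)) - Real.log (codeSize n (b + 5))) / M := by
  have hpos : ∀ D, (0 : ℝ) < codeSize n D := fun D => by
    have := codeSize_pos n D
    exact_mod_cast this
  have hg : Antitone fun d : ℕ => Real.log (codeSize n (d + 1)) := by
    intro d d' hd
    refine Real.log_le_log (hpos _) ?_
    exact_mod_cast codeSize_anti (n := n) (show d + 1 ≤ d' + 1 by omega)
  have key := count_le hg h hM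
  have e : (Icc a b).filter (fun d => M < Real.log (codeSize n (d + 1) / codeSize n (d + 5))) =
      (Icc a b).filter (fun D => M < Real.log (codeSize n (D + 1)) - Real.log (codeSize n (D + 4 + 1))) := by
    refine filter_congr fun d _ => ?_
    rw [Real.log_div (hpos _).ne' (hpos _).ne']
  rw [e]
  exact key

end MP7d5fe8.T
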