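import Mathlib
import Pool.Agent.Work.MP_7d5fe8_co.T.Ineq
import Pool.Agent.Work.MP_7d5fe8_co.T.Tele

set_option autoImplicit false

/-!
# T/Exc (M): the exceptional values of `d`

`exc_gen`: `M = min (K - 10) (log (n + 1)) > 0`. If `4 ≤ d` and `log (A0 / A1) ≤ M` then `A0 / A1 ≤ n + 1` and by `ineq_lin` `chi ≤ K N / A0`. So a counted `d` is `< 4` (at most `3` values, `1 ≤ a`) or is counted by
`count_code`. `exc_all`: `a = 1`, `b = n`: `log (codeSize n 2) ≤ n log 2`, `codeSize n (n + 5) = 1`; for `K ≥ 20`: `K - 10 ≥ K / 2`, so `M ≥ min K (log (n+1)) / 2`, the count is at most `8 n log 2 / min + 3` and `3 ≤ 3 n / min`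
(`log (n + 1) ≤ n`); for `K < 20` the count is at most `n ≤ 20 n / K ≤ 20 n / min`. The sum of the constants is at most `20`.
-/

namespace MP7d5fe8.T

open Finset

private theorem cs_pos (n D : ℕ) : (0 : ℝ) < codeSize n D := by
  have := codeSize_pos n D
  exact_mod_cast this

private theorem log_mono (n : ℕ) {D D' : ℕ} (h : D ≤ D') : Real.log (codeSize n D') ≤ Real.log (codeSize n D) := by
  refine Real.log_le_log (cs_pos _ _) ?_
  exact_mod_cast codeSize_anti (n := n) h

open Classical in
theorem exc_gen {n a b : ℕ} (hn : 1 ≤ n) (ha : 1 ≤ a) (h : a ≤ b + 1) {K : ℝ} (hK : 10 < K) :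
    (((Icc a b).filter fun d => K * 2 ^ n / codeSize n (d + 1) < (chi n d : ℝ)).card : ℝ) ≤
      4 * (Real.log (codeSize n (a + 1)) - Real.log (codeSize n (b + 5))) / min (K - 10) (Real.log (n + 1)) + 3 := by
  set M := min (K - 10) (Real.log (n + 1)) with hM
  have hn1 : (1 : ℝ) ≤ n := by exact_mod_cast hn
  have hM0 : 0 < M := lt_min (by linarith) (Real.log_pos (by linarith))
  have h1 := count_code (n := n) h hM0
  have h2 : ((Icc a b).filter fun d => K * 2 ^ n / codeSize n (d + 1) < (chi n d : ℝ)) ⊆
      ((Icc a b).filter fun d => M < Real.log (codeSize n (d + 1) / codeSize n (d + 5))) ∪ Icc 1 3 := by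
    intro d hd
    rw [mem_filter] at hd
    rw [mem_union, mem_filter]
    by_cases hd4 : 4 ≤ d
    · left
      refine ⟨hd.1, ?_⟩
      by_contra hlt
      have h3 := not_lt.1 hlt
      have hA0 := cs_pos n (d + 1)
      have hA1 := cs_pos n (d + 5)
      have h4 : (codeSize n (d + 1) : ℝ) / codeSize n (d + 5) ≤ n + 1 := by
        have h5 := h3.trans (min_le_right _ _)
        exact (Real.log_le_log_iff (by positivity) (by positivity)).1 h5
      have h5 := ineq_lin hd4 h4
      have h6 : Real.log (codeSize n (d + 1) / codeSize n (d + 5)) + 10 ≤ K := by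
        have := h3.trans (min_le_left _ _)
        linarith
      have h7 : (chi n d : ℝ) ≤ 2 ^ n / codeSize n (d + 1) * K :=
        h5.trans (mul_le_mul_of_nonneg_left h6 (by positivity))
      have h8 := hd.2
      have h9 : K * 2 ^ n / (codeSize n (d + 1) : ℝ) = 2 ^ n / codeSize n (d + 1) * K := by ring
      rw [h9] at h8
      linarith
    · right
      rw [mem_Icc] at hd ⊢
      omega
  have h3 : (((Icc a b).filter fun d => K * 2 ^ n / codeSize n (d + 1) < (chi n d : ℝ)).card : ℝ) ≤
      (((Icc a b).filter fun d => M < Real.log (codeSize n (d + 1) / codeSize n (d + 5))).card : ℝ) + 3 := by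
    have h4 := (card_le_card h2).trans (card_union_le _ _)
    have h5 : (Icc 1 3 : Finset ℕ).card = 3 := by simp
    rw [h5] at h4
    exact_mod_cast h4
  linarith

open Classical in
theorem exc_all {n : ℕ} (hn : 1 ≤ n) {K : ℝ} (hK : 1 ≤ K) :
    (((Icc 1 n).filter fun d => K * 2 ^ n / codeSize n (d + 1) < (chi n d : ℝ)).card : ℝ) ≤
      20 * n / min K (Real.log (n + 1)) := by
  have hn1 : (1 : ℝ) ≤ n := by exact_mod_cast hn
  have hL0 : 0 < Real.log ((n : ℝ) + 1) := Real.log_pos (by linarith)
  have hLn : Real.log ((n : ℝ) + 1) ≤ n := by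
    have := Real.log_le_sub_one_of_pos (show (0 : ℝ) < n + 1 by linarith)
    linarith
  have hm0 : 0 < min K (Real.log ((n : ℝ) + 1)) := lt_min (by linarith) hL0
  rw [le_div_iff₀ hm0]
  have hcard : (((Icc 1 n).filter fun d => K * 2 ^ n / codeSize n (d + 1) < (chi n d : ℝ)).card : ℝ) ≤ n := by
    have h1 := card_filter_le (Icc 1 n) fun d => K * 2 ^ n / codeSize n (d + 1) < (chi n d : ℝ)
    rw [Nat.card_Icc, Nat.add_sub_cancel] at h1
    exact_mod_cast h1
  by_cases hK20 : K < 20
  · calc (((Icc 1 n).filter fun d => K * 2 ^ n / codeSize n (d + 1) < (chi n d : ℝ)).card : ℝ) * min K (Real.log (n + 1))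
        ≤ n * 20 := mul_le_mul hcard ((min_le_left _ _).trans hK20.le) hm0.le (by positivity)
      _ = 20 * n := by ring
  · have hK20' : 20 ≤ K := not_lt.1 hK20
    have h1 := exc_gen hn le_rfl (show 1 ≤ n + 1 by omega) (show 10 < K by linarith)
    have h2 : codeSize n (n + 5) = 1 := codeSize_top (by omega)
    rw [h2, Nat.cast_one, Real.log_one, sub_zero] at h1
    have h3 : Real.log (codeSize n (1 + 1)) ≤ n * Real.log 2 := by
      rw [← Real.log_pow]
      refine Real.log_le_log (cs_pos _ _) ?_
      exact_mod_cast codeSize_le n (1 + 1)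
    set M := min (K - 10) (Real.log ((n : ℝ) + 1)) with hM
    set m := min K (Real.log ((n : ℝ) + 1)) with hm
    have hM0 : 0 < M := lt_min (by linarith) hL0
    have hMm : m ≤ 2 * M := by
      rcases le_total (K - 10) (Real.log ((n : ℝ) + 1)) with h4 | h4
      · rw [hM, min_eq_left h4]
        have := min_le_left K (Real.log ((n : ℝ) + 1))
        linarith
      · rw [hM, min_eq_right h4]
        have := min_le_right K (Real.log ((n : ℝ) + 1))
        linarith
    have hmn : m ≤ n := (min_le_right _ _).trans hLn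
    have hl2 := Real.log_two_lt_d9
    have h4 : 4 * Real.log (codeSize n (1 + 1)) / M * m ≤ 8 * n := by
      have h5 : 0 ≤ Real.log (codeSize n (1 + 1)) := Real.log_natCast_nonneg _
      calc 4 * Real.log (codeSize n (1 + 1)) / M * m ≤ 4 * Real.log (codeSize n (1 + 1)) / M * (2 * M) :=
            mul_le_mul_of_nonneg_left hMm (by positivity)
        _ = 8 * Real.log (codeSize n (1 + 1)) := by
            field_simp
            ring
        _ ≤ 8 * n := by
            have : (n : ℝ) * Real.log 2 ≤ n * 1 := mul_le_mul_of_nonneg_left (by linarith) (by linarith)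
            linarith
    calc (((Icc 1 n).filter fun d => K * 2 ^ n / codeSize n (d + 1) < (chi n d : ℝ)).card : ℝ) * m
        ≤ (4 * Real.log (codeSize n (1 + 1)) / M + 3) * m := mul_le_mul_of_nonneg_right h1 hm0.le
      _ = 4 * Real.log (codeSize n (1 + 1)) / M * m + 3 * m := by ring
      _ ≤ 20 * n := by linarith

end MP7d5fe8.T
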