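import Mathlib
import Pool.Agent.Work.MP_7d5fe8_co.T.Defs

set_option autoImplicit false

/-!
# T/Four (M): the inequality of Navon and Samorodnitsky

Characters `chr ξ x = (-1) ^ |x ∩ ξ|`, `chr ξ (x ∆ y) = chr ξ x * chr ξ y` (`|(x ∆ y) ∩ ξ| + 2 |x ∩ y ∩ ξ| = |x ∩ ξ| + |y ∩ ξ|`), `chr (ξ ∆ η) x = chr ξ x * chr η x`, `∑ i, chr {i} x = n - 2 |x|`. For `h : Finset (Fin n) → ℝ` put
`H x = ∑ ξ, h ξ * chr ξ x`, `A h ξ = ∑ i, h (ξ ∆ {i})`; then `∑ ξ, A h ξ * chr ξ x = (n - 2 |x|) H x`. With `S η = ∑ c ∈ C, chr η c`: for all `f`, `h`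
`∑ c ∈ C, ∑ c' ∈ C, (∑ ξ, f ξ chr ξ (c ∆ c')) * H (c ∆ c') = ∑ ξ, ∑ η, f ξ * h η * S (ξ ∆ η) ^ 2`. Take `f = A h ≥ λ h` and `f = h` (all nonnegative): with `T = ∑ c c', H (c ∆ c') ^ 2`,
`λ T ≤ ∑ c c', (n - 2 |c ∆ c'|) H (c ∆ c') ^ 2 ≤ n M H ∅ ^ 2 + (n - 2 D) (T - M H ∅ ^ 2)` (`M = |C|`, the terms with `c = c'` have `c ∆ c' = ∅`, the others `|c ∆ c'| ≥ D`), so `(λ - n + 2 D) T ≤ 2 D M H ∅ ^ 2`; as `λ - n + 2 D ≥ 1` and `T ≥ 0`:
`T ≤ 2 D M (H ∅) ^ 2`. Also `T ≥ ∑ ξ, h ξ ^ 2 * S ∅ ^ 2 = M ^ 2 ∑ h ^ 2`, and `(H ∅) ^ 2 = (∑ h) ^ 2 ≤ |B| ∑ h ^ 2` (`inner_mul_le_norm_mul_norm`, `Finset.sum_mul_sq_le_sq_mul_sq` or `sq_sum_le_card_mul_sum_sq`; `h` vanishes outside `B`). `∑ h ^ 2 > 0`.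
-/

namespace MP7d5fe8.T

open Finset

/-- the characters of the cube -/
private def chr {n : ℕ} (ξ x : Finset (Fin n)) : ℝ := ∏ i, if i ∈ ξ ∧ i ∈ x then (-1 : ℝ) else 1

variable {n : ℕ}

private theorem chr_right (ξ x y : Finset (Fin n)) : chr ξ (symmDiff x y) = chr ξ x * chr ξ y := by
  unfold chr
  rw [← prod_mul_distrib]
  refine prod_congr rfl fun i _ => ?_
  by_cases h1 : i ∈ ξ <;> by_cases h2 : i ∈ x <;> by_cases h3 : i ∈ y <;> simp [h1, h2, h3, mem_symmDiff]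

private theorem chr_left (ξ η x : Finset (Fin n)) : chr (symmDiff ξ η) x = chr ξ x * chr η x := by
  unfold chr
  rw [← prod_mul_distrib]
  refine prod_congr rfl fun i _ => ?_
  by_cases h1 : i ∈ ξ <;> by_cases h2 : i ∈ x <;> by_cases h3 : i ∈ η <;> simp [h1, h2, h3, mem_symmDiff]

private theorem chr_bot (x : Finset (Fin n)) : chr ∅ x = 1 := by
  unfold chr
  simp

private theorem chr_bot' (ξ : Finset (Fin n)) : chr ξ ∅ = 1 := by
  unfold chr
  simp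

private theorem sum_chr (x : Finset (Fin n)) : ∑ i : Fin n, chr {i} x = n - 2 * x.card := by
  have h : ∀ i : Fin n, chr {i} x = 1 - 2 * (if i ∈ x then 1 else 0) := by
    intro i
    unfold chr
    have h1 : ∀ j ∈ (univ : Finset (Fin n)), j ≠ i → (if j ∈ ({i} : Finset (Fin n)) ∧ j ∈ x then (-1 : ℝ) else 1) = 1 := by
      intro j _ hj
      rw [if_neg]
      rintro ⟨h2, -⟩
      exact hj (mem_singleton.1 h2)
    rw [prod_eq_single i h1 (fun h2 => absurd (mem_univ i) h2)]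
    by_cases h2 : i ∈ x
    · simp only [mem_singleton, true_and, h2, if_true]
      norm_num
    · simp only [mem_singleton, true_and, h2, if_false]
      norm_num
  rw [sum_congr rfl fun i _ => h i, sum_sub_distrib, ← mul_sum, ← sum_filter, sum_const, sum_const, card_univ,
    Fintype.card_fin, nsmul_eq_mul, nsmul_eq_mul, mul_one, mul_one]
  have e : (univ.filter fun i => i ∈ x) = x := by
    ext i
    simp
  rw [e]

private theorem sum_shift (e : Finset (Fin n)) (F : Finset (Fin n) → ℝ) : ∑ ξ, F (symmDiff ξ e) = ∑ ξ, F ξ := by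
  have h : Function.Involutive fun ξ : Finset (Fin n) => symmDiff ξ e := fun ξ => symmDiff_symmDiff_cancel_right e ξ
  exact Equiv.sum_comp (h.toPerm) F

private theorem adj (h : Finset (Fin n) → ℝ) (x : Finset (Fin n)) :
    ∑ ξ, (∑ i : Fin n, h (symmDiff ξ {i})) * chr ξ x = (n - 2 * x.card) * ∑ ξ, h ξ * chr ξ x := by
  have e1 : ∀ ξ : Finset (Fin n), (∑ i : Fin n, h (symmDiff ξ {i})) * chr ξ x =
      ∑ i : Fin n, h (symmDiff ξ {i}) * chr ξ x := fun ξ => sum_mul _ _ _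
  rw [sum_congr rfl fun ξ _ => e1 ξ, sum_comm, ← sum_chr, sum_mul]
  refine sum_congr rfl fun i _ => ?_
  have e2 : ∀ ξ : Finset (Fin n), h (symmDiff ξ {i}) * chr ξ x =
      (fun ζ => h ζ * chr (symmDiff ζ {i}) x) (symmDiff ξ {i}) := by
    intro ξ
    show h (symmDiff ξ {i}) * chr ξ x = h (symmDiff ξ {i}) * chr (symmDiff (symmDiff ξ {i}) {i}) x
    rw [symmDiff_symmDiff_cancel_right]
  rw [sum_congr rfl fun ξ _ => e2 ξ, sum_shift {i} (fun ζ => h ζ * chr (symmDiff ζ {i}) x), mul_sum]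
  refine sum_congr rfl fun ξ _ => ?_
  rw [chr_left]
  ring

private theorem bil (C : Finset (Finset (Fin n))) (f h : Finset (Fin n) → ℝ) :
    ∑ c ∈ C, ∑ c' ∈ C, (∑ ξ, f ξ * chr ξ (symmDiff c c')) * (∑ η, h η * chr η (symmDiff c c')) =
      ∑ ξ, ∑ η, f ξ * h η * (∑ c ∈ C, chr (symmDiff ξ η) c) ^ 2 := by
  have e1 : ∀ ξ η : Finset (Fin n), f ξ * h η * (∑ c ∈ C, chr (symmDiff ξ η) c) ^ 2 =
      ∑ c ∈ C, ∑ c' ∈ C, f ξ * chr ξ (symmDiff c c') * (h η * chr η (symmDiff c c')) := by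
    intro ξ η
    rw [pow_two, sum_mul_sum, mul_sum]
    refine sum_congr rfl fun c _ => ?_
    rw [mul_sum]
    refine sum_congr rfl fun c' _ => ?_
    rw [← chr_right, chr_left]
    ring
  rw [sum_congr rfl fun ξ _ => sum_congr rfl fun η _ => e1 ξ η]
  have e2 : ∀ c c' : Finset (Fin n), (∑ ξ, f ξ * chr ξ (symmDiff c c')) * (∑ η, h η * chr η (symmDiff c c')) =
      ∑ ξ, ∑ η, f ξ * chr ξ (symmDiff c c') * (h η * chr η (symmDiff c c')) := fun c c' => sum_mul_sum _ _ _ _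
  rw [sum_congr rfl fun c _ => sum_congr rfl fun c' _ => e2 c c']
  rw [sum_congr rfl fun c _ => sum_comm]
  rw [sum_comm]
  refine sum_congr rfl fun ξ _ => ?_
  rw [sum_congr rfl fun c _ => sum_comm]
  rw [sum_comm]

theorem four {n D : ℕ} {C B : Finset (Finset (Fin n))} (hC : IsCode n D C) {h : Finset (Fin n) → ℝ} (h0 : ∀ ξ, 0 ≤ h ξ)
    (hB : ∀ ξ, ξ ∉ B → h ξ = 0) (hne : ∃ ξ, h ξ ≠ 0) {l : ℝ} (hl : ∀ ξ, l * h ξ ≤ ∑ i, h (symmDiff ξ {i}))
    (hD : (n : ℝ) + 1 - 2 * D ≤ l) : C.card ≤ 2 * D * B.card := by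
  rcases Nat.eq_zero_or_pos C.card with hM0 | hM0
  · rw [hM0]
    exact Nat.zero_le _
  set M : ℝ := ((C.card : ℕ) : ℝ) with hM
  have hMpos : 0 < M := by
    rw [hM]
    exact_mod_cast hM0
  set H : Finset (Fin n) → ℝ := fun x => ∑ ξ, h ξ * chr ξ x with hH
  set T := ∑ c ∈ C, ∑ c' ∈ C, H (symmDiff c c') * H (symmDiff c c') with hT
  have hT1 : T = ∑ ξ, ∑ η, h ξ * h η * (∑ c ∈ C, chr (symmDiff ξ η) c) ^ 2 := bil C h h
  have hG : ∑ c ∈ C, ∑ c' ∈ C, ((n - 2 * (symmDiff c c').card) * H (symmDiff c c')) * H (symmDiff c c') =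
      ∑ ξ, ∑ η, (∑ i, h (symmDiff ξ {i})) * h η * (∑ c ∈ C, chr (symmDiff ξ η) c) ^ 2 := by
    rw [← bil C (fun ξ => ∑ i, h (symmDiff ξ {i})) h]
    refine sum_congr rfl fun c _ => sum_congr rfl fun c' _ => ?_
    rw [adj]
  have h1 : l * T ≤ ∑ c ∈ C, ∑ c' ∈ C, ((n - 2 * (symmDiff c c').card) * H (symmDiff c c')) * H (symmDiff c c') := by
    rw [hG, hT1, mul_sum]
    refine sum_le_sum fun ξ _ => ?_
    rw [mul_sum]
    refine sum_le_sum fun η _ => ?_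
    have h2 : 0 ≤ h η * (∑ c ∈ C, chr (symmDiff ξ η) c) ^ 2 := mul_nonneg (h0 η) (sq_nonneg _)
    have h3 := mul_le_mul_of_nonneg_right (hl ξ) h2
    linarith
  have h2 : ∑ c ∈ C, ∑ c' ∈ C, ((n - 2 * (symmDiff c c').card) * H (symmDiff c c')) * H (symmDiff c c') ≤
      (n - 2 * D) * T + 2 * D * (M * (H ∅ * H ∅)) := by
    have e1 : ∀ c ∈ C, ∀ c' ∈ C, ((n - 2 * (symmDiff c c').card) * H (symmDiff c c')) * H (symmDiff c c') ≤
        (n - 2 * D) * (H (symmDiff c c') * H (symmDiff c c')) + (if c = c' then 2 * D * (H ∅ * H ∅) else 0) := by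
      intro c hc c' hc'
      by_cases hcc : c = c'
      · subst hcc
        rw [if_pos rfl, symmDiff_self]
        have e2 : (⊥ : Finset (Fin n)) = ∅ := rfl
        rw [e2, card_empty]
        push_cast
        linarith
      · rw [if_neg hcc, add_zero, mul_assoc]
        refine mul_le_mul_of_nonneg_right ?_ (mul_self_nonneg _)
        have h3 := hC c hc c' hc' hcc
        have h4 : (D : ℝ) ≤ (symmDiff c c').card := by exact_mod_cast h3
        linarith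
    refine (sum_le_sum fun c hc => sum_le_sum fun c' hc' => e1 c hc c' hc').trans (le_of_eq ?_)
    have e3 : ∀ c ∈ C, ∑ c' ∈ C, ((n - 2 * D) * (H (symmDiff c c') * H (symmDiff c c')) +
        (if c = c' then 2 * D * (H ∅ * H ∅) else 0)) =
        (n - 2 * D) * ∑ c' ∈ C, (H (symmDiff c c') * H (symmDiff c c')) + 2 * D * (H ∅ * H ∅) := by
      intro c hc
      rw [sum_add_distrib, ← mul_sum, sum_ite_eq, if_pos hc]
    rw [sum_congr rfl e3, sum_add_distrib, ← mul_sum, sum_const, nsmul_eq_mul]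
    ring
  have hT0 : 0 ≤ T := sum_nonneg fun c _ => sum_nonneg fun c' _ => mul_self_nonneg _
  have h3 : T ≤ 2 * D * (M * (H ∅ * H ∅)) := by
    have h4 : (l - n + 2 * D) * T ≤ 2 * D * (M * (H ∅ * H ∅)) := by
      have := h1.trans h2
      linarith
    have h5 : 1 * T ≤ (l - n + 2 * D) * T := mul_le_mul_of_nonneg_right (by linarith) hT0
    linarith
  set Q := ∑ ξ, h ξ ^ 2 with hQ
  have hQ0 : 0 < Q := by
    obtain ⟨ξ, hξ⟩ := hne
    exact sum_pos' (fun _ _ => sq_nonneg _) ⟨ξ, mem_univ _, by positivity⟩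
  have h4 : M ^ 2 * Q ≤ T := by
    rw [hT1, hQ, mul_sum]
    refine sum_le_sum fun ξ _ => ?_
    have h5 := single_le_sum (s := univ) (f := fun η => h ξ * h η * (∑ c ∈ C, chr (symmDiff ξ η) c) ^ 2)
      (fun η _ => mul_nonneg (mul_nonneg (h0 ξ) (h0 η)) (sq_nonneg _)) (mem_univ ξ)
    refine le_trans (le_of_eq ?_) h5
    show M ^ 2 * h ξ ^ 2 = h ξ * h ξ * (∑ c ∈ C, chr (symmDiff ξ ξ) c) ^ 2
    rw [symmDiff_self]
    have e2 : (⊥ : Finset (Fin n)) = ∅ := rfl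
    rw [e2, sum_congr rfl fun c _ => chr_bot c, sum_const, nsmul_eq_mul, mul_one]
    ring
  have h5 : H ∅ * H ∅ ≤ B.card * Q := by
    have e1 : H ∅ = ∑ ξ ∈ B, h ξ := by
      show ∑ ξ, h ξ * chr ξ ∅ = _
      rw [sum_congr rfl fun ξ _ => by rw [chr_bot', mul_one]]
      exact (sum_subset (subset_univ B) fun ξ _ hξ => hB ξ hξ).symm
    rw [e1, ← pow_two]
    refine (sq_sum_le_card_mul_sum_sq (s := B) (f := h)).trans ?_
    refine mul_le_mul_of_nonneg_left ?_ (by positivity)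
    exact sum_le_sum_of_subset_of_nonneg (subset_univ B) fun _ _ _ => sq_nonneg _
  have h6 : M ^ 2 * Q ≤ 2 * D * (M * (B.card * Q)) := by
    refine (h4.trans h3).trans ?_
    refine mul_le_mul_of_nonneg_left ?_ (by positivity)
    exact mul_le_mul_of_nonneg_left h5 hMpos.le
  have h7 : M ≤ 2 * D * B.card := by
    have h8 : (M * Q) * M ≤ (M * Q) * (2 * D * B.card) := by
      calc (M * Q) * M = M ^ 2 * Q := by ring
        _ ≤ 2 * D * (M * (B.card * Q)) := h6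
        _ = (M * Q) * (2 * D * B.card) := by ring
    exact le_of_mul_le_mul_left h8 (by positivity)
  rw [hM] at h7
  exact_mod_cast h7

end MP7d5fe8.T
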