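import Mathlib
import Pool.Agent.Work.MP_7d5fe8_co.T.Defs

set_option autoImplicit false

/-!
# T/VolB (S-M): bounds for `vol`

`vol_le_exp`: `1 ≤ k ≤ n`: for `t = k / n ∈ (0, 1]`: `t ^ k ∑ i ≤ k, C(n, i) ≤ ∑ i ≤ k, C(n, i) t ^ i ≤ (1 + t) ^ n ≤ exp (t n) = exp k`, so `vol n k ≤ exp k (n / k) ^ k`.
-/

namespace MP7d5fe8.T

open Finset

theorem vol_mono (n : ℕ) {r s : ℕ} (h : r ≤ s) : vol n r ≤ vol n s := by
  unfold vol
  exact sum_le_sum_of_subset (range_subset_range.2 (by omega))

theorem vol_eq_two_pow {n r : ℕ} (h : n ≤ r) : vol n r = 2 ^ n := by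
  unfold vol
  rw [← Nat.sum_range_choose]
  symm
  refine sum_subset (range_subset_range.2 (by omega)) fun i _ hi => ?_
  rw [mem_range, not_lt] at hi
  exact Nat.choose_eq_zero_of_lt (by omega)

theorem vol_le_two_pow (n r : ℕ) : vol n r ≤ 2 ^ n := by
  rw [← vol_eq_two_pow (le_max_right r n)]
  exact vol_mono n (le_max_left r n)

theorem vol_le_exp {n k : ℕ} (hk : 1 ≤ k) (hkn : k ≤ n) :
    (vol n k : ℝ) ≤ Real.exp (k * Real.log (Real.exp 1 * n / k)) := by
  have hk0 : (0 : ℝ) < k := by exact_mod_cast hk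
  have hn0 : (0 : ℝ) < n := by exact_mod_cast hk.trans hkn
  have ht0 : (0 : ℝ) < k / n := by positivity
  have ht1 : (k : ℝ) / n ≤ 1 := by
    rw [div_le_one hn0]
    exact_mod_cast hkn
  have h1 : (vol n k : ℝ) * (k / n) ^ k ≤ Real.exp k := by
    calc (vol n k : ℝ) * (k / n) ^ k = ∑ i ∈ range (k + 1), (n.choose i : ℝ) * (k / n) ^ k := by
          unfold vol
          push_cast
          rw [sum_mul]
      _ ≤ ∑ i ∈ range (k + 1), (n.choose i : ℝ) * (k / n) ^ i := by
          refine sum_le_sum fun i hi => ?_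
          rw [mem_range] at hi
          exact mul_le_mul_of_nonneg_left (pow_le_pow_of_le_one ht0.le ht1 (by omega)) (by positivity)
      _ ≤ ∑ i ∈ range (n + 1), (n.choose i : ℝ) * (k / n) ^ i :=
          sum_le_sum_of_subset_of_nonneg (range_subset_range.2 (by omega)) fun _ _ _ => by positivity
      _ = ((k : ℝ) / n + 1) ^ n := by
          rw [add_pow]
          refine sum_congr rfl fun i _ => ?_
          rw [one_pow, mul_one, mul_comm]
      _ ≤ Real.exp (k / n) ^ n := pow_le_pow_left₀ (by positivity) (Real.add_one_le_exp _) n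
      _ = Real.exp k := by
          rw [← Real.exp_nat_mul]
          congr 1
          field_simp
  have h2 : Real.exp (k * Real.log (Real.exp 1 * n / k)) * (k / n) ^ k = Real.exp k := by
    rw [Real.exp_nat_mul, Real.exp_log (by positivity), ← mul_pow]
    have e : Real.exp 1 * n / k * (k / n) = Real.exp 1 := by
      field_simp
    rw [e, ← Real.exp_nat_mul, mul_one]
  exact le_of_mul_le_mul_right (h1.trans (le_of_eq h2.symm)) (by positivity)

end MP7d5fe8.T
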