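import Mathlib
import Pool.Agent.Work.MP_7d5fe8_co.T.Four
import Pool.Agent.Work.MP_7d5fe8_co.T.Ball
import Pool.Agent.Work.MP_7d5fe8_co.T.VolB

set_option autoImplicit false

/-!
# T/Mid (M): codes with minimum distance close to `n / 2`

`ns`: if `n ≤ r` then `codeSize ≤ 2 ^ n = vol n r` and `1 ≤ 2 D`. If `1 ≤ r < n`: `ρ = √(r / n) ≤ 1`, `h ξ = ρ ^ |ξ|` for `|ξ| ≤ r` and `0` otherwise, `B = ball n r`, `l = √(r n)`. For `|ξ| = k`, `∑ i, h (ξ ∆ {i})`: the `k` elements `i ∈ ξ` give
`|ξ ∆ {i}| = k - 1`, the `n - k` others `k + 1`. For `k < r`: the sum is `ρ ^ k (k / ρ + (n - k) ρ) ≥ ρ ^ k n ρ = ρ ^ k √(r n)`; for `k = r` it is `r ρ ^ (r - 1) = ρ ^ r r / ρ = ρ ^ r √(r n)`; for `k > r` it is `≥ 0 = l h`. Apply `four` to a code with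
`codeSize n D` words. `mid`: `r = ⌈(2 y + 1) ^ 2 / n⌉ ≥ 1`: `n + 1 - 2 D ≤ 2 y + 1 ≤ √(r n)`. If `r = 1`: `codeSize ≤ 2 D (n + 1)` and (if `D ≤ n`) `log ≤ 2 log (n + 1) + log 2`; if `n < D` then `codeSize = 1`. If `2 ≤ r ≤ n`: `(2 y + 1) ^ 2 > n`, so
`r ≤ 2 (2 y + 1) ^ 2 / n ≤ 18 y ^ 2 / n`, `r ≥ 4 y ^ 2 / n`, `log (e n / r) ≤ log (e n ^ 2 / (4 y ^ 2)) ≤ 2 log (e n / y)`, `log (vol n r) ≤ 36 (y ^ 2 / n) log (e n / y)`. If `r > n`: `(2 y + 1) ^ 2 > n ^ 2`, so `3 y > n`... `y ^ 2 / n ≥ n / 9`, and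
`log (2 ^ n) ≤ n ≤ 9 (y ^ 2 / n)`, `log (e n / y) ≥ 1` because `y ≤ n`.
-/

namespace MP7d5fe8.T

open Finset

private theorem card_shift_mem {n : ℕ} {ξ : Finset (Fin n)} {i : Fin n} (hi : i ∈ ξ) :
    (symmDiff ξ {i}).card + 1 = ξ.card := by
  have h : symmDiff ξ {i} = ξ.erase i := by
    ext j
    rw [mem_symmDiff, mem_singleton, mem_erase]
    constructor
    · rintro (⟨h1, h2⟩ | ⟨h1, h2⟩)
      · exact ⟨h2, h1⟩
      · subst h1
        exact absurd hi h2
    · rintro ⟨h1, h2⟩
      exact Or.inl ⟨h2, h1⟩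
  rw [h]
  exact card_erase_add_one hi

private theorem card_shift_not {n : ℕ} {ξ : Finset (Fin n)} {i : Fin n} (hi : i ∉ ξ) :
    (symmDiff ξ {i}).card = ξ.card + 1 := by
  have h : symmDiff ξ {i} = insert i ξ := by
    ext j
    rw [mem_symmDiff, mem_singleton, mem_insert]
    constructor
    · rintro (⟨h1, h2⟩ | ⟨h1, h2⟩)
      · exact Or.inr h1
      · exact Or.inl h1
    · rintro (h1 | h1)
      · subst h1
        exact Or.inr ⟨rfl, hi⟩
      · refine Or.inl ⟨h1, fun h2 => ?_⟩
        subst h2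
        exact hi h1
  rw [h, card_insert_of_notMem hi]

theorem ns {n D r : ℕ} (hD : 1 ≤ D) (hr : 1 ≤ r) (h : (n : ℝ) + 1 - 2 * D ≤ Real.sqrt (r * n)) :
    codeSize n D ≤ 2 * D * vol n r := by
  by_cases hrn : n ≤ r
  · rw [vol_eq_two_pow hrn]
    have h1 := codeSize_le n D
    have h2 : 1 * 2 ^ n ≤ 2 * D * 2 ^ n := Nat.mul_le_mul_right _ (by omega)
    omega
  rw [not_le] at hrn
  have hr0 : (0 : ℝ) < r := by exact_mod_cast hr
  have hn0 : (0 : ℝ) < n := by
    have : 0 < n := by omega
    exact_mod_cast this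
  have hrn' : (r : ℝ) < n := by exact_mod_cast hrn
  obtain ⟨C, hC, hc⟩ := exists_code n D
  rw [← hc, ← card_ball]
  set ρ := Real.sqrt ((r : ℝ) / n) with hρ
  have hρ0 : 0 < ρ := Real.sqrt_pos.2 (by positivity)
  have hρ1 : ρ ≤ 1 := by
    rw [hρ, Real.sqrt_le_one]
    rw [div_le_one hn0]
    exact hrn'.le
  have hρ2 : ρ ^ 2 = r / n := Real.sq_sqrt (by positivity)
  have hl : Real.sqrt (r * n) = n * ρ := by
    rw [hρ]
    have e : (r : ℝ) * n = n ^ 2 * (r / n) := by
      field_simp
    rw [e, Real.sqrt_mul (by positivity), Real.sqrt_sq hn0.le]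
  classical
  refine four (h := fun ξ => if ξ.card ≤ r then ρ ^ ξ.card else 0) (l := n * ρ) hC ?_ ?_ ?_ ?_ ?_
  · intro ξ
    split_ifs
    · positivity
    · exact le_rfl
  · intro ξ hξ
    rw [if_neg]
    intro h1
    exact hξ (mem_filter.2 ⟨mem_univ _, h1⟩)
  · refine ⟨∅, ?_⟩
    rw [card_empty, if_pos (Nat.zero_le _), pow_zero]
    exact one_ne_zero
  · intro ξ
    by_cases hξ : ξ.card ≤ r
    · rw [if_pos hξ]
      have hsplit : ∑ i : Fin n, (if (symmDiff ξ {i}).card ≤ r then ρ ^ (symmDiff ξ {i}).card else 0) =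
          ∑ i ∈ ξ, (if (symmDiff ξ {i}).card ≤ r then ρ ^ (symmDiff ξ {i}).card else 0) +
            ∑ i ∈ univ \ ξ, (if (symmDiff ξ {i}).card ≤ r then ρ ^ (symmDiff ξ {i}).card else 0) := by
        rw [add_comm]
        exact (sum_sdiff (subset_univ ξ)).symm
      have h1 : ∑ i ∈ ξ, (if (symmDiff ξ {i}).card ≤ r then ρ ^ (symmDiff ξ {i}).card else 0) =
          ξ.card * ρ ^ (ξ.card - 1) := by
        rw [← nsmul_eq_mul, ← sum_const]
        refine sum_congr rfl fun i hi => ?_
        have h2 := card_shift_mem hi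
        have h3 : (symmDiff ξ {i}).card = ξ.card - 1 := by omega
        rw [h3, if_pos (by omega)]
      have hcardn : ξ.card ≤ n := by
        have := card_le_univ ξ
        rwa [Fintype.card_fin] at this
      have hcomp : ((univ \ ξ).card : ℝ) = n - ξ.card := by
        rw [card_sdiff_of_subset (subset_univ ξ), card_univ, Fintype.card_fin, Nat.cast_sub hcardn]
      rw [hsplit, h1]
      rcases Nat.eq_or_lt_of_le hξ with h2 | h2
      · -- card = r
        have h3 : 0 ≤ ∑ i ∈ univ \ ξ, (if (symmDiff ξ {i}).card ≤ r then ρ ^ (symmDiff ξ {i}).card else 0) :=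
          sum_nonneg fun i _ => by
            split_ifs
            · positivity
            · exact le_rfl
        have h4 : n * ρ * ρ ^ ξ.card = ξ.card * ρ ^ (ξ.card - 1) := by
          rw [h2]
          obtain ⟨k, rfl⟩ := Nat.exists_eq_add_of_le hr
          have e : 1 + k - 1 = k := by omega
          rw [e]
          have e2 : n * ρ * ρ ^ (1 + k) = n * ρ ^ 2 * ρ ^ k := by ring
          rw [e2, hρ2]
          field_simp
        linarith
      · have h3 : ∑ i ∈ univ \ ξ, (if (symmDiff ξ {i}).card ≤ r then ρ ^ (symmDiff ξ {i}).card else 0) =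
            (n - ξ.card) * ρ ^ (ξ.card + 1) := by
          rw [← hcomp, ← nsmul_eq_mul, ← sum_const]
          refine sum_congr rfl fun i hi => ?_
          rw [card_shift_not (mem_sdiff.1 hi).2, if_pos (by omega)]
        rw [h3]
        rcases Nat.eq_zero_or_pos ξ.card with h4 | h4
        · rw [h4]
          simp
        · obtain ⟨k, hk⟩ := Nat.exists_eq_add_of_le h4
          rw [hk]
          have e : 0 + 1 + k - 1 = k := by omega
          rw [e]
          push_cast
          have h5 : ρ ^ 2 ≤ 1 := by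
            rw [hρ2, div_le_one hn0]
            exact hrn'.le
          have e2 : (n : ℝ) * ρ * ρ ^ (1 + k) = n * ρ ^ 2 * ρ ^ k := by ring
          try simp only [zero_add]
          have e3 : ((1 : ℝ) + k) * ρ ^ k + (n - (1 + k)) * ρ ^ (1 + k + 1) =
              ((1 + k) * (1 - ρ ^ 2) + n * ρ ^ 2) * ρ ^ k := by ring
          rw [e2, e3]
          refine mul_le_mul_of_nonneg_right ?_ (by positivity)
          have : 0 ≤ (1 + (k : ℝ)) * (1 - ρ ^ 2) := mul_nonneg (by positivity) (by linarith)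
          linarith
    · rw [if_neg hξ, mul_zero]
      exact sum_nonneg fun i _ => by
        split_ifs
        · positivity
        · exact le_rfl
  · rw [← hl]
    exact h

theorem mid {n D y : ℕ} (hn : 1 ≤ n) (hD : 1 ≤ D) (hy : 1 ≤ y) (hyn : y ≤ n) (h : n ≤ 2 * D + 2 * y) :
    Real.log (codeSize n D) ≤ 40 * (Real.log (n + 1) + (y : ℝ) ^ 2 / n * Real.log (Real.exp 1 * n / y)) := by
  have hn1 : (1 : ℝ) ≤ n := by exact_mod_cast hn
  have hn0 : (0 : ℝ) < n := by linarith
  have hy1 : (1 : ℝ) ≤ y := by exact_mod_cast hy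
  have hyn' : (y : ℝ) ≤ n := by exact_mod_cast hyn
  have hD1 : (1 : ℝ) ≤ D := by exact_mod_cast hD
  have hcs0 : (0 : ℝ) < codeSize n D := by
    have := codeSize_pos n D
    exact_mod_cast this
  have hL : 0 < Real.log ((n : ℝ) + 1) := Real.log_pos (by linarith)
  have hly : 1 ≤ Real.log (Real.exp 1 * n / y) := by
    rw [mul_div_assoc, Real.log_mul (Real.exp_pos 1).ne' (by positivity), Real.log_exp]
    have : 0 ≤ Real.log ((n : ℝ) / y) := Real.log_nonneg (by rw [one_le_div (by linarith)]; exact hyn')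
    linarith
  have hR : 0 ≤ (y : ℝ) ^ 2 / n * Real.log (Real.exp 1 * n / y) := by positivity
  by_cases hDn : n < D
  · rw [codeSize_top hDn, Nat.cast_one, Real.log_one]
    positivity
  rw [not_lt] at hDn
  have hDn' : (D : ℝ) ≤ n := by exact_mod_cast hDn
  set r := ⌈(2 * (y : ℝ) + 1) ^ 2 / n⌉₊ with hrd
  have hr1 : 1 ≤ r := Nat.one_le_iff_ne_zero.2 (Nat.ceil_pos.2 (by positivity)).ne'
  have hrle := Nat.le_ceil ((2 * (y : ℝ) + 1) ^ 2 / n)
  rw [← hrd] at hrle
  have hcond : (n : ℝ) + 1 - 2 * D ≤ Real.sqrt (r * n) := by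
    have h1 : (n : ℝ) + 1 - 2 * D ≤ 2 * y + 1 := by
      have : (n : ℝ) ≤ 2 * D + 2 * y := by exact_mod_cast h
      linarith
    refine h1.trans (Real.le_sqrt_of_sq_le ?_)
    rw [div_le_iff₀ hn0] at hrle
    exact hrle
  have hns := ns hD hr1 hcond
  have hvol0 : (0 : ℝ) < vol n r := by
    have : 0 < vol n r := by
      rw [← card_ball]
      exact card_pos.2 ⟨∅, mem_filter.2 ⟨mem_univ _, by simp⟩⟩
    exact_mod_cast this
  have hlog : Real.log (codeSize n D) ≤ Real.log (2 * D) + Real.log (vol n r) := by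
    rw [← Real.log_mul (by positivity) hvol0.ne']
    refine Real.log_le_log hcs0 ?_
    exact_mod_cast hns
  have h2D : Real.log (2 * D) ≤ 2 * Real.log ((n : ℝ) + 1) := by
    rw [← Real.log_rpow (by linarith)]
    refine Real.log_le_log (by linarith) ?_
    rw [show (2 : ℝ) = ((2 : ℕ) : ℝ) by norm_num, Real.rpow_natCast]
    push_cast
    nlinarith
  have hvl : Real.log (vol n r) ≤ Real.log ((n : ℝ) + 1) + 36 * ((y : ℝ) ^ 2 / n * Real.log (Real.exp 1 * n / y)) := by
    rcases Nat.eq_or_lt_of_le hr1 with h1 | h1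
    · rw [← h1]
      have hv : (vol n 1 : ℝ) = n + 1 := by
        unfold vol
        rw [sum_range_succ, sum_range_one, Nat.choose_zero_right, Nat.choose_one_right]
        push_cast
        ring
      rw [hv]
      linarith
    · by_cases hrn : r ≤ n
      · have h2 := vol_le_exp hr1 hrn
        have h3 : Real.log (vol n r) ≤ r * Real.log (Real.exp 1 * n / r) := by
          rw [Real.log_le_iff_le_exp hvol0]
          exact h2
        have hr2 : (2 : ℝ) ≤ r := by exact_mod_cast h1
        have hrn' : (r : ℝ) ≤ n := by exact_mod_cast hrn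
        have h4 : (r : ℝ) ≤ 18 * ((y : ℝ) ^ 2 / n) := by
          have h5 := Nat.ceil_lt_add_one (show 0 ≤ (2 * (y : ℝ) + 1) ^ 2 / n by positivity)
          rw [← hrd] at h5
          have h6 : (r : ℝ) ≤ 2 * ((2 * (y : ℝ) + 1) ^ 2 / n) := by linarith
          refine h6.trans ?_
          rw [← mul_div_assoc, ← mul_div_assoc]
          refine div_le_div_of_nonneg_right ?_ hn0.le
          nlinarith
        have h5 : Real.log (Real.exp 1 * n / r) ≤ 2 * Real.log (Real.exp 1 * n / y) := by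
          have h6 : Real.exp 1 * n / r ≤ (Real.exp 1 * n / y) ^ 2 := by
            have h7 : (y : ℝ) ^ 2 / n ≤ r := by
              refine le_trans ?_ hrle
              refine div_le_div_of_nonneg_right ?_ hn0.le
              nlinarith
            have h8 : Real.exp 1 * n / r ≤ Real.exp 1 * n / ((y : ℝ) ^ 2 / n) :=
              div_le_div_of_nonneg_left (by positivity) (by positivity) h7
            refine h8.trans ?_
            have h9 : (Real.exp 1 * n / y) ^ 2 = Real.exp 1 * (Real.exp 1 * n / ((y : ℝ) ^ 2 / n)) := by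
              field_simp
            rw [h9]
            have h10 : (1 : ℝ) ≤ Real.exp 1 := Real.one_le_exp (by norm_num)
            have h11 : 0 ≤ Real.exp 1 * n / ((y : ℝ) ^ 2 / n) := by positivity
            nlinarith
          calc Real.log (Real.exp 1 * n / r) ≤ Real.log ((Real.exp 1 * n / y) ^ 2) :=
                Real.log_le_log (by positivity) h6
            _ = 2 * Real.log (Real.exp 1 * n / y) := by
                rw [Real.log_pow]
                norm_num
        have h6 : 0 ≤ Real.log (Real.exp 1 * n / r) := by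
          refine Real.log_nonneg ?_
          rw [one_le_div (by linarith)]
          have h10 : (1 : ℝ) ≤ Real.exp 1 := Real.one_le_exp (by norm_num)
          nlinarith
        have h7 : r * Real.log (Real.exp 1 * n / r) ≤ 18 * ((y : ℝ) ^ 2 / n) * (2 * Real.log (Real.exp 1 * n / y)) :=
          mul_le_mul h4 h5 h6 (by positivity)
        linarith
      · rw [not_le] at hrn
        have h2 : (n : ℝ) < (2 * (y : ℝ) + 1) ^ 2 / n := by
          by_contra h3
          have h4 : r ≤ n := Nat.ceil_le.2 (not_lt.1 h3)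
          omega
        rw [lt_div_iff₀ hn0] at h2
        have h3 : (n : ℝ) < 2 * y + 1 := by nlinarith
        have h4 : (n : ℝ) ≤ 3 * y := by linarith
        have h5 : (n : ℝ) / 9 ≤ (y : ℝ) ^ 2 / n := by
          rw [div_le_div_iff₀ (by norm_num) hn0]
          nlinarith
        have h6 : Real.log (vol n r) ≤ n := by
          rw [vol_eq_two_pow (by omega)]
          push_cast
          rw [Real.log_pow]
          have := Real.log_two_lt_d9
          nlinarith
        have h7 : (y : ℝ) ^ 2 / n ≤ (y : ℝ) ^ 2 / n * Real.log (Real.exp 1 * n / y) := by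
          have : 0 ≤ (y : ℝ) ^ 2 / n := by positivity
          nlinarith
        linarith
  linarith

end MP7d5fe8.T
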