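import Mathlib
import Pool.Agent.Work.MP_7d5fe8_co.T.Mid
import Pool.Agent.Work.MP_7d5fe8_co.T.Ineq
import Pool.Agent.Work.MP_7d5fe8_co.T.Tele

set_option autoImplicit false

/-!
# T/Near (M): `d` close to `n / 2` or larger

`near_one`: `N = 2 ^ n`, `A0 = codeSize n (d + 1)`, `A1 = codeSize n (d + 5)`. `ineq_eps` with `ε / 4` (`10 / (ε / 4) ^ 2 = 160 / ε ^ 2`): `chi ≤ (1 + ε / 4) N / A1 + 1 ≤ (1 + ε / 4) ^ 2 N / A0 + 1`, `(1 + ε / 4) ^ 2 ≤ 1 + 9 ε / 16`,
and `1 ≤ (7 ε / 16) N / A0` because `A0 (n + 1) ≤ N` (`pack` with `r = 1`, `2 < d + 1`; `vol n 1 = n + 1`) and `n + 1 ≥ 160 / ε ^ 2 ≥ 16 / (7 ε)`.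
`near`: if `n + 1 < 160 / ε ^ 2` the count is at most `n + 1`. Otherwise a counted `d` is `≤ 1` (two values) or `log (A0 / A1) > log (1 + ε / 4) ≥ ε / 8` (`near_one`), `count_code` with `M = ε / 8`, `a` = the least `d` with
`n ≤ 2 d + 2 y` (`a = (n + 1) / 2 - y` in natural numbers; the counted set is inside `Icc a n`), `b = n`: at most `4 log (codeSize n (a + 1)) / (ε / 8)`, `mid` with `D = a + 1`. Constants: `2 + 32 * 40 / ε * (..) + 160 / ε ^ 2`, `2 ≤ 2 / ε ^ 2`.
-/

namespace MP7d5fe8.T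

open Finset

private theorem cs_pos (n D : ℕ) : (0 : ℝ) < codeSize n D := by
  have := codeSize_pos n D
  exact_mod_cast this

theorem near_one {n d : ℕ} {ε : ℝ} (hε : 0 < ε) (hε1 : ε ≤ 1) (hn : 160 / ε ^ 2 ≤ n + 1) (hd : 2 ≤ d)
    (h : (codeSize n (d + 1) : ℝ) ≤ (1 + ε / 4) * codeSize n (d + 5)) :
    (chi n d : ℝ) ≤ (1 + ε) * 2 ^ n / codeSize n (d + 1) := by
  have hA0 := cs_pos n (d + 1)
  have hA1 := cs_pos n (d + 5)
  have hN : (0 : ℝ) < 2 ^ n := by positivity
  have h1 := ineq_eps (n := n) (d := d) (ε := ε / 4) (by positivity) (by linarith) (by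
    have e : 10 / (ε / 4) ^ 2 = 160 / ε ^ 2 := by
      field_simp
      norm_num
    rw [e]
    exact hn)
  have h2 : (1 + ε / 4) * 2 ^ n / (codeSize n (d + 5) : ℝ) ≤ (1 + ε / 4) ^ 2 * (2 ^ n / codeSize n (d + 1)) := by
    rw [← mul_div_assoc, div_le_div_iff₀ hA1 hA0]
    have h3 := mul_le_mul_of_nonneg_left h (show 0 ≤ (1 + ε / 4) * 2 ^ n by positivity)
    linarith
  have h3 : (n : ℝ) + 1 ≤ 2 ^ n / codeSize n (d + 1) := by
    have h4 := pack (n := n) (D := d + 1) (r := 1) (by omega)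
    have hv : vol n 1 = n + 1 := by
      unfold vol
      rw [sum_range_succ, sum_range_one, Nat.choose_zero_right, Nat.choose_one_right]
      omega
    rw [hv] at h4
    rw [le_div_iff₀ hA0]
    have h5 : (codeSize n (d + 1) : ℝ) * (n + 1) ≤ 2 ^ n := by exact_mod_cast h4
    linarith
  have h4 : 1 ≤ 7 * ε / 16 * (2 ^ n / codeSize n (d + 1)) := by
    have h5 : 160 / ε ^ 2 ≤ 2 ^ n / codeSize n (d + 1) := hn.trans h3
    have h6 := mul_le_mul_of_nonneg_left h5 (show 0 ≤ 7 * ε / 16 by positivity)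
    refine le_trans ?_ h6
    have e : 7 * ε / 16 * (160 / ε ^ 2) = 70 / ε := by
      field_simp
      norm_num
    rw [e, one_le_div hε]
    linarith
  have h5 : (1 + ε / 4) ^ 2 * (2 ^ n / (codeSize n (d + 1) : ℝ)) ≤ (1 + 9 * ε / 16) * (2 ^ n / codeSize n (d + 1)) := by
    refine mul_le_mul_of_nonneg_right ?_ (by positivity)
    nlinarith
  have e : (1 + ε) * 2 ^ n / (codeSize n (d + 1) : ℝ) =
      (1 + 9 * ε / 16) * (2 ^ n / codeSize n (d + 1)) + 7 * ε / 16 * (2 ^ n / codeSize n (d + 1)) := by ring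
  rw [e]
  linarith

open Classical in
theorem near {n y : ℕ} (hn : 1 ≤ n) (hy : 1 ≤ y) (hyn : y ≤ n) {ε : ℝ} (hε : 0 < ε) (hε1 : ε ≤ 1) :
    (((Icc 1 n).filter fun d => n ≤ 2 * d + 2 * y ∧ (1 + ε) * 2 ^ n / codeSize n (d + 1) < (chi n d : ℝ)).card : ℝ) ≤
      1280 / ε * (Real.log (n + 1) + (y : ℝ) ^ 2 / n * Real.log (Real.exp 1 * n / y)) + 162 / ε ^ 2 := by
  have hn1 : (1 : ℝ) ≤ n := by exact_mod_cast hn
  have hy1 : (1 : ℝ) ≤ y := by exact_mod_cast hy
  have hyn' : (y : ℝ) ≤ n := by exact_mod_cast hyn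
  have hL : 0 < Real.log ((n : ℝ) + 1) := Real.log_pos (by linarith)
  have hly : 0 ≤ Real.log (Real.exp 1 * n / y) := by
    refine Real.log_nonneg ?_
    rw [one_le_div (by linarith)]
    have : (1 : ℝ) ≤ Real.exp 1 := Real.one_le_exp (by norm_num)
    nlinarith
  have hR : 0 ≤ 1280 / ε * (Real.log (n + 1) + (y : ℝ) ^ 2 / n * Real.log (Real.exp 1 * n / y)) := by positivity
  by_cases hbig : 160 / ε ^ 2 ≤ (n : ℝ) + 1
  · set a := max 1 ((n + 1) / 2 - y) with ha
    have ha1 : 1 ≤ a := le_max_left _ _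
    have haD : n ≤ 2 * (a + 1) + 2 * y := by
      have := le_max_right 1 ((n + 1) / 2 - y)
      omega
    have hab : a ≤ n + 1 := max_le (by omega) (by omega)
    have hM : 0 < ε / 8 := by positivity
    have h1 := count_code (n := n) hab hM
    have h2 : ((Icc 1 n).filter fun d => n ≤ 2 * d + 2 * y ∧ (1 + ε) * 2 ^ n / codeSize n (d + 1) < (chi n d : ℝ)) ⊆
        ((Icc a n).filter fun d => ε / 8 < Real.log (codeSize n (d + 1) / codeSize n (d + 5))) ∪ {1} := by
      intro d hd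
      rw [mem_filter, mem_Icc] at hd
      rw [mem_union, mem_filter, mem_singleton, mem_Icc]
      by_cases hd2 : 2 ≤ d
      · left
        refine ⟨⟨max_le hd.1.1 (by omega), hd.1.2⟩, ?_⟩
        have hA0 := cs_pos n (d + 1)
        have hA1 := cs_pos n (d + 5)
        have h3 : (1 + ε / 4) * (codeSize n (d + 5) : ℝ) < codeSize n (d + 1) := by
          by_contra hlt
          have h4 := near_one hε hε1 hbig hd2 (not_lt.1 hlt)
          linarith [hd.2.2]
        have h4 : 1 + ε / 4 < (codeSize n (d + 1) : ℝ) / codeSize n (d + 5) := by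
          rw [lt_div_iff₀ hA1]
          exact h3
        have h5 : Real.log (1 + ε / 4) < Real.log ((codeSize n (d + 1) : ℝ) / codeSize n (d + 5)) :=
          Real.log_lt_log (by positivity) h4
        have h6 := Real.one_sub_inv_le_log_of_pos (show 0 < 1 + ε / 4 by positivity)
        have h7 : ε / 8 ≤ 1 - (1 + ε / 4)⁻¹ := by
          have h8 : 1 - (1 + ε / 4)⁻¹ = (ε / 4) / (1 + ε / 4) := by
            field_simp
            ring
          rw [h8, le_div_iff₀ (by positivity)]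
          nlinarith
        linarith
      · right
        omega
    have h3 : (((Icc 1 n).filter fun d => n ≤ 2 * d + 2 * y ∧ (1 + ε) * 2 ^ n / codeSize n (d + 1) < (chi n d : ℝ)).card : ℝ) ≤
        (((Icc a n).filter fun d => ε / 8 < Real.log (codeSize n (d + 1) / codeSize n (d + 5))).card : ℝ) + 1 := by
      have h4 := (card_le_card h2).trans (card_union_le _ _)
      rw [card_singleton] at h4
      exact_mod_cast h4
    have h4 : codeSize n (n + 5) = 1 := codeSize_top (by omega)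
    rw [h4, Nat.cast_one, Real.log_one, sub_zero] at h1
    have h5 := mid hn (show 1 ≤ a + 1 by omega) hy hyn haD
    have h6 : 4 * Real.log (codeSize n (a + 1)) / (ε / 8) ≤
        1280 / ε * (Real.log (n + 1) + (y : ℝ) ^ 2 / n * Real.log (Real.exp 1 * n / y)) := by
      have e : 4 * Real.log (codeSize n (a + 1)) / (ε / 8) = 32 / ε * Real.log (codeSize n (a + 1)) := by
        field_simp
        ring
      rw [e]
      refine (mul_le_mul_of_nonneg_left h5 (by positivity)).trans (le_of_eq ?_)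
      ring
    have h7 : 1 ≤ 162 / ε ^ 2 := by
      rw [one_le_div (by positivity)]
      nlinarith
    linarith
  · have h1 := card_filter_le (Icc 1 n) fun d => n ≤ 2 * d + 2 * y ∧ (1 + ε) * 2 ^ n / codeSize n (d + 1) < (chi n d : ℝ)
    rw [Nat.card_Icc, Nat.add_sub_cancel] at h1
    have h2 : (((Icc 1 n).filter fun d => n ≤ 2 * d + 2 * y ∧ (1 + ε) * 2 ^ n / codeSize n (d + 1) < (chi n d : ℝ)).card : ℝ) ≤ n := by
      exact_mod_cast h1
    have h3 : 160 / ε ^ 2 ≤ 162 / ε ^ 2 := div_le_div_of_nonneg_right (by norm_num) (by positivity)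
    linarith [not_le.1 hbig]

end MP7d5fe8.T
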