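import Mathlib
import Pool.Agent.Work.MP_7d5fe8_co.T.Exc
import Pool.Agent.Work.MP_7d5fe8_co.T.Near

set_option autoImplicit false

/-!
# T/Delta (S-M): almost all `d`

`almost_all`: `K = max (20 / δ + 1) (4 + 3 n0)` with `log (n + 1) ≥ 20 / δ + 1` for all `n ≥ n0`: for `n ≥ n0` use `exc_all` (`20 n / min ≤ δ n`), for `n < n0` no `d` is counted by `ineq_triv`.
`almost_mid`: with `B = 1280 / ε`: take `η ∈ (0, 1]` with `B η log (e / η) ≤ δ / 3` (`η log (e / η) ≤ 2 √η`: `log (e / η) = 1 + 2 log (1 / √η) ≤ 1 + 2 (1 / √η - 1) ≤ 2 / √η`) and `C` with `B / C ≤ δ / 3`, `162 / ε ^ 2 ≤ (δ / 3) C log 2`.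
For `C log (n + 1) ≤ y ≤ η n`: `B log (n + 1) ≤ (B / C) y ≤ δ y / 3`, `B (y ^ 2 / n) log (e n / y) = B y (t log (e / t))` with `t = y / n ≤ η`, and `t log (e / t) ≤ 2 √t ≤ 2 √η`; so choose `η` with `2 B √η ≤ δ / 3`; `162 / ε ^ 2 ≤ (δ / 3) y` since `y ≥ C log 2`.
-/

namespace MP7d5fe8.T

open Finset

open Classical in
theorem almost_all {δ : ℝ} (hδ : 0 < δ) : ∃ K : ℝ, ∀ n : ℕ,
    (((Icc 1 n).filter fun d => K * 2 ^ n / codeSize n (d + 1) < (chi n d : ℝ)).card : ℝ) ≤ δ * n := by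
  set n0 := ⌈Real.exp (20 / δ)⌉₊ with hn0
  refine ⟨max (20 / δ + 1) (4 + 3 * n0), fun n => ?_⟩
  rcases Nat.eq_zero_or_pos n with h0 | hn
  · subst h0
    rw [Icc_eq_empty (by omega), filter_empty, card_empty]
    simp
  have hn1 : (1 : ℝ) ≤ n := by exact_mod_cast hn
  by_cases hbig : n0 ≤ n
  · have hK1 : 1 ≤ max (20 / δ + 1) (4 + 3 * (n0 : ℝ)) := by
      refine le_trans ?_ (le_max_left _ _)
      have : 0 ≤ 20 / δ := by positivity
      linarith
    have h1 := exc_all hn hK1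
    refine h1.trans ?_
    have h2 : 20 / δ ≤ Real.log ((n : ℝ) + 1) := by
      rw [Real.le_log_iff_exp_le (by linarith)]
      have h3 := Nat.le_ceil (Real.exp (20 / δ))
      rw [← hn0] at h3
      have h4 : (n0 : ℝ) ≤ n := by exact_mod_cast hbig
      linarith
    have h3 : 20 / δ ≤ min (max (20 / δ + 1) (4 + 3 * (n0 : ℝ))) (Real.log ((n : ℝ) + 1)) := by
      refine le_min (le_trans ?_ (le_max_left _ _)) h2
      linarith
    have h4 : 0 < 20 / δ := by positivity
    calc 20 * (n : ℝ) / min (max (20 / δ + 1) (4 + 3 * (n0 : ℝ))) (Real.log ((n : ℝ) + 1)) ≤ 20 * n / (20 / δ) :=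
          div_le_div_of_nonneg_left (by positivity) h4 h3
      _ = δ * n := by
          field_simp
  · rw [not_le] at hbig
    have h1 : ((Icc 1 n).filter fun d => max (20 / δ + 1) (4 + 3 * (n0 : ℝ)) * 2 ^ n / codeSize n (d + 1) < (chi n d : ℝ)) = ∅ := by
      refine filter_eq_empty_iff.2 fun d _ => not_lt.2 ?_
      refine (ineq_triv n d).trans ?_
      have hA : (0 : ℝ) < codeSize n (d + 1) := by
        have := codeSize_pos n (d + 1)
        exact_mod_cast this
      have h2 : (n : ℝ) ≤ n0 := by exact_mod_cast hbig.le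
      have h3 : (4 : ℝ) + 3 * n ≤ max (20 / δ + 1) (4 + 3 * (n0 : ℝ)) := le_trans (by linarith) (le_max_right _ _)
      calc 2 ^ n / (codeSize n (d + 1) : ℝ) * (4 + 3 * n) ≤ 2 ^ n / codeSize n (d + 1) * max (20 / δ + 1) (4 + 3 * (n0 : ℝ)) :=
            mul_le_mul_of_nonneg_left h3 (by positivity)
        _ = _ := by ring
    rw [h1, card_empty]
    push_cast
    positivity

private theorem t_log {t : ℝ} (h0 : 0 < t) : t * Real.log (Real.exp 1 / t) ≤ 2 * Real.sqrt t := by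
  have hs : 0 < Real.sqrt t := Real.sqrt_pos.2 h0
  have h1 : Real.log (Real.exp 1 / t) = 1 + 2 * Real.log (1 / Real.sqrt t) := by
    rw [Real.log_div (Real.exp_pos 1).ne' h0.ne', Real.log_exp, one_div, Real.log_inv, Real.log_sqrt h0.le]
    ring
  have h2 := Real.log_le_sub_one_of_pos (show 0 < 1 / Real.sqrt t by positivity)
  have h3 : Real.log (Real.exp 1 / t) ≤ 2 / Real.sqrt t := by
    rw [h1]
    have : 2 / Real.sqrt t = 2 * (1 / Real.sqrt t) := by ring
    rw [this]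
    linarith
  calc t * Real.log (Real.exp 1 / t) ≤ t * (2 / Real.sqrt t) := mul_le_mul_of_nonneg_left h3 h0.le
    _ = 2 * Real.sqrt t := by
        have h4 : Real.sqrt t * Real.sqrt t = t := Real.mul_self_sqrt h0.le
        field_simp
        rw [pow_two, h4]

open Classical in
theorem almost_mid {ε δ : ℝ} (hε : 0 < ε) (hε1 : ε ≤ 1) (hδ : 0 < δ) : ∃ η C : ℝ, 0 < η ∧ ∀ n y : ℕ,
    C * Real.log (n + 1) ≤ y → (y : ℝ) ≤ η * n →
      (((Icc 1 n).filter fun d => n ≤ 2 * d + 2 * y ∧ (1 + ε) * 2 ^ n / codeSize n (d + 1) < (chi n d : ℝ)).card : ℝ) ≤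
        δ * y := by
  obtain ⟨B, hB⟩ : ∃ B, B = 1280 / ε := ⟨_, rfl⟩
  have hB0 : 0 < B := by
    rw [hB]
    positivity
  have hl2 : 0 < Real.log 2 := Real.log_pos (by norm_num)
  refine ⟨min 1 ((δ / (6 * B)) ^ 2), max (3 * B / δ) (486 / (ε ^ 2 * δ * Real.log 2)), by positivity, fun n y hC hη => ?_⟩
  have hC0 : 0 < max (3 * B / δ) (486 / (ε ^ 2 * δ * Real.log 2)) := lt_max_of_lt_left (by positivity)
  rcases Nat.eq_zero_or_pos n with h0 | hn
  · subst h0
    rw [Icc_eq_empty (by omega), filter_empty, card_empty]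
    push_cast
    positivity
  have hn1 : (1 : ℝ) ≤ n := by exact_mod_cast hn
  have hn0 : (0 : ℝ) < n := by linarith
  have hL2 : Real.log 2 ≤ Real.log ((n : ℝ) + 1) := Real.log_le_log (by norm_num) (by linarith)
  have hL0 : 0 < Real.log ((n : ℝ) + 1) := by linarith
  have hy0 : (0 : ℝ) < y := lt_of_lt_of_le (by positivity) hC
  have hy1 : 1 ≤ y := by exact_mod_cast hy0
  have hyn : (y : ℝ) ≤ n := by
    refine hη.trans ?_
    have := min_le_left 1 ((δ / (6 * B)) ^ 2)
    nlinarith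
  have hyn' : y ≤ n := by exact_mod_cast hyn
  have h1 := near (n := n) hn hy1 hyn' hε hε1
  rw [← hB] at h1
  refine h1.trans ?_
  have h2 : B * Real.log ((n : ℝ) + 1) ≤ δ / 3 * y := by
    have h3 := (mul_le_mul_of_nonneg_right (le_max_left (3 * B / δ) (486 / (ε ^ 2 * δ * Real.log 2))) hL0.le).trans hC
    have h4 := mul_le_mul_of_nonneg_left h3 (show 0 ≤ δ / 3 by positivity)
    refine le_trans (le_of_eq ?_) h4
    field_simp
  have h3 : 162 / ε ^ 2 ≤ δ / 3 * y := by
    have h4 := (mul_le_mul_of_nonneg_right (le_max_right (3 * B / δ) (486 / (ε ^ 2 * δ * Real.log 2))) hL0.le).trans hC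
    have h5 : 486 / (ε ^ 2 * δ) ≤ y := by
      refine le_trans ?_ h4
      calc 486 / (ε ^ 2 * δ) = 486 / (ε ^ 2 * δ * Real.log 2) * Real.log 2 := by
            field_simp
        _ ≤ 486 / (ε ^ 2 * δ * Real.log 2) * Real.log ((n : ℝ) + 1) := mul_le_mul_of_nonneg_left hL2 (by positivity)
    have h6 := mul_le_mul_of_nonneg_left h5 (show 0 ≤ δ / 3 by positivity)
    refine le_trans (le_of_eq ?_) h6
    field_simp
    norm_num
  have h4 : B * ((y : ℝ) ^ 2 / n * Real.log (Real.exp 1 * n / y)) ≤ δ / 3 * y := by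
    have ht0 : (0 : ℝ) < y / n := by positivity
    have h5 := t_log ht0
    have h6 : Real.sqrt ((y : ℝ) / n) ≤ δ / (6 * B) := by
      refine Real.sqrt_le_iff.2 ⟨by positivity, ?_⟩
      rw [div_le_iff₀ hn0]
      refine hη.trans ?_
      exact mul_le_mul_of_nonneg_right (min_le_right _ _) hn0.le
    have h7 : Real.exp 1 * n / (y : ℝ) = Real.exp 1 / (y / n) := by
      field_simp
    have h8 : B * ((y : ℝ) ^ 2 / n * Real.log (Real.exp 1 * n / y)) =
        B * y * (y / n * Real.log (Real.exp 1 / (y / n))) := by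
      rw [h7]
      ring
    rw [h8]
    calc B * y * (y / n * Real.log (Real.exp 1 / (y / n))) ≤ B * y * (2 * (δ / (6 * B))) :=
          mul_le_mul_of_nonneg_left (h5.trans (by linarith)) (by positivity)
      _ = δ / 3 * y := by
          field_simp
          norm_num
  have h5 : B * (Real.log ((n : ℝ) + 1) + (y : ℝ) ^ 2 / n * Real.log (Real.exp 1 * n / y)) =
      B * Real.log ((n : ℝ) + 1) + B * ((y : ℝ) ^ 2 / n * Real.log (Real.exp 1 * n / y)) := by ring
  rw [h5]
  linarith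

end MP7d5fe8.T
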