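import Mathlib
import Pool.Agent.Work.MP_7d5fe8_co.T.Col
import Pool.Agent.Work.MP_7d5fe8_co.T.AvgX
import Pool.Agent.Work.MP_7d5fe8_co.T.Avg1

set_option autoImplicit false

/-!
# T/TwoX: the two coverings, sharp constants

`avgx` for an optimal code `C0` and `avg1` with `s = 1 / (1 + x)` for an optimal code `C1`.
-/

namespace MP7d5fe8.T

open Finset

private theorem exp_aux (n : ℕ) : (2 : ℝ) ^ n = Real.exp (n * Real.log 2) := by
  rw [Real.exp_nat_mul, Real.exp_log (by norm_num)]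

theorem two_x {n d r K0 K1 : ℕ} (hr : 2 * r ≤ d) {x : ℝ} (hx : 0 < x)
    (h : (1 + x) * (2 * (n * Real.log 2) + x * (vol n r * Real.exp (-(K0 * codeSize n (d + 1) / 2 ^ n)))) ≤
      x * (K1 * (codeSize n (d + 1 + 2 * r) * vol n r) / 2 ^ n)) : (QPow n d).Colorable (K0 + K1) := by
  obtain ⟨C0, hC0, hc0⟩ := exists_code n (d + 1)
  obtain ⟨C1, hC1, hc1⟩ := exists_code n (d + 1 + 2 * r)
  have h1x : 0 < 1 + x := by linarith
  have hs1 : 1 / (1 + x) ≤ 1 := by
    rw [div_le_one h1x]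
    linarith
  obtain ⟨z0, hz0⟩ := avgx C0 (ball n r) (ind_of_code hC0 (by omega)) K0 hx
  obtain ⟨z1, hz1⟩ := avg1 C1 (ball n r) (ind_of_code hC1 (by omega)) K1 (s := 1 / (1 + x)) (by positivity) hs1
  refine col hC0 hC1 z0 z1 fun y a => ?_
  have h0 := hz0 a
  have h1 := hz1 y
  rw [card_ball, hc0] at h0
  rw [card_ball, hc1] at h1
  set u := (vol n r : ℝ) * Real.exp (-(K0 * codeSize n (d + 1) / 2 ^ n)) with hu
  have h2 : 2 * (n * Real.log 2) + x * u ≤ (1 - 1 / (1 + x)) * (K1 * (codeSize n (d + 1 + 2 * r) * vol n r) / 2 ^ n) := by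
    have e : (1 - 1 / (1 + x)) * (K1 * (codeSize n (d + 1 + 2 * r) * vol n r) / 2 ^ n) =
        x * (K1 * (codeSize n (d + 1 + 2 * r) * vol n r) / 2 ^ n) / (1 + x) := by
      field_simp
      ring
    rw [e, le_div_iff₀ h1x]
    linarith
  have h3 : (1 / (1 + x)) ^ deg C1 (ball n r) z1 y ≤ Real.exp (-(n * Real.log 2 + x * u)) := by
    refine h1.trans ?_
    rw [exp_aux, ← Real.exp_add]
    refine Real.exp_le_exp.2 ?_
    rw [← exp_aux]
    linarith
  have h4 : (1 + x) ^ unc C0 (ball n r) z0 a ≤ Real.exp (n * Real.log 2 + x * u) := by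
    refine h0.trans (le_of_eq ?_)
    rw [Real.exp_add, ← exp_aux]
  have h5 : Real.exp (n * Real.log 2 + x * u) ≤ (1 + x) ^ deg C1 (ball n r) z1 y := by
    have h6 : (0 : ℝ) < (1 / (1 + x)) ^ deg C1 (ball n r) z1 y := by positivity
    have h7 := one_div_le_one_div_of_le h6 h3
    rw [Real.exp_neg, one_div, one_div, inv_inv] at h7
    rw [one_div, inv_pow, inv_inv] at h7
    exact h7
  have h8 := h4.trans h5
  by_contra hlt
  have h9 := pow_lt_pow_right₀ (a := 1 + x) (by linarith) (not_le.1 hlt)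
  linarith

end MP7d5fe8.T
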