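import Mathlib
import Pool.Agent.Work.MP_7d5fe8_co.T.TwoX

set_option autoImplicit false

/-!
# T/IneqX: the sharp inequality

`q = codeSize n (d + 1) / codeSize n (d + 1 + 2 r)`. If `23 n q ≤ ε ^ 2 vol n r` then `χ(Q_n^d) ≤ (1 + ε + log q) 2 ^ n / codeSize n (d + 1)`.
-/

namespace MP7d5fe8.T

open Finset

private theorem cs_pos (n D : ℕ) : (0 : ℝ) < codeSize n D := by
  have := codeSize_pos n D
  exact_mod_cast this

private theorem vol_pos (n r : ℕ) : (0 : ℝ) < vol n r := by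
  have h : 0 < vol n r := by
    unfold vol
    exact sum_pos' (fun _ _ => Nat.zero_le _) ⟨0, by simp, by simp⟩
  exact_mod_cast h

theorem ineq_x {n d r : ℕ} (hn : 1 ≤ n) (hr : 2 * r ≤ d) {ε : ℝ} (hε : 0 < ε) (hε1 : ε ≤ 1)
    (h : 23 * n * (codeSize n (d + 1) / codeSize n (d + 1 + 2 * r)) ≤ ε ^ 2 * vol n r) :
    (chi n d : ℝ) ≤ (1 + ε + Real.log (codeSize n (d + 1) / codeSize n (d + 1 + 2 * r))) *
      (2 ^ n / codeSize n (d + 1)) := by
  have hn1 : (1 : ℝ) ≤ n := by exact_mod_cast hn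
  have hA0 := cs_pos n (d + 1)
  have hA1 := cs_pos n (d + 1 + 2 * r)
  have hV := vol_pos n r
  have hA01 : (codeSize n (d + 1 + 2 * r) : ℝ) ≤ codeSize n (d + 1) := by
    exact_mod_cast codeSize_anti (n := n) (show d + 1 ≤ d + 1 + 2 * r by omega)
  have hpack : (codeSize n (d + 1) : ℝ) * vol n r ≤ 2 ^ n := by
    exact_mod_cast pack (n := n) (D := d + 1) (r := r) (by omega)
  have htl := two_x (n := n) (K0 := ⌈Real.log (codeSize n (d + 1) / codeSize n (d + 1 + 2 * r)) * 2 ^ n / codeSize n (d + 1)⌉₊)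
    (K1 := ⌈2 ^ n / codeSize n (d + 1) * (1 + ε / 4) ^ 2⌉₊) hr (x := ε / 4) (by positivity)
  set A0 : ℝ := ((codeSize n (d + 1) : ℕ) : ℝ) with hA0d
  set A1 : ℝ := ((codeSize n (d + 1 + 2 * r) : ℕ) : ℝ) with hA1d
  set V : ℝ := ((vol n r : ℕ) : ℝ) with hVd
  set N : ℝ := 2 ^ n with hN
  have hN0 : 0 < N := by positivity
  have hq1 : 1 ≤ A0 / A1 := by
    rw [one_le_div hA1]
    exact hA01
  have hκ0 : 0 ≤ Real.log (A0 / A1) := Real.log_nonneg hq1
  have hl2 : 0 < Real.log 2 := Real.log_pos (by norm_num)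
  have hl3 := Real.log_two_lt_d9
  have h1 := Nat.le_ceil (Real.log (A0 / A1) * N / A0)
  have h2 := Nat.le_ceil (N / A0 * (1 + ε / 4) ^ 2)
  have h3 := Nat.ceil_lt_add_one (show 0 ≤ Real.log (A0 / A1) * N / A0 by positivity)
  have h4 := Nat.ceil_lt_add_one (show 0 ≤ N / A0 * (1 + ε / 4) ^ 2 by positivity)
  have e1 : Real.exp (-((⌈Real.log (A0 / A1) * N / A0⌉₊ : ℕ) * A0 / N)) ≤ A1 / A0 := by
    calc Real.exp (-((⌈Real.log (A0 / A1) * N / A0⌉₊ : ℕ) * A0 / N)) ≤ Real.exp (-Real.log (A0 / A1)) := by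
          refine Real.exp_le_exp.2 (neg_le_neg ?_)
          rw [le_div_iff₀ hN0]
          rw [div_le_iff₀ hA0] at h1
          exact h1
      _ = A1 / A0 := by
          rw [Real.exp_neg, Real.exp_log (by positivity), inv_div]
  have h5 := htl (by
    have e2 : 2 * (n * Real.log 2) ≤ (ε / 4) * (ε / 4) * (V * (A1 / A0)) := by
      have e3 : 23 * n ≤ ε ^ 2 * (V * (A1 / A0)) := by
        have e4 := mul_le_mul_of_nonneg_right h (show 0 ≤ A1 / A0 by positivity)
        have e5 : 23 * (n : ℝ) * (A0 / A1) * (A1 / A0) = 23 * n := by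
          field_simp
        have e6 : ε ^ 2 * V * (A1 / A0) = ε ^ 2 * (V * (A1 / A0)) := by ring
        rw [e5, e6] at e4
        exact e4
      have e4 : (n : ℝ) * Real.log 2 ≤ n * (23 / 32) := mul_le_mul_of_nonneg_left (by linarith) (by linarith)
      nlinarith
    have e3 : ε / 4 * (V * Real.exp (-((⌈Real.log (A0 / A1) * N / A0⌉₊ : ℕ) * A0 / N))) ≤ ε / 4 * (V * (A1 / A0)) :=
      mul_le_mul_of_nonneg_left (mul_le_mul_of_nonneg_left e1 hV.le) (by positivity)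
    calc (1 + ε / 4) * (2 * (n * Real.log 2) + ε / 4 * (V * Real.exp (-((⌈Real.log (A0 / A1) * N / A0⌉₊ : ℕ) * A0 / N))))
        ≤ (1 + ε / 4) * ((ε / 4) * (ε / 4) * (V * (A1 / A0)) + ε / 4 * (V * (A1 / A0))) :=
          mul_le_mul_of_nonneg_left (add_le_add e2 e3) (by positivity)
      _ = ε / 4 * ((N / A0 * (1 + ε / 4) ^ 2) * (A1 * V) / N) := by
          field_simp
          ring
      _ ≤ ε / 4 * ((⌈N / A0 * (1 + ε / 4) ^ 2⌉₊ : ℕ) * (A1 * V) / N) := by
          refine mul_le_mul_of_nonneg_left ?_ (by positivity)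
          refine div_le_div_of_nonneg_right ?_ hN0.le
          exact mul_le_mul_of_nonneg_right h2 (by positivity))
  have h6 : (chi n d : ℝ) ≤ (⌈Real.log (A0 / A1) * N / A0⌉₊ : ℕ) + (⌈N / A0 * (1 + ε / 4) ^ 2⌉₊ : ℕ) := by
    exact_mod_cast chi_le h5
  have h7 : V ≤ N / A0 := by
    rw [le_div_iff₀ hA0]
    linarith
  have h8 : 2 ≤ 7 * ε / 16 * (N / A0) := by
    have h9 : 23 ≤ ε ^ 2 * (N / A0) := by
      have h10 : 23 * (1 : ℝ) ≤ 23 * n * (A0 / A1) := by
        have : 1 * 1 ≤ n * (A0 / A1) := mul_le_mul hn1 hq1 (by norm_num) (by linarith)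
        linarith
      have h11 := mul_le_mul_of_nonneg_left h7 (show 0 ≤ ε ^ 2 by positivity)
      linarith
    have h12 : 0 ≤ N / A0 := by positivity
    have h13 : ε ^ 2 * (N / A0) ≤ ε * (N / A0) := mul_le_mul_of_nonneg_right (by nlinarith) h12
    linarith
  have h9 : N / A0 * (1 + ε / 4) ^ 2 ≤ (1 + 9 * ε / 16) * (N / A0) := by
    rw [mul_comm]
    refine mul_le_mul_of_nonneg_right ?_ (by positivity)
    nlinarith
  have e : (1 + ε + Real.log (A0 / A1)) * (N / A0) =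
      (1 + 9 * ε / 16) * (N / A0) + Real.log (A0 / A1) * N / A0 + 7 * ε / 16 * (N / A0) := by ring
  rw [e]
  linarith

end MP7d5fe8.T
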