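import Mathlib
import Pool.Agent.Work.MP_7d5fe8_co.T.Base

set_option autoImplicit false

/-!
# T/Short: shortening a code

`codeSize (n + m) D ≤ 2 ^ m codeSize n D`: sort the words by their last `m` coordinates.
-/

namespace MP7d5fe8.T

open Finset

theorem short (n m D : ℕ) : codeSize (n + m) D ≤ 2 ^ m * codeSize n D := by
  classical
  obtain ⟨C, hC, hc⟩ := exists_code (n + m) D
  set t : Finset (Fin (n + m)) → Finset (Fin m) := fun x => univ.filter fun j => Fin.natAdd n j ∈ x with ht
  set s : Finset (Fin (n + m)) → Finset (Fin n) := fun x => univ.filter fun i => Fin.castAdd m i ∈ x with hs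
  have hts : ∀ x x' : Finset (Fin (n + m)), t x = t x' →
      symmDiff x x' = (symmDiff (s x) (s x')).map (Fin.castAddEmb m) := by
    intro x x' hxx
    ext i
    rw [mem_map]
    constructor
    · intro hi
      induction i using Fin.addCases with
      | left i =>
        refine ⟨i, ?_, rfl⟩
        rw [mem_symmDiff] at hi ⊢
        simpa [hs] using hi
      | right j =>
        exfalso
        have h1 : (j ∈ t x) = (j ∈ t x') := by rw [hxx]
        simp only [ht, mem_filter, mem_univ, true_and, eq_iff_iff] at h1
        rw [mem_symmDiff] at hi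
        tauto
    · rintro ⟨i, hi, rfl⟩
      rw [mem_symmDiff] at hi ⊢
      simpa [hs] using hi
  have h1 : ∀ y : Finset (Fin m), (C.filter fun x => t x = y).card ≤ codeSize n D := by
    intro y
    have hinj : Set.InjOn s (C.filter fun x => t x = y : Finset (Finset (Fin (n + m)))) := by
      intro x hx x' hx' hss
      rw [mem_coe, mem_filter] at hx hx'
      have h2 := hts x x' (hx.2.trans hx'.2.symm)
      rw [hss, symmDiff_self, bot_eq_empty, map_empty] at h2
      exact symmDiff_eq_bot.1 h2
    rw [← card_image_of_injOn hinj]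
    refine card_le_codeSize fun u hu v hv huv => ?_
    obtain ⟨x, hx, rfl⟩ := mem_image.1 hu
    obtain ⟨x', hx', rfl⟩ := mem_image.1 hv
    rw [mem_filter] at hx hx'
    have h2 := hts x x' (hx.2.trans hx'.2.symm)
    have h3 := hC x hx.1 x' hx'.1 fun h => huv (by rw [h])
    rwa [h2, card_map] at h3
  rw [← hc, card_eq_sum_card_fiberwise (f := t) (t := univ) fun _ _ => mem_univ _]
  calc ∑ y : Finset (Fin m), (C.filter fun x => t x = y).card ≤ ∑ _y : Finset (Fin m), codeSize n D :=
        sum_le_sum fun y _ => h1 y
    _ = 2 ^ m * codeSize n D := by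
        rw [sum_const, card_univ, Fintype.card_finset, Fintype.card_fin, smul_eq_mul]

end MP7d5fe8.T
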