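import Mathlib
import Pool.Agent.Work.MP_7d5fe8_co.T.Short
import Pool.Agent.Work.MP_7d5fe8_co.T.Ineq

set_option autoImplicit false

/-!
# T/Line: almost all lengths along a sequence `d = f n` of positive rate

`f n + 4 ≤ f (n + m)` for all `n`. With `g n = log (codeSize n (f n + 1))` one has
`g n - log (codeSize n (f n + 5)) ≤ g n - g (n + m) + m log 2` by shortening, and the sum over `1 ≤ n ≤ N` is at most `2 m N log 2`.
-/

namespace MP7d5fe8.T

open Finset

private theorem cs_pos (n D : ℕ) : (0 : ℝ) < codeSize n D := by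
  have := codeSize_pos n D
  exact_mod_cast this

open Classical in
theorem line {f : ℕ → ℕ} {m N : ℕ} (hm : 1 ≤ m) (hf : ∀ n, f n + 4 ≤ f (n + m)) (hN : 1 ≤ N) {K : ℝ} (hK : 1 ≤ K) :
    (((Icc 1 N).filter fun n => K * 2 ^ n / codeSize n (f n + 1) < (chi n (f n) : ℝ)).card : ℝ) ≤
      20 * m * N / min K (Real.log (N + 1)) := by
  have hm1 : (1 : ℝ) ≤ m := by exact_mod_cast hm
  have hN1 : (1 : ℝ) ≤ N := by exact_mod_cast hN
  have hL0 : 0 < Real.log ((N : ℝ) + 1) := Real.log_pos (by linarith)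
  have hLN : Real.log ((N : ℝ) + 1) ≤ N := by
    have := Real.log_le_sub_one_of_pos (show (0 : ℝ) < N + 1 by linarith)
    linarith
  have hμ0 : 0 < min K (Real.log ((N : ℝ) + 1)) := lt_min (by linarith) hL0
  rw [le_div_iff₀ hμ0]
  have hcard : (((Icc 1 N).filter fun n => K * 2 ^ n / codeSize n (f n + 1) < (chi n (f n) : ℝ)).card : ℝ) ≤ N := by
    have h1 := card_filter_le (Icc 1 N) fun n => K * 2 ^ n / codeSize n (f n + 1) < (chi n (f n) : ℝ)
    rw [Nat.card_Icc, Nat.add_sub_cancel] at h1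
    exact_mod_cast h1
  by_cases hK20 : K < 20
  · calc (((Icc 1 N).filter fun n => K * 2 ^ n / codeSize n (f n + 1) < (chi n (f n) : ℝ)).card : ℝ) *
          min K (Real.log (N + 1)) ≤ N * 20 :=
          mul_le_mul hcard ((min_le_left _ _).trans hK20.le) hμ0.le (by positivity)
      _ ≤ 20 * m * N := by nlinarith
  have hK20' : 20 ≤ K := not_lt.1 hK20
  by_cases hmN : N < m
  · have hmN' : (N : ℝ) ≤ m := by exact_mod_cast hmN.le
    calc (((Icc 1 N).filter fun n => K * 2 ^ n / codeSize n (f n + 1) < (chi n (f n) : ℝ)).card : ℝ) *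
          min K (Real.log (N + 1)) ≤ N * m :=
          mul_le_mul hcard ((min_le_right _ _).trans (hLN.trans hmN')) hμ0.le (by positivity)
      _ ≤ 20 * m * N := by nlinarith
  have hmN' : m ≤ N := not_lt.1 hmN
  have hmNr : (m : ℝ) ≤ N := by exact_mod_cast hmN'
  set g : ℕ → ℝ := fun n => Real.log (codeSize n (f n + 1)) with hg
  set u : ℕ → ℝ := fun n => Real.log (codeSize n (f n + 5)) with hu
  have hg0 : ∀ n, 0 ≤ g n := fun n => Real.log_natCast_nonneg _
  have hgu : ∀ n, u n ≤ g n := by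
    intro n
    refine Real.log_le_log (cs_pos _ _) ?_
    exact_mod_cast codeSize_anti (n := n) (show f n + 1 ≤ f n + 5 by omega)
  have hl2 : 0 < Real.log 2 := Real.log_pos (by norm_num)
  have hl3 := Real.log_two_lt_d9
  have hstep : ∀ n, g n - u n ≤ g n - g (n + m) + m * Real.log 2 := by
    intro n
    have h1 : g (n + m) ≤ m * Real.log 2 + u n := by
      have h2 : (codeSize (n + m) (f (n + m) + 1) : ℝ) ≤ 2 ^ m * codeSize n (f n + 5) := by
        have h3 := (codeSize_anti (n := n + m) (show f n + 5 ≤ f (n + m) + 1 by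
          have := hf n
          omega)).trans (short n m (f n + 5))
        exact_mod_cast h3
      have h3 := Real.log_le_log (cs_pos _ _) h2
      rwa [Real.log_mul (by positivity) (cs_pos _ _).ne', Real.log_pow] at h3
    linarith
  have hsum : ∑ n ∈ Icc 1 N, (g n - u n) ≤ 2 * m * N * Real.log 2 := by
    have h1 : ∑ n ∈ Icc 1 N, (g n - u n) ≤ ∑ n ∈ Icc 1 N, g n - ∑ n ∈ Icc 1 N, g (n + m) + N * (m * Real.log 2) := by
      refine (sum_le_sum fun n _ => hstep n).trans (le_of_eq ?_)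
      rw [sum_add_distrib, sum_sub_distrib, sum_const, Nat.card_Icc, Nat.add_sub_cancel, nsmul_eq_mul]
    have h2 : ∑ n ∈ Icc 1 N, g (n + m) = ∑ n ∈ Icc (1 + m) (N + m), g n := by
      rw [← Finset.map_add_right_Icc, sum_map]
      rfl
    have h3 : ∑ n ∈ Icc 1 N, g n ≤ ∑ n ∈ Icc 1 m, g n + ∑ n ∈ Icc (1 + m) (N + m), g n := by
      rw [← sum_union (by
        rw [disjoint_left]
        intro a ha hb
        rw [mem_Icc] at ha hb
        omega)]
      refine sum_le_sum_of_subset_of_nonneg ?_ fun n _ _ => hg0 n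
      intro a ha
      rw [mem_union, mem_Icc, mem_Icc]
      rw [mem_Icc] at ha
      omega
    have h4 : ∑ n ∈ Icc 1 m, g n ≤ m * (m * Real.log 2) := by
      have h5 : ∀ n ∈ Icc 1 m, g n ≤ m * Real.log 2 := by
        intro n hn
        rw [mem_Icc] at hn
        have h6 : g n ≤ n * Real.log 2 := by
          rw [← Real.log_pow]
          refine Real.log_le_log (cs_pos _ _) ?_
          exact_mod_cast codeSize_le n (f n + 1)
        have h7 : (n : ℝ) ≤ m := by exact_mod_cast hn.2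
        exact h6.trans (mul_le_mul_of_nonneg_right h7 hl2.le)
      refine (sum_le_sum h5).trans (le_of_eq ?_)
      rw [sum_const, Nat.card_Icc, Nat.add_sub_cancel, nsmul_eq_mul]
    have h5 : (m : ℝ) * (m * Real.log 2) ≤ m * (N * Real.log 2) :=
      mul_le_mul_of_nonneg_left (mul_le_mul_of_nonneg_right hmNr hl2.le) (by positivity)
    rw [h2] at h1
    have h6 : 2 * (m : ℝ) * N * Real.log 2 = m * (N * Real.log 2) + N * (m * Real.log 2) := by ring
    rw [h6]
    linarith
  set μ := min K (Real.log ((N : ℝ) + 1)) with hμ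
  set M := min (K - 10) (Real.log ((N : ℝ) + 1) / 2) with hM
  have hM0 : 0 < M := lt_min (by linarith) (by linarith)
  have hμM : μ ≤ 2 * M := by
    rcases le_total (K - 10) (Real.log ((N : ℝ) + 1) / 2) with h4 | h4
    · rw [hM, min_eq_left h4]
      have := min_le_left K (Real.log ((N : ℝ) + 1))
      linarith
    · rw [hM, min_eq_right h4]
      have := min_le_right K (Real.log ((N : ℝ) + 1))
      linarith
  have hmark : (((Icc 1 N).filter fun n => M < g n - u n).card : ℝ) * M ≤ 2 * m * N * Real.log 2 := by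
    calc (((Icc 1 N).filter fun n => M < g n - u n).card : ℝ) * M =
        ∑ n ∈ (Icc 1 N).filter (fun n => M < g n - u n), M := by
          rw [sum_const, nsmul_eq_mul]
      _ ≤ ∑ n ∈ (Icc 1 N).filter (fun n => M < g n - u n), (g n - u n) :=
          sum_le_sum fun n hn => (mem_filter.1 hn).2.le
      _ ≤ ∑ n ∈ Icc 1 N, (g n - u n) :=
          sum_le_sum_of_subset_of_nonneg (filter_subset _ _) fun n _ _ => sub_nonneg.2 (hgu n)
      _ ≤ _ := hsum
  have hf4 : ∀ n, m ≤ n → 4 ≤ f n := by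
    intro n hn
    obtain ⟨k, rfl⟩ := Nat.exists_eq_add_of_le hn
    have := hf k
    rw [Nat.add_comm k m] at this
    omega
  have hsub : ((Icc 1 N).filter fun n => K * 2 ^ n / codeSize n (f n + 1) < (chi n (f n) : ℝ)) ⊆
      ((Icc 1 N).filter fun n => M < g n - u n) ∪ (Icc 1 m ∪ Icc 1 (Nat.sqrt N)) := by
    intro n hn
    rw [mem_filter, mem_Icc] at hn
    rw [mem_union, mem_union, mem_filter, mem_Icc, mem_Icc, mem_Icc]
    by_cases h1 : n ≤ m
    · exact Or.inr (Or.inl ⟨hn.1.1, h1⟩)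
    by_cases h2 : n ≤ Nat.sqrt N
    · exact Or.inr (Or.inr ⟨hn.1.1, h2⟩)
    refine Or.inl ⟨hn.1, ?_⟩
    by_contra hlt
    have h3 := not_lt.1 hlt
    have hA0 := cs_pos n (f n + 1)
    have hA1 := cs_pos n (f n + 5)
    have h4 : g n - u n = Real.log (codeSize n (f n + 1) / codeSize n (f n + 5)) :=
      (Real.log_div hA0.ne' hA1.ne').symm
    rw [h4] at h3
    have hn2 : (N : ℝ) + 1 ≤ ((n : ℝ) + 1) ^ 2 := by
      have h5 := Nat.sqrt_lt.1 (not_le.1 h2)
      have h6 : N + 1 ≤ (n + 1) ^ 2 := by nlinarith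
      exact_mod_cast h6
    have hlog : Real.log ((N : ℝ) + 1) / 2 ≤ Real.log ((n : ℝ) + 1) := by
      have h5 := Real.log_le_log (show (0 : ℝ) < N + 1 by linarith) hn2
      rw [Real.log_pow] at h5
      push_cast at h5
      linarith
    have h5 : (codeSize n (f n + 1) : ℝ) / codeSize n (f n + 5) ≤ n + 1 := by
      have h6 := (h3.trans (min_le_right _ _)).trans hlog
      exact (Real.log_le_log_iff (by positivity) (by positivity)).1 h6
    have h6 := ineq_lin (hf4 n (by omega)) h5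
    have h7 : Real.log (codeSize n (f n + 1) / codeSize n (f n + 5)) + 10 ≤ K := by
      have := h3.trans (min_le_left _ _)
      linarith
    have h8 : (chi n (f n) : ℝ) ≤ 2 ^ n / codeSize n (f n + 1) * K :=
      h6.trans (mul_le_mul_of_nonneg_left h7 (by positivity))
    have h9 : K * 2 ^ n / (codeSize n (f n + 1) : ℝ) = 2 ^ n / codeSize n (f n + 1) * K := by ring
    have h10 := hn.2
    rw [h9] at h10
    linarith
  have hcount : (((Icc 1 N).filter fun n => K * 2 ^ n / codeSize n (f n + 1) < (chi n (f n) : ℝ)).card : ℝ) ≤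
      (((Icc 1 N).filter fun n => M < g n - u n).card : ℝ) + (m + (Nat.sqrt N : ℕ)) := by
    have h1 := (card_le_card hsub).trans ((card_union_le _ _).trans (Nat.add_le_add_left (card_union_le _ _) _))
    rw [Nat.card_Icc, Nat.card_Icc, Nat.add_sub_cancel, Nat.add_sub_cancel] at h1
    exact_mod_cast h1
  have hsq : ((Nat.sqrt N : ℕ) : ℝ) * μ ≤ 2 * N := by
    have h1 : ((Nat.sqrt N : ℕ) : ℝ) ≤ Real.sqrt N := Real.nat_sqrt_le_real_sqrt
    have h2 : Real.log ((N : ℝ) + 1) ≤ 2 * Real.sqrt N := by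
      have hs0 : 0 ≤ Real.sqrt N := Real.sqrt_nonneg _
      have hs1 : Real.sqrt N * Real.sqrt N = N := Real.mul_self_sqrt (by positivity)
      have h3 : (N : ℝ) + 1 ≤ (Real.sqrt N + 1) ^ 2 := by nlinarith
      have h4 := Real.log_le_log (by linarith) h3
      rw [Real.log_pow] at h4
      have h5 := Real.log_le_sub_one_of_pos (show 0 < Real.sqrt N + 1 by linarith)
      push_cast at h4
      linarith
    have h3 : Real.sqrt N * Real.sqrt N = N := Real.mul_self_sqrt (by positivity)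
    calc ((Nat.sqrt N : ℕ) : ℝ) * μ ≤ Real.sqrt N * (2 * Real.sqrt N) :=
          mul_le_mul h1 ((min_le_right _ _).trans h2) hμ0.le (Real.sqrt_nonneg _)
      _ = 2 * N := by
          rw [← mul_assoc, mul_comm (Real.sqrt N) 2, mul_assoc, h3]
  have hmμ : (m : ℝ) * μ ≤ m * N := mul_le_mul_of_nonneg_left ((min_le_right _ _).trans hLN) (by positivity)
  have hfin : (((Icc 1 N).filter fun n => M < g n - u n).card : ℝ) * μ ≤ 4 * m * N * Real.log 2 := by
    calc (((Icc 1 N).filter fun n => M < g n - u n).card : ℝ) * μ ≤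
          (((Icc 1 N).filter fun n => M < g n - u n).card : ℝ) * (2 * M) :=
          mul_le_mul_of_nonneg_left hμM (by positivity)
      _ = 2 * ((((Icc 1 N).filter fun n => M < g n - u n).card : ℝ) * M) := by ring
      _ ≤ 2 * (2 * m * N * Real.log 2) := by linarith
      _ = _ := by ring
  have hfin2 : 4 * (m : ℝ) * N * Real.log 2 ≤ 4 * m * N * 1 :=
    mul_le_mul_of_nonneg_left (by linarith) (by positivity)
  have hmN3 : (N : ℝ) ≤ m * N := by nlinarith
  calc (((Icc 1 N).filter fun n => K * 2 ^ n / codeSize n (f n + 1) < (chi n (f n) : ℝ)).card : ℝ) * μ ≤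
        ((((Icc 1 N).filter fun n => M < g n - u n).card : ℝ) + (m + (Nat.sqrt N : ℕ))) * μ :=
        mul_le_mul_of_nonneg_right hcount hμ0.le
    _ = (((Icc 1 N).filter fun n => M < g n - u n).card : ℝ) * μ + (m * μ + (Nat.sqrt N : ℕ) * μ) := by ring
    _ ≤ 20 * m * N := by linarith

open Classical in
theorem rate {δ₀ η : ℝ} (hδ : 0 < δ₀) (hη : 0 < η) : ∃ K : ℝ, ∀ δ : ℝ, δ₀ ≤ δ → ∀ N : ℕ,
    (((Icc 1 N).filter fun n => K * 2 ^ n / codeSize n (⌊δ * n⌋₊ + 1) < (chi n ⌊δ * n⌋₊ : ℝ)).card : ℝ) ≤ η * N := by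
  obtain ⟨m, hm⟩ : ∃ m : ℕ, m = ⌈4 / δ₀⌉₊ := ⟨_, rfl⟩
  have hmpos : 1 ≤ m := by
    rw [hm]
    exact Nat.one_le_iff_ne_zero.2 (Nat.ceil_pos.2 (by positivity)).ne'
  have hm1 : (1 : ℝ) ≤ m := by exact_mod_cast hmpos
  have hm4 : 4 ≤ δ₀ * m := by
    have h1 := Nat.le_ceil (4 / δ₀)
    rw [← hm, div_le_iff₀ hδ] at h1
    linarith
  set n0 := ⌈Real.exp (20 * m / η)⌉₊ with hn0
  refine ⟨max (20 * m / η + 1) (4 + 3 * n0), fun δ hδ1 N => ?_⟩
  rcases Nat.eq_zero_or_pos N with h0 | hN
  · subst h0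
    rw [Icc_eq_empty (by omega), filter_empty, card_empty]
    simp
  have hN1 : (1 : ℝ) ≤ N := by exact_mod_cast hN
  by_cases hbig : n0 ≤ N
  · have hK1 : 1 ≤ max (20 * m / η + 1) (4 + 3 * (n0 : ℝ)) := by
      refine le_trans ?_ (le_max_left _ _)
      have : 0 ≤ 20 * m / η := by positivity
      linarith
    have hf : ∀ n : ℕ, ⌊δ * n⌋₊ + 4 ≤ ⌊δ * ((n + m : ℕ) : ℝ)⌋₊ := by
      intro n
      rw [← Nat.floor_add_ofNat (by
        have : 0 < δ := lt_of_lt_of_le hδ hδ1
        positivity)]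
      refine Nat.floor_le_floor ?_
      push_cast
      have h1 : δ₀ * (m : ℝ) ≤ δ * m := mul_le_mul_of_nonneg_right hδ1 (by positivity)
      rw [mul_add]
      linarith
    have h1 := line (f := fun n => ⌊δ * n⌋₊) hmpos hf hN hK1
    refine h1.trans ?_
    have h2 : 20 * m / η ≤ Real.log ((N : ℝ) + 1) := by
      rw [Real.le_log_iff_exp_le (by linarith)]
      have h3 := Nat.le_ceil (Real.exp (20 * m / η))
      rw [← hn0] at h3
      have h4 : (n0 : ℝ) ≤ N := by exact_mod_cast hbig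
      linarith
    have h3 : 20 * m / η ≤ min (max (20 * m / η + 1) (4 + 3 * (n0 : ℝ))) (Real.log ((N : ℝ) + 1)) := by
      refine le_min (le_trans ?_ (le_max_left _ _)) h2
      linarith
    have h4 : 0 < 20 * m / η := by positivity
    calc 20 * m * (N : ℝ) / min (max (20 * m / η + 1) (4 + 3 * (n0 : ℝ))) (Real.log ((N : ℝ) + 1)) ≤
          20 * m * N / (20 * m / η) :=
          div_le_div_of_nonneg_left (by positivity) h4 h3
      _ = η * N := by
          field_simp
  · rw [not_le] at hbig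
    have h1 : ((Icc 1 N).filter fun n => max (20 * m / η + 1) (4 + 3 * (n0 : ℝ)) * 2 ^ n / codeSize n (⌊δ * n⌋₊ + 1) <
        (chi n ⌊δ * n⌋₊ : ℝ)) = ∅ := by
      refine filter_eq_empty_iff.2 fun n hn => not_lt.2 ?_
      rw [mem_Icc] at hn
      refine (ineq_triv n _).trans ?_
      have hA : (0 : ℝ) < codeSize n (⌊δ * n⌋₊ + 1) := cs_pos _ _
      have h2 : (n : ℝ) ≤ n0 := by exact_mod_cast (hn.2.trans hbig.le)
      have h3 : (4 : ℝ) + 3 * n ≤ max (20 * m / η + 1) (4 + 3 * (n0 : ℝ)) := le_trans (by linarith) (le_max_right _ _)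
      calc 2 ^ n / (codeSize n (⌊δ * n⌋₊ + 1) : ℝ) * (4 + 3 * n) ≤
            2 ^ n / codeSize n (⌊δ * n⌋₊ + 1) * max (20 * m / η + 1) (4 + 3 * (n0 : ℝ)) :=
            mul_le_mul_of_nonneg_left h3 (by positivity)
        _ = _ := by ring
    rw [h1, card_empty]
    push_cast
    positivity

end MP7d5fe8.T
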