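import Mathlib
import Pool.Agent.Work.MP_7d5fe8_co.T.Ineq

set_option autoImplicit false

/-!
# T/Prod (S-M): the product

`ineq_three` and `1 ≤ 2 ^ n / codeSize n (d + 3)`: `chi n d ≤ 4 2 ^ n / codeSize n (d + 3)`. The product of `codeSize n (d + 1) / codeSize n (d + 3)` over `d = 1, .., n` telescopes to
`codeSize n 2 * codeSize n 3 / (codeSize n (n + 2) * codeSize n (n + 3)) ≤ 4 ^ n` (`codeSize_top`). State it for the product over `Icc 1 m` and use induction on `m`, or `Finset.prod_range_div`.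
-/

namespace MP7d5fe8.T

open Finset

private theorem cs_pos (n D : ℕ) : (0 : ℝ) < codeSize n D := by
  have := codeSize_pos n D
  exact_mod_cast this

private theorem cs_le (n D : ℕ) : (codeSize n D : ℝ) ≤ 2 ^ n := by
  have := codeSize_le n D
  exact_mod_cast this

private theorem tele (n m : ℕ) : (∏ d ∈ Icc 1 m, ((codeSize n (d + 1) : ℝ) / codeSize n (d + 3))) =
    codeSize n 2 * codeSize n 3 / (codeSize n (m + 2) * codeSize n (m + 3)) := by
  induction m with
  | zero =>
    have h2 := cs_pos n 2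
    have h3 := cs_pos n 3
    rw [Icc_eq_empty (by omega), prod_empty]
    rw [zero_add, zero_add, div_self (by positivity)]
  | succ m ih =>
    rw [prod_Icc_succ_top (by omega), ih]
    have h2 := cs_pos n (m + 2)
    have h3 := cs_pos n (m + 3)
    have h4 := cs_pos n (m + 4)
    have e1 : m + 1 + 1 = m + 2 := by ring
    have e2 : m + 1 + 2 = m + 3 := by ring
    have e3 : m + 1 + 3 = m + 4 := by ring
    rw [e1, e2, e3]
    field_simp

theorem prod_le (n : ℕ) : (∏ d ∈ Icc 1 n, (chi n d : ℝ)) ≤ 16 ^ n * ∏ d ∈ Icc 1 n, (2 ^ n / codeSize n (d + 1) : ℝ) := by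
  have h1 : ∀ d ∈ Icc 1 n, (chi n d : ℝ) ≤
      4 * (((codeSize n (d + 1) : ℝ) / codeSize n (d + 3)) * (2 ^ n / codeSize n (d + 1))) := by
    intro d _
    have hA0 := cs_pos n (d + 1)
    have hA1 := cs_pos n (d + 3)
    have h2 := ineq_three n d
    have h3 : 1 ≤ 2 ^ n / (codeSize n (d + 3) : ℝ) := by
      rw [one_le_div hA1]
      exact cs_le n (d + 3)
    have h4 : 4 * (((codeSize n (d + 1) : ℝ) / codeSize n (d + 3)) * (2 ^ n / codeSize n (d + 1))) =
        3 * 2 ^ n / codeSize n (d + 3) + 2 ^ n / codeSize n (d + 3) := by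
      field_simp
      ring
    rw [h4]
    linarith
  refine (prod_le_prod (fun d _ => Nat.cast_nonneg _) h1).trans ?_
  rw [prod_mul_distrib, prod_mul_distrib, prod_const, Nat.card_Icc, Nat.add_sub_cancel, tele, ← mul_assoc]
  refine mul_le_mul_of_nonneg_right ?_ (prod_nonneg fun d _ => by positivity)
  rw [codeSize_top (show n < n + 2 by omega), codeSize_top (show n < n + 3 by omega), Nat.cast_one, mul_one, div_one]
  have h2 := cs_le n 2
  have h3 := cs_le n 3
  have h4 : (codeSize n 2 : ℝ) * codeSize n 3 ≤ 2 ^ n * 2 ^ n :=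
    mul_le_mul h2 h3 (cs_pos n 3).le (by positivity)
  calc (4 : ℝ) ^ n * (codeSize n 2 * codeSize n 3) ≤ 4 ^ n * (2 ^ n * 2 ^ n) :=
        mul_le_mul_of_nonneg_left h4 (by positivity)
    _ = 16 ^ n := by
        rw [← mul_pow, ← mul_pow]
        norm_num

end MP7d5fe8.T
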