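import Mathlib
import Pool.Agent.Work.MP_7d5fe8_co.T.Exc
import Pool.Agent.Work.MP_7d5fe8_co.T.VolB

set_option autoImplicit false

/-!
# T/Scale (M): small `d`

`ℓ = log (e n / X) ≥ 1`. `drop`: `codeSize n (X + 1) ≤ 2 ^ n` and `2 ^ n ≤ codeSize n (2 X + 5) * vol n (2 X + 4)` (`gv`), so the difference of the logarithms is at most `log (vol n (2 X + 4))`. If `2 X + 4 ≤ n`:
`≤ (2 X + 4) log (e n / (2 X + 4)) ≤ 6 X ℓ`; otherwise `≤ n log 2 ≤ 2 X + 4 ≤ 6 X ℓ`. `scale`: for `K ≥ 20` use `exc_gen` with `a = X`, `b = 2 X` and `K ℓ` in place of `K`: `K ℓ - 10 ≥ K ℓ / 2`,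
`1 / min (u, v) ≤ 1 / u + 1 / v`, the count is at most `24 X ℓ (2 / (K ℓ) + 1 / log (n + 1)) + 3`, and `3 ≤ 3 X ℓ / log (n + 1)` because `X log (e n / X) ≥ log (e n) ≥ log (n + 1)` for `1 ≤ X ≤ n`
(`X log (e n / X) - log (e n)`: `(X - 1) log (e n / X) ≥ X - 1 ≥ log X`; `e n ≥ n + 1`). For `K < 20` the count is at most `X + 1 ≤ 2 X ≤ 40 X / K`.
-/

namespace MP7d5fe8.T

open Finset

private theorem cs_pos (n D : ℕ) : (0 : ℝ) < codeSize n D := by
  have := codeSize_pos n D
  exact_mod_cast this

theorem drop {n X : ℕ} (hX : 1 ≤ X) (hXn : X ≤ n) :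
    Real.log (codeSize n (X + 1)) - Real.log (codeSize n (2 * X + 5)) ≤ 6 * X * Real.log (Real.exp 1 * n / X) := by
  have hX1 : (1 : ℝ) ≤ X := by exact_mod_cast hX
  have hXn' : (X : ℝ) ≤ n := by exact_mod_cast hXn
  have hn0 : (0 : ℝ) < n := by linarith
  have he1 : (1 : ℝ) ≤ Real.exp 1 := Real.one_le_exp (by norm_num)
  have hl : 1 ≤ Real.log (Real.exp 1 * n / X) := by
    rw [mul_div_assoc, Real.log_mul (Real.exp_pos 1).ne' (by positivity), Real.log_exp]
    have : 0 ≤ Real.log ((n : ℝ) / X) := Real.log_nonneg (by rw [one_le_div (by linarith)]; exact hXn')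
    linarith
  have hvol0 : (0 : ℝ) < vol n (2 * X + 4) := by
    have : 0 < vol n (2 * X + 4) := by
      rw [← card_ball]
      exact card_pos.2 ⟨∅, mem_filter.2 ⟨mem_univ _, by simp⟩⟩
    exact_mod_cast this
  have h1 : (codeSize n (X + 1) : ℝ) ≤ codeSize n (2 * X + 5) * vol n (2 * X + 4) := by
    have h2 := (codeSize_le n (X + 1)).trans (gv n (2 * X + 4))
    exact_mod_cast h2
  have h2 : Real.log (codeSize n (X + 1)) ≤ Real.log (codeSize n (2 * X + 5)) + Real.log (vol n (2 * X + 4)) := by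
    rw [← Real.log_mul (cs_pos _ _).ne' hvol0.ne']
    exact Real.log_le_log (cs_pos _ _) h1
  have h3 : Real.log (vol n (2 * X + 4)) ≤ 6 * X * Real.log (Real.exp 1 * n / X) := by
    by_cases h : 2 * X + 4 ≤ n
    · have h4 := vol_le_exp (n := n) (k := 2 * X + 4) (by omega) h
      have h5 : Real.log (vol n (2 * X + 4)) ≤
          ((2 * X + 4 : ℕ) : ℝ) * Real.log (Real.exp 1 * n / ((2 * X + 4 : ℕ) : ℝ)) := by
        rw [Real.log_le_iff_le_exp hvol0]
        exact h4
      refine h5.trans ?_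
      push_cast
      have h6 : Real.log (Real.exp 1 * n / (2 * X + 4)) ≤ Real.log (Real.exp 1 * n / X) := by
        refine Real.log_le_log (by positivity) ?_
        exact div_le_div_of_nonneg_left (by positivity) (by linarith) (by linarith)
      calc (2 * (X : ℝ) + 4) * Real.log (Real.exp 1 * n / (2 * X + 4)) ≤ (2 * X + 4) * Real.log (Real.exp 1 * n / X) :=
            mul_le_mul_of_nonneg_left h6 (by positivity)
        _ ≤ 6 * X * Real.log (Real.exp 1 * n / X) := mul_le_mul_of_nonneg_right (by linarith) (by linarith)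
    · have h4 : Real.log (vol n (2 * X + 4)) ≤ n := by
        have h5 : (vol n (2 * X + 4) : ℝ) ≤ 2 ^ n := by exact_mod_cast vol_le_two_pow n (2 * X + 4)
        have h6 : Real.log (vol n (2 * X + 4)) ≤ n * Real.log 2 := by
          rw [← Real.log_pow]
          exact Real.log_le_log hvol0 h5
        have := Real.log_two_lt_d9
        nlinarith
      have h5 : (n : ℝ) ≤ 6 * X := by
        have h6 : n ≤ 6 * X := by omega
        exact_mod_cast h6
      nlinarith
  linarith

open Classical in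
theorem scale {n X : ℕ} (hX : 1 ≤ X) (hXn : X ≤ n) {K : ℝ} (hK : 1 ≤ K) :
    (((Icc X (2 * X)).filter fun d => K * Real.log (Real.exp 1 * n / X) * 2 ^ n / codeSize n (d + 1) < (chi n d : ℝ)).card : ℝ) ≤
      60 * X * (1 / K + Real.log (Real.exp 1 * n / X) / Real.log (n + 1)) := by
  have hX1 : (1 : ℝ) ≤ X := by exact_mod_cast hX
  have hXn' : (X : ℝ) ≤ n := by exact_mod_cast hXn
  have hn0 : (0 : ℝ) < n := by linarith
  have hl : Real.log (Real.exp 1 * n / X) = 1 + Real.log ((n : ℝ) / X) := by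
    rw [mul_div_assoc, Real.log_mul (Real.exp_pos 1).ne' (by positivity), Real.log_exp]
  have hl0 : 0 ≤ Real.log ((n : ℝ) / X) := Real.log_nonneg (by rw [one_le_div (by linarith)]; exact hXn')
  have hdrop := drop hX hXn
  set l := Real.log (Real.exp 1 * n / X) with hld
  have hl1 : 1 ≤ l := by linarith
  have hL : 0 < Real.log ((n : ℝ) + 1) := Real.log_pos (by linarith)
  by_cases hK20 : K < 20
  · have h1 := card_filter_le (Icc X (2 * X)) fun d => K * l * 2 ^ n / codeSize n (d + 1) < (chi n d : ℝ)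
    rw [Nat.card_Icc] at h1
    have h2 : (((Icc X (2 * X)).filter fun d => K * l * 2 ^ n / codeSize n (d + 1) < (chi n d : ℝ)).card : ℝ) ≤ 2 * X := by
      have h3 : ((Icc X (2 * X)).filter fun d => K * l * 2 ^ n / codeSize n (d + 1) < (chi n d : ℝ)).card ≤ 2 * X := by omega
      exact_mod_cast h3
    refine h2.trans ?_
    have h3 : 1 / 20 ≤ 1 / K := one_div_le_one_div_of_le (by linarith) hK20.le
    have h4 : 0 ≤ l / Real.log ((n : ℝ) + 1) := by positivity
    have h5 : 60 * (X : ℝ) * (1 / 20) ≤ 60 * X * (1 / K + l / Real.log (n + 1)) :=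
      mul_le_mul_of_nonneg_left (by linarith) (by positivity)
    linarith
  · rw [not_lt] at hK20
    have hKl : 20 ≤ K * l := by nlinarith
    have h1 := exc_gen (n := n) (by omega) hX (show X ≤ 2 * X + 1 by omega) (show 10 < K * l by linarith)
    have hm0 : 0 < min (K * l - 10) (Real.log ((n : ℝ) + 1)) := lt_min (by linarith) hL
    have h2 : 1 / min (K * l - 10) (Real.log ((n : ℝ) + 1)) ≤ 2 / (K * l) + 1 / Real.log (n + 1) := by
      rcases le_total (K * l - 10) (Real.log ((n : ℝ) + 1)) with h3 | h3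
      · rw [min_eq_left h3]
        have h4 : 1 / (K * l - 10) ≤ 2 / (K * l) := by
          rw [div_le_div_iff₀ (by linarith) (by linarith)]
          linarith
        have : 0 ≤ 1 / Real.log ((n : ℝ) + 1) := by positivity
        linarith
      · rw [min_eq_right h3]
        have : 0 ≤ 2 / (K * l) := by positivity
        linarith
    have h3 : 4 * (Real.log (codeSize n (X + 1)) - Real.log (codeSize n (2 * X + 5))) /
        min (K * l - 10) (Real.log ((n : ℝ) + 1)) ≤ 24 * X * l * (2 / (K * l) + 1 / Real.log (n + 1)) := by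
      rw [div_eq_mul_one_div]
      refine mul_le_mul (by linarith) h2 (by positivity) (by positivity)
    have h4 : 24 * (X : ℝ) * l * (2 / (K * l) + 1 / Real.log (n + 1)) = 48 * X * (1 / K) + 24 * X * (l / Real.log (n + 1)) := by
      field_simp
      ring
    have h5 : Real.log ((n : ℝ) + 1) ≤ X * l := by
      have h6 : Real.log ((n : ℝ) + 1) ≤ 1 + Real.log n := by
        have h7 : (n : ℝ) + 1 ≤ Real.exp 1 * n := by
          have := Real.exp_one_gt_d9
          nlinarith
        calc Real.log ((n : ℝ) + 1) ≤ Real.log (Real.exp 1 * n) := Real.log_le_log (by linarith) h7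
          _ = 1 + Real.log n := by rw [Real.log_mul (Real.exp_pos 1).ne' hn0.ne', Real.log_exp]
      have h7 : Real.log ((n : ℝ) / X) = Real.log n - Real.log X := Real.log_div hn0.ne' (by linarith)
      have h8 : Real.log X ≤ X - 1 := Real.log_le_sub_one_of_pos (by linarith)
      have h9 : Real.log X ≤ Real.log n := Real.log_le_log (by linarith) hXn'
      have h10 : 0 ≤ Real.log (X : ℝ) := Real.log_nonneg hX1
      rw [hl, h7]
      nlinarith
    have h6 : 1 ≤ X * (l / Real.log ((n : ℝ) + 1)) := by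
      rw [← mul_div_assoc, one_le_div hL]
      exact h5
    have h7 : 0 ≤ X * (1 / K) := by positivity
    have h8 : 60 * (X : ℝ) * (1 / K + l / Real.log (n + 1)) = 60 * (X * (1 / K)) + 60 * (X * (l / Real.log (n + 1))) := by ring
    rw [h8]
    rw [h4] at h3
    linarith

end MP7d5fe8.T
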