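import Mathlib
import Pool.Agent.Work.MP_7d5fe8_co.T.Scale
import Pool.Agent.Work.MP_7d5fe8_co.T.Prod
import Pool.Agent.Work.MP_7d5fe8_co.T.Near
import Pool.Agent.Work.MP_7d5fe8_co.T.Delta

set_option autoImplicit false

/-!
# T/Main: assembly
-/

namespace MP7d5fe8.T

open Finset

open Classical in
theorem main :
    (∀ n d : ℕ, (QPow n d).chromaticNumber = chi n d) ∧
    (∀ n d : ℕ, (2 : ℝ) ^ n / codeSize n (d + 1) ≤ chi n d ∧ (chi n d : ℝ) ≤ 3 * 2 ^ n / codeSize n (d + 3) + 1) ∧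
    (∀ (n d : ℕ) (ε : ℝ), 0 < ε → ε ≤ 1 → 10 / ε ^ 2 ≤ n + 1 →
      (chi n d : ℝ) ≤ (1 + ε) * 2 ^ n / codeSize n (d + 5) + 1) ∧
    (∀ n d r : ℕ, 2 * r ≤ d →
      (chi n d : ℝ) ≤ 2 ^ n / codeSize n (d + 1) * (Real.log (codeSize n (d + 1) / codeSize n (d + 1 + 2 * r)) + 4 +
        3 * n * codeSize n (d + 1) / (vol n r * codeSize n (d + 1 + 2 * r)))) ∧
    (∀ n : ℕ, 1 ≤ n → ∀ K : ℝ, 1 ≤ K →
      (((Icc 1 n).filter fun d => K * 2 ^ n / codeSize n (d + 1) < (chi n d : ℝ)).card : ℝ) ≤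
        20 * n / min K (Real.log (n + 1))) ∧
    (∀ n X : ℕ, 1 ≤ X → X ≤ n → ∀ K : ℝ, 1 ≤ K →
      (((Icc X (2 * X)).filter fun d =>
          K * Real.log (Real.exp 1 * n / X) * 2 ^ n / codeSize n (d + 1) < (chi n d : ℝ)).card : ℝ) ≤
        60 * X * (1 / K + Real.log (Real.exp 1 * n / X) / Real.log (n + 1))) ∧
    (∀ n y : ℕ, 1 ≤ y → y ≤ n → ∀ ε : ℝ, 0 < ε → ε ≤ 1 →
      (((Icc 1 n).filter fun d => n ≤ 2 * d + 2 * y ∧ (1 + ε) * 2 ^ n / codeSize n (d + 1) < (chi n d : ℝ)).card : ℝ) ≤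
        1280 / ε * (Real.log (n + 1) + (y : ℝ) ^ 2 / n * Real.log (Real.exp 1 * n / y)) + 162 / ε ^ 2) ∧
    (∀ δ : ℝ, 0 < δ → ∃ K : ℝ, ∀ n : ℕ,
      (((Icc 1 n).filter fun d => K * 2 ^ n / codeSize n (d + 1) < (chi n d : ℝ)).card : ℝ) ≤ δ * n) ∧
    (∀ ε δ : ℝ, 0 < ε → ε ≤ 1 → 0 < δ → ∃ η C : ℝ, 0 < η ∧ ∀ n y : ℕ, C * Real.log (n + 1) ≤ y → (y : ℝ) ≤ η * n →
      (((Icc 1 n).filter fun d => n ≤ 2 * d + 2 * y ∧ (1 + ε) * 2 ^ n / codeSize n (d + 1) < (chi n d : ℝ)).card : ℝ) ≤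
        δ * y) ∧
    (∀ n : ℕ, (∏ d ∈ Icc 1 n, (chi n d : ℝ)) ≤ 16 ^ n * ∏ d ∈ Icc 1 n, (2 ^ n / codeSize n (d + 1) : ℝ)) :=
  ⟨chi_spec, fun n d => ⟨lower n d, ineq_three n d⟩, fun _ _ _ h1 h2 h3 => ineq_eps h1 h2 h3, fun _ _ _ h => ineq_log h,
    fun _ h1 _ h2 => exc_all h1 h2, fun _ _ h1 h2 _ h3 => scale h1 h2 h3,
    fun _ _ h1 h2 _ h3 h4 => near (h1.trans h2) h1 h2 h3 h4, fun _ h => almost_all h,
    fun _ _ h1 h2 h3 => almost_mid h1 h2 h3, prod_le⟩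

end MP7d5fe8.T
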