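import Mathlib
import Pool.Agent.Work.MP_7d5fe8_co.T.Short
import Pool.Agent.Work.MP_7d5fe8_co.T.Ineq

set_option autoImplicit false

/-!
# T/Nu: almost all `d`, along a nondecreasing sequence of lengths `n = ν d`

With `F d = log (codeSize (ν d) (d + 1)) - (ν d) log 2` for `d ≤ N` and `F d = - N log 2` for `d > N` one has, by shortening,
`log (codeSize (ν d) (d + 1) / codeSize (ν d) (d + 5)) ≤ F d - F (d + 4)`, and the sum over `1 ≤ d ≤ N` is at most `4 N log 2`.
-/

namespace MP7d5fe8.T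

open Finset

private theorem cs_pos (n D : ℕ) : (0 : ℝ) < codeSize n D := by
  have := codeSize_pos n D
  exact_mod_cast this

private theorem tele (g : ℕ → ℝ) (p k : ℕ) : ∑ D ∈ Ico p (p + k), (g D - g (D + 4)) =
    (g p + g (p + 1) + g (p + 2) + g (p + 3)) - (g (p + k) + g (p + k + 1) + g (p + k + 2) + g (p + k + 3)) := by
  induction k with
  | zero => simp
  | succ k ih =>
    rw [← Nat.add_assoc, sum_Ico_succ_top (by omega), ih]
    have e1 : p + k + 1 + 1 = p + k + 2 := by ring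
    have e2 : p + k + 1 + 2 = p + k + 3 := by ring
    have e3 : p + k + 1 + 3 = p + k + 4 := by ring
    rw [e1, e2, e3]
    ring

/-- the graph is complete for `d ≥ n` -/
theorem chi_top {n d : ℕ} (h : n ≤ d) : (chi n d : ℝ) ≤ 2 ^ n / codeSize n (d + 1) := by
  have h1 : chi n d ≤ 2 ^ n := by
    refine chi_le ?_
    have h2 : (QPow n d).Colorable (Fintype.card (Finset (Fin n))) := (QPow n d).colorable_of_fintype
    rwa [Fintype.card_finset, Fintype.card_fin] at h2
  rw [codeSize_top (show n < d + 1 by omega), Nat.cast_one, div_one]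
  exact_mod_cast h1

open Classical in
theorem nu {N : ℕ} (hN : 1 ≤ N) {ν : ℕ → ℕ} (hmono : ∀ d e, 1 ≤ d → d ≤ e → e ≤ N → ν d ≤ ν e)
    (hle : ∀ d, 1 ≤ d → d ≤ N → ν d ≤ N) {K : ℝ} (hK : 1 ≤ K) :
    (((Icc 1 N).filter fun d => K * 2 ^ ν d / codeSize (ν d) (d + 1) < (chi (ν d) d : ℝ)).card : ℝ) ≤
      20 * N / min K (Real.log (N + 1)) := by
  have hN1 : (1 : ℝ) ≤ N := by exact_mod_cast hN
  have hL0 : 0 < Real.log ((N : ℝ) + 1) := Real.log_pos (by linarith)
  have hLN : Real.log ((N : ℝ) + 1) ≤ N := by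
    have := Real.log_le_sub_one_of_pos (show (0 : ℝ) < N + 1 by linarith)
    linarith
  have hμ0 : 0 < min K (Real.log ((N : ℝ) + 1)) := lt_min (by linarith) hL0
  rw [le_div_iff₀ hμ0]
  have hcard : (((Icc 1 N).filter fun d => K * 2 ^ ν d / codeSize (ν d) (d + 1) < (chi (ν d) d : ℝ)).card : ℝ) ≤ N := by
    have h1 := card_filter_le (Icc 1 N) fun d => K * 2 ^ ν d / codeSize (ν d) (d + 1) < (chi (ν d) d : ℝ)
    rw [Nat.card_Icc, Nat.add_sub_cancel] at h1
    exact_mod_cast h1
  by_cases hK20 : K < 20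
  · calc (((Icc 1 N).filter fun d => K * 2 ^ ν d / codeSize (ν d) (d + 1) < (chi (ν d) d : ℝ)).card : ℝ) *
          min K (Real.log (N + 1)) ≤ N * 20 :=
          mul_le_mul hcard ((min_le_left _ _).trans hK20.le) hμ0.le (by positivity)
      _ = 20 * N := by ring
  have hK20' : 20 ≤ K := not_lt.1 hK20
  have hl2 : 0 < Real.log 2 := Real.log_pos (by norm_num)
  have hl3 := Real.log_two_lt_d9
  set F : ℕ → ℝ := fun d => if d ≤ N then Real.log (codeSize (ν d) (d + 1)) - ν d * Real.log 2 else -(N * Real.log 2) with hF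
  set u : ℕ → ℝ := fun d => Real.log (codeSize (ν d) (d + 1)) - Real.log (codeSize (ν d) (d + 5)) with hu
  have hF0 : ∀ d, F d ≤ 0 := by
    intro d
    simp only [hF]
    split_ifs with h
    · have h1 : Real.log (codeSize (ν d) (d + 1)) ≤ ν d * Real.log 2 := by
        rw [← Real.log_pow]
        refine Real.log_le_log (cs_pos _ _) ?_
        exact_mod_cast codeSize_le (ν d) (d + 1)
      linarith
    · have : 0 ≤ (N : ℝ) * Real.log 2 := by positivity
      linarith
  have hF1 : ∀ d, N < d → F d = -(N * Real.log 2) := by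
    intro d hd
    simp only [hF]
    rw [if_neg (by omega)]
  have hu0 : ∀ d, 0 ≤ u d := by
    intro d
    refine sub_nonneg.2 (Real.log_le_log (cs_pos _ _) ?_)
    exact_mod_cast codeSize_anti (n := ν d) (show d + 1 ≤ d + 5 by omega)
  have hstep : ∀ d, 1 ≤ d → d ≤ N → u d ≤ F d - F (d + 4) := by
    intro d h1 h2
    have hFd : F d = Real.log (codeSize (ν d) (d + 1)) - ν d * Real.log 2 := by
      simp only [hF]
      rw [if_pos h2]
    by_cases h4 : d + 4 ≤ N
    · have hF4 : F (d + 4) = Real.log (codeSize (ν (d + 4)) (d + 5)) - ν (d + 4) * Real.log 2 := by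
        simp only [hF]
        rw [if_pos h4]
      have h5 := hmono d (d + 4) h1 (by omega) h4
      obtain ⟨k, hk⟩ := Nat.exists_eq_add_of_le h5
      have h6 : Real.log (codeSize (ν (d + 4)) (d + 5)) ≤ k * Real.log 2 + Real.log (codeSize (ν d) (d + 5)) := by
        have h7 : (codeSize (ν (d + 4)) (d + 5) : ℝ) ≤ 2 ^ k * codeSize (ν d) (d + 5) := by
          rw [hk]
          exact_mod_cast short (ν d) k (d + 5)
        have h8 := Real.log_le_log (cs_pos _ _) h7
        rwa [Real.log_mul (by positivity) (cs_pos _ _).ne', Real.log_pow] at h8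
      have h7 : (ν (d + 4) : ℝ) = ν d + k := by exact_mod_cast hk
      rw [hFd, hF4, h7]
      simp only [hu]
      nlinarith
    · rw [hFd, hF1 (d + 4) (by omega)]
      have h5 : (ν d : ℝ) ≤ N := by exact_mod_cast hle d h1 h2
      have h6 : 0 ≤ Real.log (codeSize (ν d) (d + 5)) := Real.log_natCast_nonneg _
      have h7 : (ν d : ℝ) * Real.log 2 ≤ N * Real.log 2 := mul_le_mul_of_nonneg_right h5 hl2.le
      simp only [hu]
      linarith
  have hsum : ∑ d ∈ Icc 1 N, u d ≤ 4 * N * Real.log 2 := by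
    have h1 : ∑ d ∈ Icc 1 N, u d ≤ ∑ d ∈ Icc 1 N, (F d - F (d + 4)) :=
      sum_le_sum fun d hd => by
        rw [mem_Icc] at hd
        exact hstep d hd.1 hd.2
    have h2 : Icc 1 N = Ico 1 (1 + N) := by
      ext d
      rw [mem_Icc, mem_Ico]
      omega
    rw [h2] at h1 ⊢
    rw [tele] at h1
    have a1 := hF0 1
    have a2 := hF0 (1 + 1)
    have a3 := hF0 (1 + 2)
    have a4 := hF0 (1 + 3)
    rw [hF1 (1 + N) (by omega), hF1 (1 + N + 1) (by omega), hF1 (1 + N + 2) (by omega), hF1 (1 + N + 3) (by omega)] at h1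
    linarith
  set μ := min K (Real.log ((N : ℝ) + 1)) with hμ
  set M := min (K - 10) (Real.log ((N : ℝ) + 1) / 2) with hM
  have hM0 : 0 < M := lt_min (by linarith) (by linarith)
  have hμM : μ ≤ 2 * M := by
    rcases le_total (K - 10) (Real.log ((N : ℝ) + 1) / 2) with h4 | h4
    · rw [hM, min_eq_left h4]
      have := min_le_left K (Real.log ((N : ℝ) + 1))
      linarith
    · rw [hM, min_eq_right h4]
      have := min_le_right K (Real.log ((N : ℝ) + 1))
      linarith
  have hmark : (((Icc 1 N).filter fun d => M < u d).card : ℝ) * M ≤ 4 * N * Real.log 2 := by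
    calc (((Icc 1 N).filter fun d => M < u d).card : ℝ) * M = ∑ d ∈ (Icc 1 N).filter (fun d => M < u d), M := by
          rw [sum_const, nsmul_eq_mul]
      _ ≤ ∑ d ∈ (Icc 1 N).filter (fun d => M < u d), u d := sum_le_sum fun d hd => (mem_filter.1 hd).2.le
      _ ≤ ∑ d ∈ Icc 1 N, u d := sum_le_sum_of_subset_of_nonneg (filter_subset _ _) fun d _ _ => hu0 d
      _ ≤ _ := hsum
  have hsub : ((Icc 1 N).filter fun d => K * 2 ^ ν d / codeSize (ν d) (d + 1) < (chi (ν d) d : ℝ)) ⊆
      ((Icc 1 N).filter fun d => M < u d) ∪ (Icc 1 3 ∪ Icc 1 (Nat.sqrt N)) := by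
    intro d hd
    rw [mem_filter, mem_Icc] at hd
    rw [mem_union, mem_union, mem_filter, mem_Icc, mem_Icc, mem_Icc]
    have hA0 := cs_pos (ν d) (d + 1)
    have hA1 := cs_pos (ν d) (d + 5)
    have h9 : K * 2 ^ ν d / (codeSize (ν d) (d + 1) : ℝ) = 2 ^ ν d / codeSize (ν d) (d + 1) * K := by ring
    by_cases h1 : d ≤ 3
    · exact Or.inr (Or.inl ⟨hd.1.1, h1⟩)
    by_cases h2 : d ≤ Nat.sqrt N
    · exact Or.inr (Or.inr ⟨hd.1.1, h2⟩)
    refine Or.inl ⟨hd.1, ?_⟩
    have hdν : d < ν d := by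
      by_contra hlt
      have h3 := chi_top (not_lt.1 hlt)
      have h4 := hd.2
      rw [h9] at h4
      have h5 : (2 : ℝ) ^ ν d / codeSize (ν d) (d + 1) ≤ 2 ^ ν d / codeSize (ν d) (d + 1) * K :=
        le_mul_of_one_le_right (by positivity) hK
      linarith
    by_contra hlt
    have h3 := not_lt.1 hlt
    have h4 : u d = Real.log (codeSize (ν d) (d + 1) / codeSize (ν d) (d + 5)) :=
      (Real.log_div hA0.ne' hA1.ne').symm
    rw [h4] at h3
    have hn2 : (N : ℝ) + 1 ≤ ((ν d : ℝ) + 1) ^ 2 := by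
      have h5 := Nat.sqrt_lt.1 (not_le.1 h2)
      have h6 : N + 1 ≤ (ν d + 1) ^ 2 := by nlinarith
      exact_mod_cast h6
    have hlog : Real.log ((N : ℝ) + 1) / 2 ≤ Real.log ((ν d : ℝ) + 1) := by
      have h5 := Real.log_le_log (show (0 : ℝ) < N + 1 by linarith) hn2
      rw [Real.log_pow] at h5
      push_cast at h5
      linarith
    have h5 : (codeSize (ν d) (d + 1) : ℝ) / codeSize (ν d) (d + 5) ≤ ν d + 1 := by
      have h6 := (h3.trans (min_le_right _ _)).trans hlog
      exact (Real.log_le_log_iff (by positivity) (by positivity)).1 h6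
    have h6 := ineq_lin (show 4 ≤ d by omega) h5
    have h7 : Real.log (codeSize (ν d) (d + 1) / codeSize (ν d) (d + 5)) + 10 ≤ K := by
      have := h3.trans (min_le_left _ _)
      linarith
    have h8 : (chi (ν d) d : ℝ) ≤ 2 ^ ν d / codeSize (ν d) (d + 1) * K :=
      h6.trans (mul_le_mul_of_nonneg_left h7 (by positivity))
    have h10 := hd.2
    rw [h9] at h10
    linarith
  have hcount : (((Icc 1 N).filter fun d => K * 2 ^ ν d / codeSize (ν d) (d + 1) < (chi (ν d) d : ℝ)).card : ℝ) ≤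
      (((Icc 1 N).filter fun d => M < u d).card : ℝ) + (3 + (Nat.sqrt N : ℕ)) := by
    have h1 := (card_le_card hsub).trans ((card_union_le _ _).trans (Nat.add_le_add_left (card_union_le _ _) _))
    rw [Nat.card_Icc, Nat.card_Icc, Nat.add_sub_cancel, Nat.add_sub_cancel] at h1
    exact_mod_cast h1
  have hsq : ((Nat.sqrt N : ℕ) : ℝ) * μ ≤ 2 * N := by
    have h1 : ((Nat.sqrt N : ℕ) : ℝ) ≤ Real.sqrt N := Real.nat_sqrt_le_real_sqrt
    have h2 : Real.log ((N : ℝ) + 1) ≤ 2 * Real.sqrt N := by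
      have hs0 : 0 ≤ Real.sqrt N := Real.sqrt_nonneg _
      have hs1 : Real.sqrt N * Real.sqrt N = N := Real.mul_self_sqrt (by positivity)
      have h3 : (N : ℝ) + 1 ≤ (Real.sqrt N + 1) ^ 2 := by nlinarith
      have h4 := Real.log_le_log (by linarith) h3
      rw [Real.log_pow] at h4
      have h5 := Real.log_le_sub_one_of_pos (show 0 < Real.sqrt N + 1 by linarith)
      push_cast at h4
      linarith
    have h3 : Real.sqrt N * Real.sqrt N = N := Real.mul_self_sqrt (by positivity)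
    calc ((Nat.sqrt N : ℕ) : ℝ) * μ ≤ Real.sqrt N * (2 * Real.sqrt N) :=
          mul_le_mul h1 ((min_le_right _ _).trans h2) hμ0.le (Real.sqrt_nonneg _)
      _ = 2 * N := by
          rw [← mul_assoc, mul_comm (Real.sqrt N) 2, mul_assoc, h3]
  have hμN : μ ≤ N := (min_le_right _ _).trans hLN
  have hfin : (((Icc 1 N).filter fun d => M < u d).card : ℝ) * μ ≤ 8 * N * Real.log 2 := by
    calc (((Icc 1 N).filter fun d => M < u d).card : ℝ) * μ ≤ (((Icc 1 N).filter fun d => M < u d).card : ℝ) * (2 * M) :=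
          mul_le_mul_of_nonneg_left hμM (by positivity)
      _ = 2 * ((((Icc 1 N).filter fun d => M < u d).card : ℝ) * M) := by ring
      _ ≤ 2 * (4 * N * Real.log 2) := by linarith
      _ = _ := by ring
  have hfin2 : 8 * (N : ℝ) * Real.log 2 ≤ 8 * N * 1 :=
    mul_le_mul_of_nonneg_left (by linarith) (by positivity)
  calc (((Icc 1 N).filter fun d => K * 2 ^ ν d / codeSize (ν d) (d + 1) < (chi (ν d) d : ℝ)).card : ℝ) * μ ≤
        ((((Icc 1 N).filter fun d => M < u d).card : ℝ) + (3 + (Nat.sqrt N : ℕ))) * μ :=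
        mul_le_mul_of_nonneg_right hcount hμ0.le
    _ = (((Icc 1 N).filter fun d => M < u d).card : ℝ) * μ + (3 * μ + (Nat.sqrt N : ℕ) * μ) := by ring
    _ ≤ 20 * N := by linarith

end MP7d5fe8.T
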